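import Pool.Agent.LibBE66.F2

/-! ROW F3 : the amplitude `AA` as a function of the parameter. MEDIUM. Cites F2, LibBR73/AN1 (`Fm_det`, `JA_ge`), LibBE88/A1
(`s_bdd`, `CF.bd`, `hm_mm`).
PLAN. `F3_jac`: `mm m (s i) t z = exp (s i (t, z)) • m z`, so `√(dt (mm ..)) = exp (s i (t, z)) * √(dt (m z))`; the same for the
base metric `m0 = mm m (s0 i) 0`; with `Fm_det` for `m0` (`JA ≥ 1 > 0`, `√dt > 0`, so `det > 0`):
`√(dt (m1 z)) |det| = exp (s i (t, z) - s0 i (0, z)) * JA m0 (..) y`, `z = Fm m0 x0 v0 (r, y)`.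
`F3_JA`: `JA'' = -K JA ≤ b0^2 JA` (`JA_ode`, `J_zero`, `JA ≥ 1`), so for `|y| ≤ 2` it is bounded by a constant depending on `b0`
(compare `jac_unif` in LibBE88/G4: `(JA + JA') exp (-(1+b0^2) y)` is nonincreasing for `y ≥ 0`; for `y < 0` use
`JA m x (-u) (-y) = JA m x u y`, `JA_neg` / `J_rev`, LibBR70/H1g, LibBR73).
`AA_smooth`, `AA_bd`: the product of `KC` (row F2) and `t ↦ exp (s i (t, z) - s0 i (0, z)) * const`: derivatives in `t` of
`s i (·, z)` of every order are bounded for `|t| ≤ 1` (`CF.bd`, `CF.inv`, move `z` to `closure D`), the exponential by the chain rule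
(`norm_iteratedFDeriv_comp_le` or the calculus `EB_comp` of LibBR70/JB2 with `ℓ = 0`), Leibniz; the displacement is bounded by
`2 l + 8` (`G5_disp`) and `l ≤ ρ`. -/

open MeasureTheory Set Filter Topology
open scoped ContDiff

namespace BE66

open BGS BR BE B35

variable {Γ : Type} [Group Γ] [MulAction Γ Pl] {D : Set Pl} {ι : Type} {m : Pl → Co}
  {a b b0 : ℝ} {L0 : ℕ} {s s0 : ι → ℝ × Pl → ℝ} {nn : ι → ℕ} {pc : ι → ℤ × ℤ} {w e : ι → ℝ}

theorem F3_slice {P E : Type} [NormedAddCommGroup P] [NormedSpace ℝ P] [NormedAddCommGroup E]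
    [NormedSpace ℝ E] {G : P × E → ℝ} (hG : ContDiff ℝ ∞ G) (k : ℕ) (x : P) (v : E) :
    ‖iteratedFDeriv ℝ k (fun y => G (y, v)) x‖ ≤ ‖iteratedFDeriv ℝ k G (x, v)‖ := by
  have h1 : (fun y => G (y, v)) =
      (fun p : P × E => G (p + (0, v))) ∘ (ContinuousLinearMap.inl ℝ P E) := by
    funext y
    simp
  have h2 : ContDiff ℝ ∞ (fun p : P × E => G (p + (0, v))) :=
    hG.comp (contDiff_id.add contDiff_const)
  rw [h1, ContinuousLinearMap.iteratedFDeriv_comp_right (ContinuousLinearMap.inl ℝ P E) h2 x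
    (i := k) (by exact_mod_cast le_top), iteratedFDeriv_comp_add_right]
  have h3 : (ContinuousLinearMap.inl ℝ P E) x + (0, v) = (x, v) := by simp
  rw [h3]
  refine (ContinuousMultilinearMap.norm_compContinuousLinearMap_le _ _).trans ?_
  have h4 : ∏ _i : Fin k, ‖ContinuousLinearMap.inl ℝ P E‖ ≤ 1 := by
    refine Finset.prod_le_one (fun _ _ => norm_nonneg _) fun _ _ => ?_
    exact ContinuousLinearMap.norm_inl_le_one ℝ P E
  exact mul_le_of_le_one_right (norm_nonneg _) h4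

theorem F3_iexp (n : ℕ) (x : ℝ) : iteratedDeriv n Real.exp x = Real.exp x := by
  have h := congrFun (iteratedDeriv_exp_const_mul n (1 : ℝ)) x
  simpa using h

/-- The chain rule for the exponential. -/
theorem F3_exp {f : ℝ → ℝ} (hf : ContDiff ℝ ∞ f) {c t B : ℝ} {k : ℕ} (hB : 1 ≤ B)
    (h0 : |f t - c| ≤ 1) (h : ∀ j ≤ k, ‖iteratedDeriv j f t‖ ≤ B) :
    ‖iteratedDeriv k (fun r => Real.exp (f r - c)) t‖ ≤ k.factorial * Real.exp 1 * B ^ k := by
  have hφ : ContDiff ℝ ∞ (fun r => f r - c) := hf.sub contDiff_const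
  have h1 := norm_iteratedFDeriv_comp_le (𝕜 := ℝ) (g := Real.exp) (f := fun r => f r - c) (n := k)
    (N := ∞) Real.contDiff_exp hφ (by exact_mod_cast le_top) t (C := Real.exp 1) (D := B)
    (fun i _ => by
      rw [norm_iteratedFDeriv_eq_norm_iteratedDeriv, F3_iexp, Real.norm_eq_abs,
        abs_of_pos (Real.exp_pos _)]
      exact Real.exp_le_exp.2 ((le_abs_self _).trans h0))
    (fun i hi1 hik => by
      rw [norm_iteratedFDeriv_eq_norm_iteratedDeriv]
      have h2 : (fun r => f r - c) = fun r => -c + f r := by funext r; ring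
      rw [h2, iteratedDeriv_const_add hi1]
      refine (h i hik).trans ?_
      calc B = B ^ 1 := (pow_one B).symm
        _ ≤ B ^ i := pow_le_pow_right₀ hB hi1)
  rw [norm_iteratedFDeriv_eq_norm_iteratedDeriv] at h1
  exact h1

/-- Growth of the solutions of `f'' = k f`. -/
theorem F3_ode {f f' k : ℝ → ℝ} {B : ℝ} (hB : 0 ≤ B) (h1 : ∀ t, HasDerivAt f (f' t) t)
    (h2 : ∀ t, HasDerivAt f' (k t * f t) t) (hk : ∀ t, 0 ≤ k t ∧ k t ≤ B) (h0 : f 0 = 1)
    (h0' : f' 0 = 0) (hf : ∀ t, 1 ≤ f t) {t : ℝ} (ht : 0 ≤ t) :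
    f t ≤ Real.exp ((1 + B) * t) := by
  have hmono : ∀ {g g' : ℝ → ℝ}, (∀ t, HasDerivAt g (g' t) t) → (∀ t, 0 ≤ t → 0 ≤ g' t) →
      ∀ {t : ℝ}, 0 ≤ t → g 0 ≤ g t := by
    intro g g' e1 e2 t ht
    have h3 : MonotoneOn g (Ici 0) := by
      refine monotoneOn_of_deriv_nonneg (convex_Ici 0)
        (fun t _ => (e1 t).continuousAt.continuousWithinAt)
        (fun t _ => (e1 t).differentiableAt.differentiableWithinAt) fun t ht => ?_
      rw [interior_Ici] at ht
      rw [(e1 t).deriv]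
      exact e2 t (le_of_lt ht)
    exact h3 (mem_Ici.2 le_rfl) (mem_Ici.2 ht) ht
  have hf' : ∀ t, 0 ≤ t → 0 ≤ f' t := by
    intro t ht
    have := hmono h2 (fun t _ => mul_nonneg (hk t).1 (by linarith [hf t])) ht
    rwa [h0'] at this
  have hexp : ∀ t : ℝ, HasDerivAt (fun t => Real.exp (-(1 + B) * t))
      (Real.exp (-(1 + B) * t) * (-(1 + B))) t := fun t =>
    ((hasDerivAt_id t).const_mul (-(1 + B))).exp.congr_deriv (by simp)
  have h5 := hmono
    (g := fun t => -((f t + f' t) * Real.exp (-(1 + B) * t)))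
    (g' := fun t => -((f' t + k t * f t) * Real.exp (-(1 + B) * t) + (f t + f' t) *
        (Real.exp (-(1 + B) * t) * (-(1 + B)))))
    (fun t => (((h1 t).add (h2 t)).mul (hexp t)).neg)
    (fun t ht => by
      have e1 := (hk t).2
      have e2 := hf' t ht
      have e3 : 0 ≤ f t := by linarith [hf t]
      have e4 : k t * f t ≤ B * f t := mul_le_mul_of_nonneg_right e1 e3
      have e5 : 0 ≤ B * f' t := mul_nonneg hB e2
      have e6 : -((f' t + k t * f t) * Real.exp (-(1 + B) * t) + (f t + f' t) *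
        (Real.exp (-(1 + B) * t) * (-(1 + B)))) =
          Real.exp (-(1 + B) * t) * ((1 + B) * (f t + f' t) - (f' t + k t * f t)) := by ring
      rw [e6]
      apply mul_nonneg (Real.exp_pos _).le
      nlinarith) ht
  simp only [h0, h0', mul_zero, Real.exp_zero, add_zero, mul_one] at h5
  have h6 : (f t + f' t) * Real.exp (-(1 + B) * t) ≤ 1 := by linarith
  have h7 : f t * Real.exp (-(1 + B) * t) ≤ 1 := by
    have := mul_nonneg (hf' t ht) (Real.exp_pos (-(1 + B) * t)).le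
    nlinarith
  have h8 : Real.exp (-(1 + B) * t) * Real.exp ((1 + B) * t) = 1 := by
    rw [← Real.exp_add, show -(1 + B) * t + (1 + B) * t = 0 by ring, Real.exp_zero]
  calc f t = f t * Real.exp (-(1 + B) * t) * Real.exp ((1 + B) * t) := by
        rw [mul_assoc, h8, mul_one]
    _ ≤ 1 * Real.exp ((1 + B) * t) := mul_le_mul_of_nonneg_right h7 (Real.exp_pos _).le
    _ = _ := one_mul _

theorem F3_dt (c : ℝ) (hc : 0 ≤ c) (w : Co) : √(dt (c • w)) = c * √(dt w) := by
  have h : dt (c • w) = c ^ 2 * dt w := by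
    simp only [dt, Prod.smul_fst, Prod.smul_snd, smul_eq_mul]
    ring
  rw [h, Real.sqrt_mul (sq_nonneg c), Real.sqrt_sq hc]

theorem F3_jac (h : DF Γ D m a b b0 L0 s s0 nn pc w e) (i : ι) (t : ℝ) {x0 v0 : Pl}
    (hv : eu v0 = 1) (p : Pl) {z : Pl × Pl} (hz : z = gfl (mm m (s0 i) 0) p.1 (x0, v0)) :
    √(dt (mm m (s i) t (Fm (mm m (s0 i) 0) x0 v0 p))) *
        |(fderiv ℝ (Fm (mm m (s0 i) 0) x0 v0) p).det| =
      Real.exp (s i (t, Fm (mm m (s0 i) 0) x0 v0 p) - s0 i (0, Fm (mm m (s0 i) 0) x0 v0 p)) *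
        JA (mm m (s0 i) 0) z.1 (rot z.2) p.2 := by
  have hm := hm_mm h.cf0 i 0
  have hX := h.cf0.hX
  have h1 := Fm_det hX hm hv p hz
  have hu : eu (rot z.2) = 1 := by
    have h2 : eu z.2 = 1 := by
      rw [hz, gfl_eu hX hm]
      exact hv
    rw [← h2]
    simp [eu, rot, add_comm]
  have h3 : 1 ≤ JA (mm m (s0 i) 0) z.1 (rot z.2) p.2 := JA_ge hX hm hu p.2
  set x := Fm (mm m (s0 i) 0) x0 v0 p with hx
  set d := (fderiv ℝ (Fm (mm m (s0 i) 0) x0 v0) p).det with hd
  have h4 : √(dt (mm m (s0 i) 0 x)) = Real.exp (s0 i (0, x)) * √(dt (m x)) :=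
    F3_dt _ (Real.exp_pos _).le _
  have h5 : √(dt (mm m (s i) t x)) = Real.exp (s i (t, x)) * √(dt (m x)) :=
    F3_dt _ (Real.exp_pos _).le _
  have h6 : 0 < √(dt (mm m (s0 i) 0 x)) := Real.sqrt_pos.2 (hm.pos x).2
  have h7 : 0 < d := by
    by_contra h8
    push Not at h8
    have := mul_nonpos_of_nonneg_of_nonpos h6.le h8
    linarith
  rw [abs_of_pos h7, h5, ← h1, h4, Real.exp_sub]
  have h9 : Real.exp (s0 i (0, x)) ≠ 0 := (Real.exp_pos _).ne'
  field_simp

theorem F3_JA (h : CF Γ D m a b s) : ∃ C : ℝ, 1 ≤ C ∧ ∀ (i : ι) (x u : Pl), eu u = 1 →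
    ∀ y : ℝ, |y| ≤ 2 → 1 ≤ JA (mm m (s i) 0) x u y ∧ JA (mm m (s i) 0) x u y ≤ C := by
  refine ⟨Real.exp ((1 + b ^ 2) * 2), Real.one_le_exp (by positivity), ?_⟩
  intro i x u hu y hy
  have hm := hm_mm h i 0
  have hX := h.hX
  have hcu := h.neg i 0
  set mq := mm m (s i) 0 with hmq
  obtain ⟨z1, z2, -, -⟩ := J_zero hX hm (x := x) hu
  have hA1 := fun t => (JA_ode hX hm (x := x) hu t).1
  have hA2 := fun t => (JA_ode hX hm (x := x) hu t).2
  have hge := fun t => JA_ge hX hm (x := x) hu t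
  have hk : ∀ t, 0 ≤ -curv mq (gfl mq t (x, u)).1 ∧ -curv mq (gfl mq t (x, u)).1 ≤ b ^ 2 :=
    fun t => by
      have := hcu (gfl mq t (x, u)).1
      have := sq_nonneg a
      constructor <;> linarith
  refine ⟨hge y, ?_⟩
  have hle : JA mq x u y ≤ Real.exp ((1 + b ^ 2) * |y|) := by
    rcases le_total 0 y with h0 | h0
    · rw [abs_of_nonneg h0]
      exact F3_ode (sq_nonneg b) hA1 hA2 hk z1 z2 hge h0
    · rw [abs_of_nonpos h0]
      have hneg : ∀ t : ℝ, HasDerivAt (fun t : ℝ => -t) (-1) t := fun t => hasDerivAt_neg t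
      have e := F3_ode (f := fun t => JA mq x u (-t)) (f' := fun t => -deriv (JA mq x u) (-t))
        (k := fun t => -curv mq (gfl mq (-t) (x, u)).1) (sq_nonneg b)
        (fun t => by
          have := (hA1 (-t)).comp t (hneg t)
          exact this.congr_deriv (by ring))
        (fun t => by
          have := ((hA2 (-t)).comp t (hneg t)).neg
          exact this.congr_deriv (by ring))
        (fun t => hk (-t)) (by rw [neg_zero]; exact z1) (by rw [neg_zero, z2, neg_zero])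
        (fun t => hge (-t)) (t := -y) (by linarith)
      simpa using e
  refine hle.trans (Real.exp_le_exp.2 ?_)
  exact mul_le_mul_of_nonneg_left hy (by positivity)

/-- The exponent as a function of the parameter. -/
theorem F3_s (h : CF Γ D m a b s) (k : ℕ) : ∃ C : ℝ, 1 ≤ C ∧ ∀ (i : ι) (t : ℝ), |t| ≤ 1 →
    ∀ (z : Pl) (c : ℝ), |s i (t, z) - c| ≤ 1 →
      ∀ j ≤ k, ‖iteratedDeriv j (fun r => Real.exp (s i (r, z) - c)) t‖ ≤ C := by
  choose Ck hCk using h.bd
  set B : ℝ := 1 + ∑ j ∈ Finset.range (k + 1), |Ck j| with hB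
  have hS : 0 ≤ ∑ j ∈ Finset.range (k + 1), |Ck j| := Finset.sum_nonneg fun _ _ => abs_nonneg _
  have hB1 : 1 ≤ B := by linarith
  have hk1 : (1 : ℝ) ≤ k.factorial := by exact_mod_cast Nat.one_le_iff_ne_zero.2 (Nat.factorial_ne_zero k)
  refine ⟨k.factorial * Real.exp 1 * B ^ k, ?_, ?_⟩
  · exact one_le_mul_of_one_le_of_one_le
      (one_le_mul_of_one_le_of_one_le hk1 (Real.one_le_exp zero_le_one)) (one_le_pow₀ hB1)
  intro i t ht z c hc j hj
  obtain ⟨γ, hγ, -⟩ := h.hX.orbit z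
  have hsm : ContDiff ℝ ∞ (fun r => s i (r, z)) :=
    (h.smooth i).comp (contDiff_id.prodMk contDiff_const)
  have hder : ∀ l ≤ j, ‖iteratedDeriv l (fun r => s i (r, z)) t‖ ≤ B := by
    intro l hl
    have e1 : (fun r => s i (r, z)) = fun r => s i (r, γ • z) := by
      funext r
      exact (h.inv i r γ z).symm
    rw [e1, ← norm_iteratedFDeriv_eq_norm_iteratedDeriv]
    refine (F3_slice (h.smooth i) l t (γ • z)).trans ?_
    refine (hCk l i t (by rw [Real.norm_eq_abs]; exact ht) (γ • z) (subset_closure hγ)).trans ?_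
    have e2 : |Ck l| ≤ ∑ j ∈ Finset.range (k + 1), |Ck j| :=
      Finset.single_le_sum (f := fun j => |Ck j|) (fun _ _ => abs_nonneg _)
        (Finset.mem_range.2 (by omega))
    have e3 := le_abs_self (Ck l)
    linarith
  refine (F3_exp hsm hB1 hc hder).trans ?_
  have f1 : (j.factorial : ℝ) ≤ k.factorial := by exact_mod_cast Nat.factorial_le hj
  have f2 : B ^ j ≤ B ^ k := pow_le_pow_right₀ hB1 hj
  have f3 : 0 < Real.exp 1 := Real.exp_pos 1
  gcongr

end BE66
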