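import Pool.Agent.LibBE66.Defs

/-! ROW G2 : two metrics with nearly equal distances: the constant speed segments with the same end points are
close, with the same parameter. MEDIUM. Only LibBGM20 (A5 `ds_ge`, `ds_E`, `ds_eq`, A7 `A7_other`).
PLAN. `z = E1 x (θ • V1 x y)`, `p = E0 x (θ • V0 x y)`, `d = ds m0 x y`. `ds m1 x z = θ ds m1 x y` (`ds_E`, `eu_smul`, `ds_eq`),
`ds m1 z y = (1-θ) ds m1 x y` (`A7_other` from the other end, `ds_symm`). So `ds m0 x z ≤ (1+η)^2 θ d`,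
`ds m0 z y ≤ (1+η)^2 (1-θ) d`. Put `u = V0 p x`, `v = V0 p y`, `ζ = V0 p z`. There is `A` with `eu A = d`,
`u = -(θ • A)`, `v = (1-θ) • A` (`Had.go` for `x`, `V0 x y` and `s = θ`: `E (θ V + t V) = E p (t • w)`, `eu w = eu V = d`, at
`t = 1 - θ` and `t = -θ`; `VE`, `E0`). `ds_ge` at the centre `p`: `eu (ζ - u) ≤ ds m0 z x`, `eu (ζ - v) ≤ ds m0 z y`
(with `EV`). `(1-θ) eu (ζ-u)^2 + θ eu (ζ-v)^2 = eu ζ^2 + θ (1-θ) d^2` (expand, `eu_sq`), `eu ζ = ds m0 p z`, so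
`ds m0 p z ^ 2 ≤ ((1+η)^4 - 1) θ (1-θ) d^2`. -/

open MeasureTheory Set Filter Topology
open scoped ContDiff

namespace BE66

open BGS

theorem syn {m0 m1 : Pl → Co} {k0 k1 : ℝ} {E0 V0 E1 V1 : Pl → Pl → Pl} {F0 F1 : Pl → Pl → ℝ → ℝ}
    (h0 : BGM.Had m0 k0 E0 V0 F0) (h1 : BGM.Had m1 k1 E1 V1 F1) {η : ℝ} (hη : 0 ≤ η)
    (h01 : ∀ x y, BGM.ds m0 x y ≤ (1 + η) * BGM.ds m1 x y)
    (h10 : ∀ x y, BGM.ds m1 x y ≤ (1 + η) * BGM.ds m0 x y) (x y : Pl) {θ : ℝ} (hθ : 0 ≤ θ)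
    (hθ' : θ ≤ 1) :
    BGM.ds m0 (E0 x (θ • V0 x y)) (E1 x (θ • V1 x y)) ^ 2 ≤
      ((1 + η) ^ 4 - 1) * (θ * (1 - θ)) * BGM.ds m0 x y ^ 2 := by
  set z := E1 x (θ • V1 x y) with hz
  set p := E0 x (θ • V0 x y) with hp
  set d := BGM.ds m0 x y with hd
  have hθ1 : 0 ≤ 1 - θ := by linarith
  have hd0 : 0 ≤ d := BGM.ds_nonneg m0 x y
  have hη1 : 0 ≤ 1 + η := by linarith
  -- distances in m1
  have a1 : BGM.ds m1 x z = θ * BGM.ds m1 x y := by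
    rw [hz, BGM.ds_E h1, BGM.eu_smul, abs_of_nonneg hθ, BGM.ds_eq h1]
  have a2 : BGM.ds m1 z y = (1 - θ) * BGM.ds m1 x y := by
    rw [BGM.ds_symm h1.rp z y, hz, BGM.A7_other h1 x y θ, BGM.ds_E h1, BGM.eu_smul,
      abs_of_nonneg hθ1, BGM.ds_symm h1.rp x y, BGM.ds_eq h1]
  have a3 : BGM.ds m1 x y ≤ (1 + η) * d := h10 x y
  have b1 : BGM.ds m0 z x ≤ (1 + η) ^ 2 * θ * d := by
    rw [BGM.ds_symm h0.rp z x]
    refine (h01 x z).trans ?_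
    rw [a1]
    calc (1 + η) * (θ * BGM.ds m1 x y) ≤ (1 + η) * (θ * ((1 + η) * d)) := by gcongr
      _ = _ := by ring
  have b2 : BGM.ds m0 z y ≤ (1 + η) ^ 2 * (1 - θ) * d := by
    refine (h01 z y).trans ?_
    rw [a2]
    calc (1 + η) * ((1 - θ) * BGM.ds m1 x y) ≤ (1 + η) * ((1 - θ) * ((1 + η) * d)) := by gcongr
      _ = _ := by ring
  -- the centre p
  obtain ⟨A, hA, hgo⟩ := h0.go x (V0 x y) θ
  rw [← hp] at hgo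
  have hAd : BGM.eu A = d := by rw [hA, ← BGM.ds_eq h0]
  have c1 : E0 p ((1 - θ) • A) = y := by
    rw [← hgo (1 - θ), add_sub_cancel, one_smul, h0.EV]
  have c2 : E0 p ((-θ) • A) = x := by
    rw [← hgo (-θ), add_neg_cancel, zero_smul, h0.E0]
  set ζ := V0 p z with hζ
  have c3 : E0 p ζ = z := h0.EV p z
  have e1 : BGM.eu (ζ - (-θ) • A) ≤ (1 + η) ^ 2 * θ * d := by
    have := BGM.ds_ge h0 p ζ ((-θ) • A)
    rw [c2, c3] at this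
    exact this.trans b1
  have e2 : BGM.eu (ζ - (1 - θ) • A) ≤ (1 + η) ^ 2 * (1 - θ) * d := by
    have := BGM.ds_ge h0 p ζ ((1 - θ) • A)
    rw [c1, c3] at this
    exact this.trans b2
  have s1 : BGM.eu (ζ - (-θ) • A) ^ 2 ≤ ((1 + η) ^ 2 * θ * d) ^ 2 :=
    pow_le_pow_left₀ (BGM.eu_nonneg _) e1 2
  have s2 : BGM.eu (ζ - (1 - θ) • A) ^ 2 ≤ ((1 + η) ^ 2 * (1 - θ) * d) ^ 2 :=
    pow_le_pow_left₀ (BGM.eu_nonneg _) e2 2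
  have hA2 : A.1 ^ 2 + A.2 ^ 2 = d ^ 2 := by rw [← hAd, BGM.eu_sq]
  rw [BGM.eu_sq] at s1 s2
  simp only [Prod.fst_sub, Prod.snd_sub, Prod.smul_fst, Prod.smul_snd, smul_eq_mul] at s1 s2
  rw [BGM.ds_eq h0 p z, ← hζ, BGM.eu_sq]
  have t1 := mul_le_mul_of_nonneg_left s1 hθ1
  have t2 := mul_le_mul_of_nonneg_left s2 hθ
  have key : ζ.1 ^ 2 + ζ.2 ^ 2 = (1 - θ) * ((ζ.1 - -θ * A.1) ^ 2 + (ζ.2 - -θ * A.2) ^ 2) +
      θ * ((ζ.1 - (1 - θ) * A.1) ^ 2 + (ζ.2 - (1 - θ) * A.2) ^ 2) - θ * (1 - θ) * d ^ 2 := by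
    rw [← hA2]
    ring
  rw [key]
  calc _ ≤ (1 - θ) * ((1 + η) ^ 2 * θ * d) ^ 2 + θ * ((1 + η) ^ 2 * (1 - θ) * d) ^ 2 -
        θ * (1 - θ) * d ^ 2 := by linarith
    _ = _ := by ring

end BE66
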