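import Pool.Agent.LibBE66.G3

/-! ROW G4 : the periodised bump functions are Lipschitz with the constant `C R`. MEDIUM. Uses LibBGM20 (Q1:
`per_bmq_le`, `per_bmq_deriv`, `per_bmq_nonneg`; B1; A5 `ball_compact`; A2 `nm_equiv`; D2/D4 for the comparison with the norm).
PLAN. `per Γ f` is invariant (`PER_inv`, used in Q1: `per Γ f (γ • z) = per Γ f z`), `BR.ds` too (`ds_deck`). By `hX.orbit` move
`z` to `D`. If `ds m z z' ≥ 1`: the difference is `≤ C` (`per_bmq_le`, `per_bmq_nonneg`). If `ds m z z' < 1`: `z'` lies in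
`K0 = {w | ∃ z ∈ closure D, ds m z w ≤ 1}`, which is compact (the image of the compact `closure D × {eu v ≤ 1}` under
`(z, v) ↦ Ex m z v`), contained in a closed ball `K`, convex and compact. Along the geodesic
`c θ = Ex m z (θ • Vx m z z')`, `θ ∈ [0,1]`, all points are in `K0`, `‖c' θ‖ ≤ C₁ nm (m (c θ)) (c' θ) = C₁ ds m z z'`
(`BGM.nm_equiv` on `K`; `BGM.A3_rad`), and the derivative of `per Γ (bmq R p)` on `K` is bounded by `C₂ R`
(`per_bmq_deriv` with `r = 1`): mean value inequality for `per Γ (bmq R p) ∘ c` on `[0,1]`. -/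

open MeasureTheory Set Filter Topology
open scoped ContDiff

namespace BE66

open BGS BR BE B35

variable {Γ : Type} [Group Γ] [MulAction Γ Pl] {D : Set Pl} {m : Pl → Co}

/-- The image of the tangent vectors of length at most one. -/
private def G4_K (m : Pl → Co) (D : Set Pl) : Set Pl :=
  (fun q : Pl × Pl => Ex m q.1 q.2) '' (closure D ×ˢ {v : Pl | BGM.eu v ≤ 1})

private theorem G4_ball : IsCompact {v : Pl | BGM.eu v ≤ 1} := by
  refine (isCompact_closedBall (0 : Pl) 1).of_isClosed_subset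
    (isClosed_le BGM.eu_continuous continuous_const) ?_
  intro v hv
  rw [mem_closedBall_zero_iff]
  have h1 : BGM.eu v ≤ 1 := hv
  have h2 := BGM.eu_sq v
  have h3 := BGM.eu_nonneg v
  have h4 : v.1 ^ 2 + v.2 ^ 2 ≤ 1 := by nlinarith
  rw [Prod.norm_def, max_le_iff, Real.norm_eq_abs, Real.norm_eq_abs]
  constructor
  · exact abs_le_one_iff_mul_self_le_one.2 (by nlinarith [sq_nonneg v.2])
  · exact abs_le_one_iff_mul_self_le_one.2 (by nlinarith [sq_nonneg v.1])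

private theorem G4_Kc (hX : Surface Γ D) {k : ℝ} (hk : BGM.Had m k (Ex m) (Vx m) (JB m)) :
    IsCompact (G4_K m D) :=
  (hX.bdd.isCompact_closure.prod G4_ball).image hk.smE.continuous

private theorem G4_local (hX : Surface Γ D) {k : ℝ} (hk : BGM.Had m k (Ex m) (Vx m) (JB m))
    {C₁ C₂ : ℝ} (hC₁ : 0 ≤ C₁)
    (h1 : ∀ z ∈ G4_K m D, ∀ v : Pl, ‖v‖ ≤ C₁ * BGM.nm (m z) v) {f : Pl → ℝ}
    (hf : ContDiff ℝ ∞ f) (h2 : ∀ z ∈ G4_K m D, ‖fderiv ℝ f z‖ ≤ C₂) {z z' : Pl}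
    (hz : z ∈ closure D) (hd : BR.ds m z z' ≤ 1) :
    |f z - f z'| ≤ C₂ * (C₁ * BR.ds m z z') := by
  have hds : BGM.eu (Vx m z z') = BR.ds m z z' := rfl
  set V : Pl := Vx m z z' with hV
  have hE : ContDiff ℝ ∞ (Ex m z) := (BGM.A3_smooth hk z).1
  have hmem : ∀ t ∈ Icc (0 : ℝ) 1, Ex m z (t • V) ∈ G4_K m D := by
    intro t ht
    refine ⟨(z, t • V), ⟨hz, ?_⟩, rfl⟩
    show BGM.eu (t • V) ≤ 1
    rw [BGM.eu_smul, abs_of_nonneg ht.1, hds]
    have h3 : 0 ≤ BR.ds m z z' := BGM.eu_nonneg _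
    nlinarith [ht.2, ht.1]
  have hder : ∀ t : ℝ, HasDerivAt (fun t : ℝ => f (Ex m z (t • V)))
      (fderiv ℝ f (Ex m z (t • V)) (fderiv ℝ (Ex m z) (t • V) V)) t := by
    intro t
    have e1 : HasDerivAt (fun t : ℝ => t • V) V t := by
      have := (hasDerivAt_id t).smul_const V
      simpa using this
    have e2 : HasDerivAt (fun t : ℝ => Ex m z (t • V)) (fderiv ℝ (Ex m z) (t • V) V) t :=
      ((hE.differentiable (by simp)).differentiableAt.hasFDerivAt).comp_hasDerivAt t e1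
    exact ((hf.differentiable (by simp)).differentiableAt.hasFDerivAt).comp_hasDerivAt t e2
  have hb : ∀ t ∈ Icc (0 : ℝ) 1,
      ‖fderiv ℝ f (Ex m z (t • V)) (fderiv ℝ (Ex m z) (t • V) V)‖ ≤ C₂ * (C₁ * BR.ds m z z') := by
    intro t ht
    have e1 := h2 _ (hmem t ht)
    have e2 := h1 _ (hmem t ht) (fderiv ℝ (Ex m z) (t • V) V)
    rw [BGM.A3_rad hk z V t, hds] at e2
    refine (ContinuousLinearMap.le_opNorm _ _).trans ?_
    exact mul_le_mul e1 e2 (norm_nonneg _) ((norm_nonneg _).trans e1)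
  have hmv := (convex_Icc (0 : ℝ) 1).norm_image_sub_le_of_norm_hasDerivWithin_le
    (f := fun t : ℝ => f (Ex m z (t • V)))
    (f' := fun t => fderiv ℝ f (Ex m z (t • V)) (fderiv ℝ (Ex m z) (t • V) V))
    (C := C₂ * (C₁ * BR.ds m z z')) (x := 1) (y := 0)
    (fun t _ => (hder t).hasDerivWithinAt) hb (right_mem_Icc.2 zero_le_one)
    (left_mem_Icc.2 zero_le_one)
  have e0 : Ex m z ((0 : ℝ) • V) = z := by rw [zero_smul, hk.E0]
  have e1 : Ex m z ((1 : ℝ) • V) = z' := by rw [one_smul, hV, hk.EV]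
  simp only [e0, e1] at hmv
  rw [Real.norm_eq_abs] at hmv
  have e3 : ‖(0 : ℝ) - 1‖ = 1 := by norm_num
  rw [e3, mul_one] at hmv
  exact hmv

theorem per_lip (hX : Surface Γ D) (hO : Ori Γ) (hm : HM Γ m) (L : ℕ) : ∃ C : ℝ, 1 ≤ C ∧
    ∀ R : ℕ, 1 ≤ R → ∀ p ∈ grid L R, (∀ z, 0 ≤ per Γ (BGM.bmq R p) z) ∧
      (∀ z, per Γ (BGM.bmq R p) z ≤ C) ∧
      ∀ z z' : Pl, |per Γ (BGM.bmq R p) z - per Γ (BGM.bmq R p) z'| ≤ C * R * BR.ds m z z' := by
  obtain ⟨k, hk⟩ := GD.gd_had hX hm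
  obtain ⟨C₁, hC₁, h1⟩ := BGM.nm_equiv hk.rp (G4_Kc hX hk)
  obtain ⟨C₂, hC₂, h2⟩ := BGM.per_bmq_deriv hX L 1 (G4_Kc hX hk)
  obtain ⟨C₃, hC₃, h3⟩ := BGM.per_bmq_le hX L
  refine ⟨1 + C₂ * C₁ + C₃, by nlinarith [mul_pos hC₂ (lt_of_lt_of_le one_pos hC₁)],
    fun R hR p hp => ⟨fun z => BGM.per_bmq_nonneg R p z, fun z => ?_, fun z z' => ?_⟩⟩
  · have := h3 R hR p hp z
    nlinarith [mul_pos hC₂ (lt_of_lt_of_le one_pos hC₁)]
  · have hR1 : (1 : ℝ) ≤ R := by exact_mod_cast hR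
    have hR0 : (0 : ℝ) < R := by linarith
    have hC12 : 0 < C₂ * C₁ := mul_pos hC₂ (lt_of_lt_of_le one_pos hC₁)
    obtain ⟨γ, hγ, -⟩ := hX.orbit z
    have hd := (ds_deck hX hO hm γ z z').1
    rw [← PER_inv (BGM.bmq R p) γ z, ← PER_inv (BGM.bmq R p) γ z', ← hd]
    have hds0 : 0 ≤ BR.ds m (γ • z) (γ • z') := BGM.eu_nonneg _
    rcases le_or_gt (BR.ds m (γ • z) (γ • z')) 1 with hle | hgt
    · have h4 := G4_local hX hk (by linarith) (fun z hz v => (h1 z hz v).2)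
        (PER_smooth hX (BGM.bmq_smooth R p) (BGM.bmq_compact hR p))
        (C₂ := C₂ * (R : ℝ) ^ 1) (fun w hw => by
          have := h2 R hR p hp 1 le_rfl w hw
          rwa [norm_iteratedFDeriv_one] at this) (subset_closure hγ) hle
      refine h4.trans ?_
      rw [pow_one]
      have e : C₂ * (R : ℝ) * (C₁ * BR.ds m (γ • z) (γ • z')) =
          (C₂ * C₁) * (R * BR.ds m (γ • z) (γ • z')) := by ring
      rw [e, mul_assoc]
      have h5 : 0 ≤ (R : ℝ) * BR.ds m (γ • z) (γ • z') := mul_nonneg hR0.le hds0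
      nlinarith [mul_nonneg hC₃.le h5]
    · have e1 := h3 R hR p hp (γ • z)
      have e2 := h3 R hR p hp (γ • z')
      have e3 := BGM.per_bmq_nonneg (Γ := Γ) R p (γ • z)
      have e4 := BGM.per_bmq_nonneg (Γ := Γ) R p (γ • z')
      have e5 : |per Γ (BGM.bmq R p) (γ • z) - per Γ (BGM.bmq R p) (γ • z')| ≤ C₃ := by
        rw [abs_le]
        constructor <;> linarith
      refine e5.trans ?_
      have h5 : 1 ≤ (R : ℝ) * BR.ds m (γ • z) (γ • z') := by nlinarith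
      rw [mul_assoc]
      nlinarith [mul_nonneg hC12.le (zero_le_one.trans h5), mul_le_mul_of_nonneg_left h5 hC₃.le]

/-- The same for the base metrics of a family. -/
theorem per_lip_fam {ι : Type} {a b : ℝ} {s : ι → ℝ × Pl → ℝ} (h : CF Γ D m a b s) (L : ℕ) :
    ∃ C : ℝ, 1 ≤ C ∧ ∀ (i : ι) (R : ℕ), 1 ≤ R → ∀ p ∈ grid L R,
      (∀ z, 0 ≤ per Γ (BGM.bmq R p) z) ∧ (∀ z, per Γ (BGM.bmq R p) z ≤ C) ∧
      ∀ z z' : Pl, |per Γ (BGM.bmq R p) z - per Γ (BGM.bmq R p) z'| ≤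
        C * R * BR.ds (mm m (s i) 0) z z' := by
  obtain ⟨C, hC, h1⟩ := per_lip h.hX h.hO h.hm L
  obtain ⟨B, hB⟩ := h.bd 0
  have hB' : ∀ (i : ι) (z : Pl), |s i (0, z)| ≤ |B| := by
    intro i z
    obtain ⟨γ, hγ, -⟩ := h.hX.orbit z
    rw [← h.inv i 0 γ z]
    have h2 := hB i 0 (by simp) (γ • z) (subset_closure hγ)
    rw [norm_iteratedFDeriv_zero, Real.norm_eq_abs] at h2
    exact h2.trans (le_abs_self B)
  have hcmp : ∀ (i : ι) (z z' : Pl),
      BR.ds m z z' ≤ Real.exp (|B| / 2) * BR.ds (mm m (s i) 0) z z' := by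
    intro i z z'
    have hrp : BGM.Rp m := GD.gd_rp h.hm
    have hs : ContDiff ℝ ∞ (fun z : Pl => s i (0, z)) :=
      (h.smooth i).comp (contDiff_const.prodMk contDiff_id)
    have h2 := BGM.D1_ds (f := fun _ => 0) (f' := fun z => s i (0, z)) hrp contDiff_const hs
      (ε := |B|) (fun z => by
        have := (abs_le.1 (hB' i z)).1
        linarith) z z'
    rw [BGM.D1_zero] at h2
    have e1 : BGM.cf (fun z => s i (0, z)) m = mm m (s i) 0 := rfl
    rw [e1, bgm_ds h.hX h.hm, bgm_ds h.hX (hm_mm h i 0)] at h2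
    exact h2
  have hexp : 1 ≤ Real.exp (|B| / 2) := Real.one_le_exp (by positivity)
  refine ⟨C * Real.exp (|B| / 2), one_le_mul_of_one_le_of_one_le hC hexp, fun i R hR p hp => ?_⟩
  obtain ⟨e1, e2, e3⟩ := h1 R hR p hp
  refine ⟨e1, fun z => (e2 z).trans (by nlinarith), fun z z' => (e3 z z').trans ?_⟩
  have hR0 : (0 : ℝ) ≤ R := Nat.cast_nonneg R
  have e4 := mul_le_mul_of_nonneg_left (hcmp i z z') (mul_nonneg (by linarith : (0 : ℝ) ≤ C) hR0)
  refine e4.trans (le_of_eq ?_)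
  ring

theorem per_cont (hX : Surface Γ D) {R : ℕ} (hR : 1 ≤ R) (p : ℤ × ℤ) :
    Continuous (per Γ (BGM.bmq R p)) ∧ ∀ (g : Γ) (z : Pl),
      per Γ (BGM.bmq R p) (g • z) = per Γ (BGM.bmq R p) z :=
  ⟨(PER_smooth hX (BGM.bmq_smooth R p) (BGM.bmq_compact hR p)).continuous,
    fun g z => PER_inv _ g z⟩

end BE66
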