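import Pool.Agent.LibBE66.G1
import Pool.Agent.LibBE66.G2
import Pool.Agent.LibBE66.G4

/-! ROW G5 : the derivative of the displacement in the coefficient is half of the integral of the bump function along
the axis of the base metric, up to a small error. MEDIUM / STRONG. Cites G1, G2, G3, G4.
PLAN. `m0 = mm m (s0 i) 0`, `m1 = mm m (s i) σ`, both `HM` (`hm_mm`), `Had` (`BGM.had_of` with `hX`, curvature bounds
`h.cf.neg`, `h.cf0.neg`; replace `b` by `|b|`, which is positive since `-b^2 ≤ -a^2 < 0`). `G5_cmp`: `BGM.D1_ds` with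
`f = s i (σ, ·)`, `f' = s0 i (0, ·)` (`mm m s p = BGM.cf (fun z => s (p, z)) m` by `rfl`) and
`exp (e/2) ≤ 1 + e` for `0 ≤ e ≤ 1`. `G5_shift`: the integrand of `pint` is periodic with the period `l`
(`G3_per`, `per_cont`), `Function.Periodic.intervalIntegral_add_eq`.
`G5_der`: `x = Fm m0 x0 v0 (t, y)`, `c θ = gp m (s i) θ (σ, x, g • x) = Ex m1 x (θ • Vx m1 x (g • x))`, `d1 = ds m1 x (g x)`,
`d0 = ds m0 x (g x)`, `P = per ..`. `first_var` (`x ≠ g • x`: `B1_free`, or `0 < l ≤ d0`) and `h.der`: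
the derivative is `(1/2) d1 ∫_0^1 w (P (c θ) - c') dθ`. Now
`|d1 - d0| ≤ e d0` (up to a factor 2), `|d0 - l| ≤ 2|y|` (`G3_len`), `|P| ≤ C`, and for every `θ`
`|P (c θ) - P (axis (t + θ l))| ≤ C R ds m0 (c θ) (axis ..) ≤ C R (√((1+e)^4 - 1) d0 + |y|)` (`per_lip_fam`, `syn` with
`η = e`, `G3_seg`, triangle inequality), `√((1+e)^4-1) ≤ 4 √e`; finally `∫_0^1 P (axis (t + θ l)) dθ * l = pint` (substitution,
`G5_shift`). -/

open MeasureTheory Set Filter Topology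
open scoped ContDiff

namespace BE66

open BGS BR BE B35

variable {Γ : Type} [Group Γ] [MulAction Γ Pl] {D : Set Pl} {ι : Type} {m : Pl → Co}
  {a b b0 : ℝ} {L0 : ℕ} {s s0 : ι → ℝ × Pl → ℝ} {nn : ι → ℕ} {pc : ι → ℤ × ℤ} {w e : ι → ℝ}

/-- Comparison of the distances. -/
theorem G5_cmp (h : DF Γ D m a b b0 L0 s s0 nn pc w e) (i : ι) {σ : ℝ} (hσ : σ ∈ Icc (0 : ℝ) 1)
    (x y : Pl) :
    BR.ds (mm m (s i) σ) x y ≤ (1 + e i) * BR.ds (mm m (s0 i) 0) x y ∧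
      BR.ds (mm m (s0 i) 0) x y ≤ (1 + e i) * BR.ds (mm m (s i) σ) x y := by
  have hrp : BGM.Rp m := ⟨h.cf.hm.smooth, h.cf.hm.pos⟩
  have hs : ContDiff ℝ ∞ fun z : Pl => s i (σ, z) :=
    (h.cf.smooth i).comp (contDiff_const.prodMk contDiff_id)
  have hs0 : ContDiff ℝ ∞ fun z : Pl => s0 i (0, z) :=
    (h.cf0.smooth i).comp (contDiff_const.prodMk contDiff_id)
  obtain ⟨he0, he1⟩ := h.e_mem i
  have hexp : Real.exp (e i / 2) ≤ 1 + e i := by
    have h1 := Real.abs_exp_sub_one_sub_id_le (x := e i / 2) (by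
      rw [abs_of_nonneg (by linarith)]
      linarith)
    have h2 := (abs_le.1 h1).2
    nlinarith
  have h1 := BGM.D1_ds hrp hs hs0 (ε := e i) (fun z => by
    have := (abs_le.1 (h.near i σ hσ z)).2
    linarith) x y
  have h2 := BGM.D1_ds hrp hs0 hs (ε := e i) (fun z => by
    have := (abs_le.1 (h.near i σ hσ z)).1
    linarith) x y
  have e1 : BGM.ds (BGM.cf (fun z : Pl => s i (σ, z)) m) x y = BR.ds (mm m (s i) σ) x y :=
    bgm_ds h.cf.hX (hm_mm h.cf i σ) x y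
  have e0 : BGM.ds (BGM.cf (fun z : Pl => s0 i (0, z)) m) x y = BR.ds (mm m (s0 i) 0) x y :=
    bgm_ds h.cf0.hX (hm_mm h.cf0 i 0) x y
  rw [e1, e0] at h1 h2
  have n1 : 0 ≤ BR.ds (mm m (s i) σ) x y := Real.sqrt_nonneg _
  have n0 : 0 ≤ BR.ds (mm m (s0 i) 0) x y := Real.sqrt_nonneg _
  exact ⟨h1.trans (mul_le_mul_of_nonneg_right hexp n0),
    h2.trans (mul_le_mul_of_nonneg_right hexp n1)⟩

theorem G5_shift (h : DF Γ D m a b b0 L0 s s0 nn pc w e) (i : ι) {g : Γ} {x0 v0 : Pl} {l : ℝ}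
    (hA : Axis (mm m (s0 i) 0) g x0 v0 l) (t : ℝ) :
    ∫ r in (0 : ℝ)..l, per Γ (BGM.bmq (nn i + 1) (pc i)) (gfl (mm m (s0 i) 0) (t + r) (x0, v0)).1 =
      pint Γ (mm m (s0 i) 0) (nn i + 1) (pc i) x0 v0 l := by
  have hm0 := hm_mm h.cf0 i 0
  obtain ⟨-, hinv⟩ := per_cont (Γ := Γ) h.cf.hX (Nat.le_add_left 1 (nn i)) (pc i)
  have hP : Function.Periodic (fun r : ℝ => per Γ (BGM.bmq (nn i + 1) (pc i))
      (gfl (mm m (s0 i) 0) r (x0, v0)).1) l := by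
    intro r
    show per Γ (BGM.bmq (nn i + 1) (pc i)) (gfl (mm m (s0 i) 0) (r + l) (x0, v0)).1 = _
    rw [G3_per h.cf.hX h.cf.hO hm0 hA, hinv]
  have h1 := hP.intervalIntegral_add_eq t 0
  unfold pint
  rw [zero_add] at h1
  rw [← h1]
  rw [intervalIntegral.integral_comp_add_left (fun r : ℝ => per Γ (BGM.bmq (nn i + 1) (pc i))
      (gfl (mm m (s0 i) 0) r (x0, v0)).1) t, add_zero]

/-- Bounds for the displacement. -/
theorem G5_disp (h : DF Γ D m a b b0 L0 s s0 nn pc w e) (i : ι) {σ : ℝ} (hσ : σ ∈ Icc (0 : ℝ) 1)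
    {g : Γ} {x0 v0 : Pl} {l : ℝ} (hA : Axis (mm m (s0 i) 0) g x0 v0 l) {t y : ℝ} (hy : |y| ≤ 2) :
    BR.ds (mm m (s i) σ) (Fm (mm m (s0 i) 0) x0 v0 (t, y))
      (g • Fm (mm m (s0 i) 0) x0 v0 (t, y)) ≤ 2 * l + 8 := by
  obtain ⟨he0, he1⟩ := h.e_mem i
  obtain ⟨h1, h2⟩ := G3_len h.cf.hX h.cf.hO (hm_mm h.cf0 i 0) hA t y
  have h3 := (G5_cmp h i hσ (Fm (mm m (s0 i) 0) x0 v0 (t, y))
    (g • Fm (mm m (s0 i) 0) x0 v0 (t, y))).1
  have h4 := hA.pos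
  nlinarith

/-- The distance of the two segments. -/
theorem G5_pt (h : DF Γ D m a b b0 L0 s s0 nn pc w e) (i : ι) {σ : ℝ} (hσ : σ ∈ Icc (0 : ℝ) 1)
    {g : Γ} {x0 v0 : Pl} {l : ℝ} (hA : Axis (mm m (s0 i) 0) g x0 v0 l) {t y : ℝ} (hy : |y| ≤ 2)
    {x : Pl} (hx : x = Fm (mm m (s0 i) 0) x0 v0 (t, y)) {θ : ℝ} (hθ : 0 ≤ θ) (hθ' : θ ≤ 1) :
    BR.ds (mm m (s0 i) 0) (gp m (s i) θ (σ, x, g • x))
      (gfl (mm m (s0 i) 0) (t + θ * l) (x0, v0)).1 ≤ 8 * (1 + l) * (√(e i) + |y|) := by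
  obtain ⟨he0, he1⟩ := h.e_mem i
  have hl := hA.pos
  have hm0 := hm_mm h.cf0 i 0
  have hm1 := hm_mm h.cf i σ
  obtain ⟨k0, had0⟩ := GD.gd_had h.cf.hX hm0
  obtain ⟨k1, had1⟩ := GD.gd_had h.cf.hX hm1
  have hrp : BGM.Rp (mm m (s0 i) 0) := ⟨hm0.smooth, hm0.pos⟩
  obtain ⟨h1, h2⟩ := G3_len h.cf.hX h.cf.hO hm0 hA t y
  rw [← hx] at h1 h2
  have h3 := syn had0 had1 he0 (fun x y => by
      rw [bgm_ds h.cf.hX hm0, bgm_ds h.cf.hX hm1]
      exact (G5_cmp h i hσ x y).2) (fun x y => by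
      rw [bgm_ds h.cf.hX hm0, bgm_ds h.cf.hX hm1]
      exact (G5_cmp h i hσ x y).1) x (g • x) hθ hθ'
  have h4 := G3_seg h.cf.hX h.cf.hO hm0 hA t y hx hθ hθ'
  have h5 := BGM.ds_tri hrp (gp m (s i) θ (σ, x, g • x))
    (Ex (mm m (s0 i) 0) x (θ • Vx (mm m (s0 i) 0) x (g • x)))
    (gfl (mm m (s0 i) 0) (t + θ * l) (x0, v0)).1
  have h6 : gp m (s i) θ (σ, x, g • x) =
      Ex (mm m (s i) σ) x (θ • Vx (mm m (s i) σ) x (g • x)) := rfl
  rw [BGM.ds_symm hrp (gp m (s i) θ (σ, x, g • x))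
    (Ex (mm m (s0 i) 0) x (θ • Vx (mm m (s0 i) 0) x (g • x)))] at h5
  rw [← h6] at h3
  simp only [bgm_ds h.cf.hX hm0] at h3 h5
  set d0 := BR.ds (mm m (s0 i) 0) x (g • x) with hd0
  set q := BR.ds (mm m (s0 i) 0) (Ex (mm m (s0 i) 0) x (θ • Vx (mm m (s0 i) 0) x (g • x)))
    (gp m (s i) θ (σ, x, g • x)) with hq
  have hq0 : 0 ≤ q := Real.sqrt_nonneg _
  have hr0 : 0 ≤ √(e i) := Real.sqrt_nonneg _
  have hr2 : √(e i) ^ 2 = e i := Real.sq_sqrt he0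
  have hy0 : 0 ≤ |y| := abs_nonneg y
  have h7 : q ≤ 2 * √(e i) * d0 := by
    have h8 : q ^ 2 ≤ (2 * √(e i) * d0) ^ 2 := by
      refine h3.trans ?_
      have h9 : (1 + e i) ^ 4 - 1 ≤ 15 * e i := by
        nlinarith [pow_nonneg he0 2, pow_nonneg he0 3,
          mul_nonneg he0 (sub_nonneg.2 he1), mul_nonneg (pow_nonneg he0 2) (sub_nonneg.2 he1),
          mul_nonneg (pow_nonneg he0 3) (sub_nonneg.2 he1)]
      have h10 : θ * (1 - θ) ≤ 1 / 4 := by nlinarith [sq_nonneg (θ - 1 / 2)]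
      have h11 : 0 ≤ θ * (1 - θ) := mul_nonneg hθ (by linarith)
      have h12 : ((1 + e i) ^ 4 - 1) * (θ * (1 - θ)) ≤ 4 * e i := by
        have h13 : ((1 + e i) ^ 4 - 1) * (θ * (1 - θ)) ≤ (15 * e i) * (1 / 4) :=
          mul_le_mul h9 h10 h11 (by linarith)
        linarith
      have h14 : (2 * √(e i) * d0) ^ 2 = 4 * e i * d0 ^ 2 := by
        rw [mul_pow, mul_pow, hr2]
        norm_num
      rw [h14]
      exact mul_le_mul_of_nonneg_right h12 (sq_nonneg _)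
    exact le_of_sq_le_sq h8 (by
      have : 0 ≤ d0 := Real.sqrt_nonneg _
      positivity)
  have h8 : d0 ≤ 4 * (1 + l) := by linarith
  have h9 : 2 * √(e i) * d0 ≤ 2 * √(e i) * (4 * (1 + l)) :=
    mul_le_mul_of_nonneg_left h8 (by positivity)
  nlinarith [mul_nonneg hl.le hy0]

theorem G5_der (h : DF Γ D m a b b0 L0 s s0 nn pc w e) : ∃ C : ℝ, 1 ≤ C ∧ ∀ (i : ι),
    ∀ σ ∈ Icc (0 : ℝ) 1, ∀ (g : Γ) (x0 v0 : Pl) (l : ℝ), Axis (mm m (s0 i) 0) g x0 v0 l →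
    ∀ (t y : ℝ), |y| ≤ 2 → ∀ x : Pl, x = Fm (mm m (s0 i) 0) x0 v0 (t, y) →
      |deriv (fun r => BR.ds (mm m (s i) r) x (g • x)) σ -
        w i / 2 * pint Γ (mm m (s0 i) 0) (nn i + 1) (pc i) x0 v0 l| ≤
      C * w i * (1 + l) ^ 2 * (((nn i : ℝ) + 1) * (√(e i) + |y|) + 1 / ((nn i : ℝ) + 1) ^ 2) := by
  obtain ⟨CL, hCL, hL⟩ := per_lip_fam h.cf0 L0
  obtain ⟨Cd, hd⟩ := h.der
  refine ⟨8 * CL + 4 * |Cd|, by linarith [abs_nonneg Cd], ?_⟩
  intro i σ hσ g x0 v0 l hA t y hy x hx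
  obtain ⟨he0, he1⟩ := h.e_mem i
  obtain ⟨hw0, hw1⟩ := h.w_mem i
  have hl := hA.pos
  have hm0 := hm_mm h.cf0 i 0
  have hm1 := hm_mm h.cf i σ
  obtain ⟨k0, had0⟩ := GD.gd_had h.cf.hX hm0
  obtain ⟨k1, had1⟩ := GD.gd_had h.cf.hX hm1
  obtain ⟨c', hc', hder⟩ := hd i σ hσ
  obtain ⟨hP0, hPC, hPL⟩ := hL i (nn i + 1) (Nat.le_add_left 1 _) (pc i) (h.cell i)
  obtain ⟨hPc, hPi⟩ := per_cont (Γ := Γ) h.cf.hX (Nat.le_add_left 1 (nn i)) (pc i)
  set P : Pl → ℝ := per Γ (BGM.bmq (nn i + 1) (pc i)) with hP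
  obtain ⟨h1, h2⟩ := G3_len h.cf.hX h.cf.hO hm0 hA t y
  have h3 := G5_disp h i hσ hA (t := t) hy
  rw [← hx] at h1 h2 h3
  -- the points are different
  have hne : x ≠ g • x := by
    intro h4
    have h5 : BGM.ds (mm m (s0 i) 0) x x = 0 := (BGM.ds_eq_zero had0).2 rfl
    rw [bgm_ds h.cf.hX hm0] at h5
    rw [← h4, h5] at h1
    linarith
  have hfv := (first_var h.cf i hne σ).deriv
  rw [hfv]
  set d1 := BR.ds (mm m (s i) σ) x (g • x) with hd1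
  set d0 := BR.ds (mm m (s0 i) 0) x (g • x) with hd0
  have hd1n : 0 ≤ d1 := Real.sqrt_nonneg _
  have hd0n : 0 ≤ d0 := Real.sqrt_nonneg _
  obtain ⟨hc1, hc2⟩ := G5_cmp h i hσ x (g • x)
  rw [← hd1, ← hd0] at hc1 hc2
  -- the integrand
  have hcc : Continuous fun θ : ℝ => gp m (s i) θ (σ, x, g • x) := by
    have h6 : (fun θ : ℝ => gp m (s i) θ (σ, x, g • x)) = fun θ : ℝ =>
      (fun q : Pl × Pl => Ex (mm m (s i) σ) q.1 q.2)
        (x, θ • Vx (mm m (s i) σ) x (g • x)) := rfl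
    rw [h6]
    exact had1.smE.continuous.comp (continuous_const.prodMk
      (continuous_id.smul continuous_const))
  have hPcc : Continuous fun θ : ℝ => P (gp m (s i) θ (σ, x, g • x)) := hPc.comp hcc
  have hI : (∫ θ in (0 : ℝ)..1, deriv (fun r => s i (r, gp m (s i) θ (σ, x, g • x))) σ) =
      w i * ((∫ θ in (0 : ℝ)..1, P (gp m (s i) θ (σ, x, g • x))) - c') := by
    have h6 : ∀ θ : ℝ, deriv (fun r => s i (r, gp m (s i) θ (σ, x, g • x))) σ =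
        w i * (P (gp m (s i) θ (σ, x, g • x)) - c') := fun θ => (hder _).deriv
    simp only [h6]
    rw [intervalIntegral.integral_const_mul, intervalIntegral.integral_sub
      (hPcc.intervalIntegrable _ _) (continuous_const.intervalIntegrable _ _)]
    simp
  rw [hI]
  -- the axis
  have hgc : Continuous fun r : ℝ => (gfl (mm m (s0 i) 0) (t + r) (x0, v0)).1 := by
    have h6 : (fun r : ℝ => (gfl (mm m (s0 i) 0) (t + r) (x0, v0)).1) = fun r : ℝ =>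
      (fun q : Pl × Pl => Ex (mm m (s0 i) 0) q.1 q.2) (x0, (t + r) • v0) := by
      funext r
      show _ = Ex (mm m (s0 i) 0) x0 ((t + r) • v0)
      rw [Ex_ray h.cf.hX hm0]
    rw [h6]
    exact had0.smE.continuous.comp (continuous_const.prodMk
      ((continuous_const.add continuous_id).smul continuous_const))
  have hgc' : Continuous fun θ : ℝ => P (gfl (mm m (s0 i) 0) (t + θ * l) (x0, v0)).1 :=
    hPc.comp (hgc.comp (continuous_id.mul continuous_const))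
  have hax : pint Γ (mm m (s0 i) 0) (nn i + 1) (pc i) x0 v0 l =
      l * ∫ θ in (0 : ℝ)..1, P (gfl (mm m (s0 i) 0) (t + θ * l) (x0, v0)).1 := by
    rw [← G5_shift h i hA t, ← hP]
    rw [intervalIntegral.mul_integral_comp_mul_right
      (f := fun r : ℝ => P (gfl (mm m (s0 i) 0) (t + r) (x0, v0)).1), zero_mul, one_mul]
  rw [hax]
  set A := ∫ θ in (0 : ℝ)..1, P (gp m (s i) θ (σ, x, g • x)) with hAd
  set B := ∫ θ in (0 : ℝ)..1, P (gfl (mm m (s0 i) 0) (t + θ * l) (x0, v0)).1 with hBd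
  have hn : (0 : ℝ) < (nn i : ℝ) + 1 := by positivity
  set S := √(e i) + |y| with hS
  have hr0 : 0 ≤ √(e i) := Real.sqrt_nonneg _
  have hy0 : 0 ≤ |y| := abs_nonneg y
  have hS0 : 0 ≤ S := add_nonneg hr0 hy0
  have hre : e i ≤ √(e i) := by
    have h6 : √(e i) ^ 2 = e i := Real.sq_sqrt he0
    have h7 : √(e i) ≤ 1 := Real.sqrt_le_one.2 he1
    nlinarith
  -- bounds
  have hA1 : |A| ≤ CL := by
    have h6 := intervalIntegral.norm_integral_le_of_norm_le_const (a := (0 : ℝ)) (b := 1)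
      (f := fun θ : ℝ => P (gp m (s i) θ (σ, x, g • x))) (C := CL) (fun θ _ => by
        rw [Real.norm_eq_abs, abs_of_nonneg (hP0 _)]
        exact hPC _)
    rw [Real.norm_eq_abs] at h6
    simpa using h6
  have hAB : |A - B| ≤ CL * ((nn i : ℝ) + 1) * (8 * (1 + l) * S) := by
    rw [hAd, hBd, ← intervalIntegral.integral_sub (hPcc.intervalIntegrable _ _)
      (hgc'.intervalIntegrable _ _)]
    have h6 := intervalIntegral.norm_integral_le_of_norm_le_const (a := (0 : ℝ)) (b := 1)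
      (f := fun θ : ℝ => P (gp m (s i) θ (σ, x, g • x)) -
        P (gfl (mm m (s0 i) 0) (t + θ * l) (x0, v0)).1)
      (C := CL * ((nn i : ℝ) + 1) * (8 * (1 + l) * S)) (fun θ hθ => by
        rw [uIoc_of_le zero_le_one] at hθ
        rw [Real.norm_eq_abs]
        refine (hPL _ _).trans ?_
        push_cast
        exact mul_le_mul_of_nonneg_left (G5_pt h i hσ hA hy hx hθ.1.le hθ.2) (by positivity))
    rw [Real.norm_eq_abs] at h6
    simpa using h6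
  have hdl : |d1 - l| ≤ 8 * (1 + l) * S := by
    have h6 : |d1 - d0| ≤ 2 * e i * d0 := by
      rw [abs_le]
      constructor
      · nlinarith
      · nlinarith
    have h7 : |d0 - l| ≤ 2 * |y| := by
      rw [abs_le]
      constructor
      · linarith
      · linarith
    have h8 : |d1 - l| ≤ |d1 - d0| + |d0 - l| := abs_sub_le _ _ _
    have h9 : d0 ≤ 4 * (1 + l) := by linarith
    have h10 : 2 * e i * d0 ≤ 2 * √(e i) * (4 * (1 + l)) :=
      mul_le_mul (by linarith) h9 hd0n (by positivity)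
    nlinarith [mul_nonneg hl.le hy0]
  have hd1b : d1 ≤ 8 * (1 + l) := by linarith
  -- conclusion
  have hkey : 1 / 2 * d1 * (w i * (A - c')) - w i / 2 * (l * B) =
      w i / 2 * ((d1 - l) * A + l * (A - B)) - w i / 2 * (d1 * c') := by ring
  rw [hkey]
  have hT1 : |(d1 - l) * A| ≤ 8 * (1 + l) * S * CL := by
    rw [abs_mul]
    exact mul_le_mul hdl hA1 (abs_nonneg _) (by positivity)
  have hT2 : |l * (A - B)| ≤ l * (CL * ((nn i : ℝ) + 1) * (8 * (1 + l) * S)) := by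
    rw [abs_mul, abs_of_pos hl]
    exact mul_le_mul_of_nonneg_left hAB hl.le
  have hT3 : |d1 * c'| ≤ 8 * (1 + l) * (|Cd| / ((nn i : ℝ) + 1) ^ 2) := by
    rw [abs_mul, abs_of_nonneg hd1n]
    refine mul_le_mul hd1b (hc'.trans ?_) (abs_nonneg _) (by positivity)
    exact div_le_div_of_nonneg_right (le_abs_self _) (by positivity)
  have hT12 : |(d1 - l) * A + l * (A - B)| ≤ 8 * CL * (1 + l) ^ 2 * (((nn i : ℝ) + 1) * S) := by
    refine (abs_add_le _ _).trans ((add_le_add hT1 hT2).trans ?_)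
    have h6 : 8 * (1 + l) * S * CL ≤ 8 * (1 + l) * S * CL * ((nn i : ℝ) + 1) := by
      refine le_mul_of_one_le_right (by positivity) ?_
      have : (0 : ℝ) ≤ nn i := Nat.cast_nonneg _
      linarith
    nlinarith
  have hD : 8 * (1 + l) * (|Cd| / ((nn i : ℝ) + 1) ^ 2) ≤
      8 * |Cd| * (1 + l) ^ 2 * (1 / ((nn i : ℝ) + 1) ^ 2) := by
    have h6 : 8 * (1 + l) * (|Cd| / ((nn i : ℝ) + 1) ^ 2) =
      8 * |Cd| * (1 / ((nn i : ℝ) + 1) ^ 2) * (1 + l) := by ring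
    have h7 : 8 * |Cd| * (1 + l) ^ 2 * (1 / ((nn i : ℝ) + 1) ^ 2) =
      8 * |Cd| * (1 / ((nn i : ℝ) + 1) ^ 2) * (1 + l) ^ 2 := by ring
    rw [h6, h7]
    refine mul_le_mul_of_nonneg_left ?_ (by positivity)
    nlinarith
  have hX : |w i / 2 * ((d1 - l) * A + l * (A - B))| ≤
      w i / 2 * (8 * CL * (1 + l) ^ 2 * (((nn i : ℝ) + 1) * S)) := by
    rw [abs_mul, abs_of_pos (half_pos hw0)]
    exact mul_le_mul_of_nonneg_left hT12 (half_pos hw0).le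
  have hY : |w i / 2 * (d1 * c')| ≤
      w i / 2 * (8 * |Cd| * (1 + l) ^ 2 * (1 / ((nn i : ℝ) + 1) ^ 2)) := by
    rw [abs_mul, abs_of_pos (half_pos hw0)]
    exact mul_le_mul_of_nonneg_left (hT3.trans hD) (half_pos hw0).le
  refine (abs_sub _ _).trans ((add_le_add hX hY).trans ?_)
  have hU : 0 ≤ w i * (1 + l) ^ 2 * (((nn i : ℝ) + 1) * S) := by positivity
  have hV : 0 ≤ w i * (1 + l) ^ 2 * (1 / ((nn i : ℝ) + 1) ^ 2) := by positivity
  have hCd : 0 ≤ |Cd| := abs_nonneg _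
  nlinarith [mul_nonneg hCd hU, mul_nonneg (zero_le_one.trans hCL) hV,
    mul_nonneg (zero_le_one.trans hCL) hU]

end BE66
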