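import Pool.Agent.LibBE66.F2

/-! ROW F4 : joint continuity of the integrand of `ZL` in the parameter and the point. SHORT / MEDIUM. Cites F1, F2, AL,
LibBR73/AN1 `Fm_smooth`, LibGD33 `Axis_ne`.
PLAN. `FF = cut (p.2/δ) * (exp (-(Iτ ds)) * KC) * (√dt * |det|)` with `x = Fm m0 x0 v0 p`, `m1 = mm m (s i) t`.
`ds m1 x (g • x) = eu (JV m (s i) (t, x, g • x))` is continuous in `(t, p)` (`JV_smooth`, `Fm_smooth`, `hX.smooth`), positive since
`x ≠ g • x` (`g ≠ 1`: `Axis_ne`; `B1_free` / LibBGM20/B1, `F1.ds_smooth`). `KC = ∑ UU * al (ds)`: `UU_smooth`, and `al` is continuous on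
`Ioi 0` (`al_bd` with `n = 0`): `ContinuousOn.comp_continuous`. `mm m (s i) t z = exp (s i (t, z)) • m z` is continuous in `(t, z)`;
`fderiv ℝ (Fm ..)` is continuous (`Fm_smooth`), `det` is continuous (`ContinuousLinearMap.continuous_det`). `cut` is continuous. -/

open MeasureTheory Set Filter Topology
open scoped ContDiff

namespace BE66

open BGS BR BE B35

variable {Γ : Type} [Group Γ] [MulAction Γ Pl] {D : Set Pl} {ι : Type} {m : Pl → Co}
  {a b b0 : ℝ} {L0 : ℕ} {s s0 : ι → ℝ × Pl → ℝ} {nn : ι → ℕ} {pc : ι → ℤ × ℤ} {w e : ι → ℝ}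

/-- The image of a point in the Fermi coordinates, joint with the parameter. -/
private theorem F4_pt (h : DF Γ D m a b b0 L0 s s0 nn pc w e) (i : ι) (x0 v0 : Pl) :
    Continuous fun q : ℝ × Pl => Fm (mm m (s0 i) 0) x0 v0 q.2 :=
  (Fm_smooth h.cf.hX (hm_mm h.cf0 i 0) x0 v0).continuous.comp continuous_snd

private theorem F4_tr (h : DF Γ D m a b b0 L0 s s0 nn pc w e) (i : ι) (g : Γ) (x0 v0 : Pl) :
    Continuous fun q : ℝ × Pl =>
      ((q.1, Fm (mm m (s0 i) 0) x0 v0 q.2, g • Fm (mm m (s0 i) 0) x0 v0 q.2) : ℝ × Pl × Pl) :=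
  continuous_fst.prodMk ((F4_pt h i x0 v0).prodMk
    ((h.cf.hX.smooth g).continuous.comp (F4_pt h i x0 v0)))

private theorem F4_ds (h : DF Γ D m a b b0 L0 s s0 nn pc w e) (i : ι) (g : Γ) (x0 v0 : Pl) :
    Continuous fun q : ℝ × Pl => BR.ds (mm m (s i) q.1) (Fm (mm m (s0 i) 0) x0 v0 q.2)
      (g • Fm (mm m (s0 i) 0) x0 v0 q.2) := by
  have h1 : Continuous fun q : ℝ × Pl =>
      JV m (s i) (q.1, Fm (mm m (s0 i) 0) x0 v0 q.2, g • Fm (mm m (s0 i) 0) x0 v0 q.2) :=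
    (JV_smooth h.cf i).continuous.comp (F4_tr h i g x0 v0)
  have h2 : Continuous fun v : Pl => BR.eu v := by
    unfold BR.eu
    fun_prop
  exact h2.comp h1

theorem FF_cont (h : DF Γ D m a b b0 L0 s s0 nn pc w e) (i : ι) {g : Γ} {x0 v0 : Pl} {l : ℝ}
    (hA : Axis (mm m (s0 i) 0) g x0 v0 l) {N : ℕ} {β : ℝ → ℂ} {ρ M τ : ℝ} (δ : ℝ) (hρ : 0 ≤ ρ)
    (hβ : BE73.AmpN 1 β ρ M) (hτ : 1 ≤ τ) :
    Continuous fun q : ℝ × Pl => FF (mm m (s0 i) 0) (mm m (s i) q.1) δ N β τ g x0 v0 q.2 := by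
  have hds := F4_ds h i g x0 v0
  have hpos : ∀ q : ℝ × Pl, 0 < BR.ds (mm m (s i) q.1) (Fm (mm m (s0 i) 0) x0 v0 q.2)
      (g • Fm (mm m (s0 i) 0) x0 v0 q.2) := by
    intro q
    have hne := (Axis_ne h.cf.hX h.cf.hO (hm_mm h.cf0 i 0) hA).2
      (Fm (mm m (s0 i) 0) x0 v0 q.2)
    exact (ds_smooth h.cf i (Ne.symm hne)).2 q.1
  have hcut : Continuous fun q : ℝ × Pl => ((cut (q.2.2 / δ) : ℝ) : ℂ) := by
    refine Complex.continuous_ofReal.comp (cut.continuous.comp ?_)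
    exact (continuous_snd.comp continuous_snd).div_const δ
  have hexp : Continuous fun q : ℝ × Pl => Complex.exp (-(Complex.I * τ *
      BR.ds (mm m (s i) q.1) (Fm (mm m (s0 i) 0) x0 v0 q.2)
        (g • Fm (mm m (s0 i) 0) x0 v0 q.2))) := by
    refine Complex.continuous_exp.comp ?_
    exact (continuous_const.mul (Complex.continuous_ofReal.comp hds)).neg
  have hKC : Continuous fun q : ℝ × Pl => B35.KC (mm m (s i) q.1) N β τ
      (Fm (mm m (s0 i) 0) x0 v0 q.2) (g • Fm (mm m (s0 i) 0) x0 v0 q.2) := by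
    unfold B35.KC
    refine continuous_finsetSum _ fun j _ => ?_
    refine Continuous.mul ?_ ?_
    · exact Complex.continuous_ofReal.comp
        ((UU_smooth h.cf i j).continuous.comp (F4_tr h i g x0 v0))
    · obtain ⟨C, _, hC⟩ := al_bd j 0 (r0 := 1) one_pos
      have h3 := (hC β ρ M τ hρ hβ hτ).1.continuousOn
      exact h3.comp_continuous hds fun q => hpos q
  have hdt : Continuous fun q : ℝ × Pl =>
      dt (mm m (s i) q.1 (Fm (mm m (s0 i) 0) x0 v0 q.2)) := by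
    have h4 : Continuous fun q : ℝ × Pl =>
        mm m (s i) q.1 (Fm (mm m (s0 i) 0) x0 v0 q.2) := by
      unfold mm
      refine Continuous.smul (Real.continuous_exp.comp ((h.cf.smooth i).continuous.comp
        (continuous_fst.prodMk (F4_pt h i x0 v0)))) ?_
      exact h.cf.hm.smooth.continuous.comp (F4_pt h i x0 v0)
    unfold dt
    exact (h4.fst.mul h4.snd.snd).sub (h4.snd.fst.pow 2)
  have hdet : Continuous fun q : ℝ × Pl => (fderiv ℝ (Fm (mm m (s0 i) 0) x0 v0) q.2).det := by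
    have h5 := (Fm_smooth h.cf.hX (hm_mm h.cf0 i 0) x0 v0).continuous_fderiv (by simp)
    exact ContinuousLinearMap.continuous_det.comp (h5.comp continuous_snd)
  unfold FF KE
  exact (hcut.mul (hexp.mul hKC)).mul (Complex.continuous_ofReal.comp (hdt.sqrt.mul hdet.abs))

/-- The cut-off. -/
theorem FF_zero (m0 m1 : Pl → Co) {δ : ℝ} (hδ : 0 < δ) (N : ℕ) (β : ℝ → ℂ) (τ : ℝ) (g : Γ)
    (x0 v0 : Pl) {t y : ℝ} (hy : 2 * δ < |y|) : FF m0 m1 δ N β τ g x0 v0 (t, y) = 0 := by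
  have h1 : cut (y / δ) = 0 := by
    apply cut.zero_of_le_dist
    have h2 : cut.rOut = 2 := rfl
    rw [h2, Real.dist_eq, sub_zero, abs_div, abs_of_pos hδ, le_div_iff₀ hδ]
    exact hy.le
  unfold FF
  rw [h1]
  simp

end BE66
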