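import Pool.Agent.LibBE66.Defs

/-! ROW N3 : Fubini: the parameter inside. MEDIUM, ONLY MATHLIB.
PLAN. For `t` fixed `∫ y, F j t (s, y) = ∫ y in Icc (-(2δ)) (2δ), ..` (support), and the double integral is the integral
over `Icc 0 (l j) ×ˢ Icc (-(2δ)) (2δ)` for `volume : Measure (ℝ × ℝ)` (`setIntegral_prod`, continuous integrand on a compact set).
Put `μ j = volume.restrict (Icc 0 (l j) ×ˢ Icc (-(2δ)) (2δ))` (finite). `integral_fintype_prod_eq_prod` :
`∫ z, ∏ j, F j t (z j) ∂(Measure.pi μ) = ∏ j, ∫ p, F j t p ∂(μ j)`. Swap with the integral over `t ∈ [0,1]`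
(`integral_integral_swap`; the integrand is continuous in `(t, z)` and bounded on the compact set `[0,1] × ∏ Icc ×ˢ Icc`, which has
full measure: integrable on the product of the finite measures). Then the norm of the outer integral is at most
`β * (Measure.pi μ) univ = β * ∏ (4 δ l j)` (`norm_integral_le_of_norm_le_const`, the bound holds a.e.:
`|(z j).2| ≤ 2 δ`; `Measure.pi_univ`, `Measure.volume_eq_prod`, `Measure.prod_prod`, `Real.volume_Icc`). `fub_cont`: `continuous_finsetProd`, each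
factor is the integral of a continuous function over a compact set (`continuous_parametric_integral_of_continuous`, or
`intervalIntegral.continuous_parametric_intervalIntegral_of_continuous'` twice, `∫ y in -(2δ)..2δ`). -/

open MeasureTheory Set Filter Topology
open scoped ContDiff

namespace BE66

open BGS

/-- The inner integral over an interval. -/
theorem N3_in {J : Type} {F : J → ℝ → Pl → ℂ} {δ : ℝ}
    (h0 : ∀ (j : J) (t s y : ℝ), 2 * δ < |y| → F j t (s, y) = 0) (j : J) (t s : ℝ) :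
    ∫ y : ℝ, F j t (s, y) = ∫ y in Icc (-(2 * δ)) (2 * δ), F j t (s, y) := by
  refine (setIntegral_eq_integral_of_forall_compl_eq_zero fun y hy => h0 j t s y ?_).symm
  by_contra hc
  rw [not_lt, abs_le] at hc
  exact hy ⟨hc.1, hc.2⟩

theorem fub_cont {J : Type} [Fintype J] {F : J → ℝ → Pl → ℂ}
    (hF : ∀ j, Continuous fun q : ℝ × Pl => F j q.1 q.2) {δ : ℝ} (hδ : 0 < δ) (l : J → ℝ)
    (h0 : ∀ (j : J) (t s y : ℝ), 2 * δ < |y| → F j t (s, y) = 0) :
    Continuous fun t => ∏ j, ∫ s in (0 : ℝ)..l j, ∫ y : ℝ, F j t (s, y) := by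
  refine continuous_finsetProd _ fun j _ => ?_
  have h1 : (fun t => ∫ s in (0 : ℝ)..l j, ∫ y : ℝ, F j t (s, y)) =
      fun t => ∫ s in (0 : ℝ)..l j, ∫ y in (-(2 * δ))..(2 * δ), F j t (s, y) := by
    funext t
    congr 1
    funext s
    rw [N3_in h0, integral_Icc_eq_integral_Ioc, intervalIntegral.integral_of_le (by linarith)]
  rw [h1]
  refine intervalIntegral.continuous_parametric_intervalIntegral_of_continuous'
    (f := fun t s : ℝ => ∫ y in (-(2 * δ))..(2 * δ), F j t (s, y)) ?_ 0 (l j)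
  refine intervalIntegral.continuous_parametric_intervalIntegral_of_continuous'
    (f := fun (q : ℝ × ℝ) (y : ℝ) => F j q.1 (q.2, y)) ?_ (-(2 * δ)) (2 * δ)
  exact (hF j).comp ((continuous_fst.comp continuous_fst).prodMk
    ((continuous_snd.comp continuous_fst).prodMk continuous_snd))

theorem fub {J : Type} [Fintype J] {F : J → ℝ → Pl → ℂ}
    (hF : ∀ j, Continuous fun q : ℝ × Pl => F j q.1 q.2) {ρd : ℝ → ℝ} (hρ : Continuous ρd)
    {δ : ℝ} (hδ : 0 < δ) {l : J → ℝ} (hl : ∀ j, 0 ≤ l j)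
    (h0 : ∀ (j : J) (t s y : ℝ), 2 * δ < |y| → F j t (s, y) = 0) {β : ℝ}
    (hβ : ∀ pt : J → Pl, (∀ j, |(pt j).2| ≤ 2 * δ) →
      ‖∫ t in (0 : ℝ)..1, (ρd t : ℂ) * ∏ j, F j t (pt j)‖ ≤ β) :
    ‖∫ t in (0 : ℝ)..1, (ρd t : ℂ) * ∏ j, ∫ s in (0 : ℝ)..l j, ∫ y : ℝ, F j t (s, y)‖ ≤
      β * ∏ j, (4 * δ * l j) := by
  set S : J → Set Pl := fun j => Icc 0 (l j) ×ˢ Icc (-(2 * δ)) (2 * δ) with hS
  have hSc : ∀ j, IsCompact (S j) := fun j => isCompact_Icc.prod isCompact_Icc
  have hSm : ∀ j, MeasurableSet (S j) := fun j => measurableSet_Icc.prod measurableSet_Icc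
  set μ : J → Measure Pl := fun j => (volume : Measure Pl).restrict (S j) with hμ
  have hfin : ∀ j, IsFiniteMeasure (μ j) := fun j =>
    ⟨by
      rw [hμ]
      simp only [Measure.restrict_apply_univ]
      exact (hSc j).measure_lt_top⟩
  -- one factor
  have h1 : ∀ (j : J) (t : ℝ), ∫ s in (0 : ℝ)..l j, ∫ y : ℝ, F j t (s, y) =
      ∫ p, F j t p ∂(μ j) := by
    intro j t
    have hc : Continuous fun p : Pl => F j t p :=
      (hF j).comp (continuous_const.prodMk continuous_id)
    have h2 : IntegrableOn (fun p : ℝ × ℝ => F j t p) (S j) (volume.prod volume) :=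
      hc.continuousOn.integrableOn_compact (hSc j)
    have h3 := setIntegral_prod (fun p : ℝ × ℝ => F j t p) h2
    rw [intervalIntegral.integral_of_le (hl j), ← integral_Icc_eq_integral_Ioc]
    have h4 : ∫ p, F j t p ∂(μ j) = ∫ p in S j, F j t p ∂(volume.prod volume) := rfl
    rw [h4, h3]
    exact setIntegral_congr_fun measurableSet_Icc fun s _ => N3_in h0 j t s
  have h2 : ∀ t : ℝ, ∏ j, ∫ s in (0 : ℝ)..l j, ∫ y : ℝ, F j t (s, y) =
      ∫ z : J → Pl, ∏ j, F j t (z j) ∂(Measure.pi μ) := by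
    intro t
    rw [integral_fintype_prod_eq_prod (μ := μ) (f := fun j p => F j t p)]
    exact Finset.prod_congr rfl fun j _ => h1 j t
  have hpi : Measure.pi μ = (Measure.pi fun _ : J => (volume : Measure Pl)).restrict
      (Set.pi univ S) := (Measure.restrict_pi_pi _ _).symm
  have hH : Continuous fun q : ℝ × (J → Pl) => (ρd q.1 : ℂ) * ∏ j, F j q.1 (q.2 j) := by
    refine (Complex.continuous_ofReal.comp (hρ.comp continuous_fst)).mul
      (continuous_finsetProd _ fun j _ => ?_)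
    exact (hF j).comp (continuous_fst.prodMk ((continuous_apply j).comp continuous_snd))
  have hKc : IsCompact (Icc (0 : ℝ) 1 ×ˢ Set.pi univ S) :=
    isCompact_Icc.prod (isCompact_univ_pi hSc)
  have hint : Integrable (Function.uncurry fun (t : ℝ) (z : J → Pl) =>
      (ρd t : ℂ) * ∏ j, F j t (z j))
      ((volume.restrict (Ioc (0 : ℝ) 1)).prod (Measure.pi μ)) := by
    rw [hpi, Measure.prod_restrict]
    exact (hH.continuousOn.integrableOn_compact hKc).mono_set
      (prod_mono Ioc_subset_Icc_self le_rfl)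
  have h3 : ∫ t in (0 : ℝ)..1, (ρd t : ℂ) * ∏ j, ∫ s in (0 : ℝ)..l j, ∫ y : ℝ, F j t (s, y) =
      ∫ z : J → Pl, (∫ t in (0 : ℝ)..1, (ρd t : ℂ) * ∏ j, F j t (z j)) ∂(Measure.pi μ) := by
    simp only [h2, intervalIntegral.integral_of_le zero_le_one]
    rw [← integral_integral_swap hint]
    refine integral_congr_ae (Eventually.of_forall fun t => ?_)
    exact (integral_const_mul _ _).symm
  rw [h3]
  have h4 : ∀ᵐ z ∂(Measure.pi μ),
      ‖∫ t in (0 : ℝ)..1, (ρd t : ℂ) * ∏ j, F j t (z j)‖ ≤ β := by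
    rw [hpi]
    refine ae_restrict_of_forall_mem (MeasurableSet.univ_pi hSm) fun z hz => hβ z fun j => ?_
    have h5 := (hz j (mem_univ j)).2
    exact abs_le.2 ⟨h5.1, h5.2⟩
  refine (norm_integral_le_of_norm_le_const h4).trans (le_of_eq ?_)
  congr 1
  rw [Measure.real, Measure.pi_univ, ENNReal.toReal_prod]
  refine Finset.prod_congr rfl fun j _ => ?_
  rw [hμ]
  simp only [Measure.restrict_apply_univ]
  have h5 : (volume : Measure Pl) (S j) = volume (Icc 0 (l j)) * volume (Icc (-(2 * δ)) (2 * δ)) :=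
    Measure.prod_prod _ _
  rw [h5, Real.volume_Icc, Real.volume_Icc, ENNReal.toReal_mul,
    ENNReal.toReal_ofReal (by linarith [hl j]), ENNReal.toReal_ofReal (by linarith)]
  ring

end BE66
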