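import Pool.Agent.LibBE66.I1

/-! ROW M1 : decorrelation for the localised contributions. SHORT / MEDIUM. Cites I1, F4, N3.
PLAN. `ZL = ∫ s in 0..l0, ∫ y, FF .. (s, y)` by definition; `cj (ep j)` of the double integral is the double integral of `cj (ep j) (FF ..)`
(`integral_conj`, `intervalIntegral`: both cases of `ep j`). Apply `fub_cont`, `fub` to
`F j t p = cj (ep j) (FF (mm m (s0 i) 0) (mm m (s i) t) δ N (β j) (τ j) (g j) (x j) (v j) p)` (`FF_cont`, continuity of `cj`; `FF_zero`),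
with `β` = the bound of `inner`; `∏ (4 δ l0 j) ≤ (4 (1 + ρ)) ^ card J`; new constant `C`. -/

open MeasureTheory Set Filter Topology
open scoped ContDiff

namespace BE66

open BGS BR BE B35

variable {Γ : Type} [Group Γ] [MulAction Γ Pl] {D : Set Pl} {ι : Type} {m : Pl → Co}
  {a b b0 : ℝ} {L0 : ℕ} {s s0 : ι → ℝ × Pl → ℝ} {nn : ι → ℕ} {pc : ι → ℤ × ℤ} {w e : ι → ℝ}

private theorem M1_cj (e : Bool) (f : Pl → ℂ) (l0 : ℝ) :
    cj e (∫ s in (0 : ℝ)..l0, ∫ y : ℝ, f (s, y)) = ∫ s in (0 : ℝ)..l0, ∫ y : ℝ, cj e (f (s, y)) := by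
  cases e with
  | true =>
    simp only [cj, if_true]
  | false =>
    have h1 : ∀ z : ℂ, cj false z = (starRingEnd ℂ) z := fun z => by simp [cj]
    simp only [h1]
    have h2 : ∀ s : ℝ, ∫ y : ℝ, (starRingEnd ℂ) (f (s, y)) = (starRingEnd ℂ) (∫ y : ℝ, f (s, y)) :=
      fun s => integral_conj
    simp only [h2]
    rw [intervalIntegral.intervalIntegral_eq_integral_uIoc,
      intervalIntegral.intervalIntegral_eq_integral_uIoc, integral_conj]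
    split_ifs
    · rw [one_smul, one_smul]
    · rw [neg_one_smul, neg_one_smul, map_neg]

private theorem M1_cont (e : Bool) : Continuous (cj e) := by
  cases e with
  | true =>
    have h1 : cj true = fun z => z := by
      funext z
      simp [cj]
    rw [h1]
    exact continuous_id
  | false =>
    have h1 : cj false = fun z => (starRingEnd ℂ) z := by
      funext z
      simp [cj]
    rw [h1]
    exact Complex.continuous_conj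

private theorem M1_cj0 (e : Bool) : cj e 0 = 0 := by
  cases e <;> simp [cj]

private theorem M1_ZL (m0 m1 : Pl → Co) (δ : ℝ) (N : ℕ) (b : ℝ → ℂ) (τ : ℝ) (e : Bool) (g : Γ)
    (x0 v0 : Pl) (l0 : ℝ) : cj e (ZL m0 m1 δ N b τ g x0 v0 l0) =
      ∫ s in (0 : ℝ)..l0, ∫ y : ℝ, cj e (FF m0 m1 δ N b τ g x0 v0 (s, y)) :=
  M1_cj e (FF m0 m1 δ N b τ g x0 v0) l0

theorem D_cont (h : DF Γ D m a b b0 L0 s s0 nn pc w e) (i : ι) {J : Type} [Fintype J] {N : ℕ}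
    {δ ρ M : ℝ} (hδ : 0 < δ) (hρ : 0 ≤ ρ) {β : J → ℝ → ℂ} {τ : J → ℝ} (ep : J → Bool) {g : J → Γ}
    {x v : J → Pl} {l : J → ℝ} (l0 : J → ℝ) (hβ : ∀ j, BE73.AmpN 1 (β j) ρ M)
    (hτ : ∀ j, 1 ≤ τ j) (hA : ∀ j, Axis (mm m (s0 i) 0) (g j) (x j) (v j) (l j)) :
    Continuous fun t => ∏ j, cj (ep j) (ZL (mm m (s0 i) 0) (mm m (s i) t) δ N
        (β j) (τ j) (g j) (x j) (v j) (l0 j)) := by
  have hF : ∀ j, Continuous fun q : ℝ × Pl => cj (ep j) (FF (mm m (s0 i) 0) (mm m (s i) q.1) δ N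
      (β j) (τ j) (g j) (x j) (v j) q.2) := fun j =>
    (M1_cont (ep j)).comp (FF_cont h i (hA j) δ hρ (hβ j) (hτ j))
  have h1 := fub_cont (F := fun j t p => cj (ep j) (FF (mm m (s0 i) 0) (mm m (s i) t) δ N
      (β j) (τ j) (g j) (x j) (v j) p)) hF hδ l0 (fun j t s' y hy => by
    show cj (ep j) (FF (mm m (s0 i) 0) (mm m (s i) t) δ N (β j) (τ j) (g j) (x j) (v j) (s', y)) = 0
    rw [FF_zero _ _ hδ _ _ _ _ _ _ hy, M1_cj0])
  have h2 : (fun t => ∏ j, cj (ep j) (ZL (mm m (s0 i) 0) (mm m (s i) t) δ N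
        (β j) (τ j) (g j) (x j) (v j) (l0 j))) = fun t => ∏ j, ∫ s' in (0 : ℝ)..l0 j, ∫ y : ℝ,
        cj (ep j) (FF (mm m (s0 i) 0) (mm m (s i) t) δ N (β j) (τ j) (g j) (x j) (v j) (s', y)) := by
    funext t
    exact Finset.prod_congr rfl fun j _ => M1_ZL _ _ _ _ _ _ _ _ _ _ _
  rw [h2]
  exact h1

theorem D_main (h : DF Γ D m a b b0 L0 s s0 nn pc w e) (J : Type) [Fintype J] {ρd : ℝ → ℝ}
    (hρ : ContDiff ℝ ∞ ρd) (hρ0 : ∀ t, t ∉ Icc (0 : ℝ) 1 → ρd t = 0) (N M : ℕ) {Λ1 : ℝ}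
    (hΛ : 1 ≤ Λ1) : ∃ C : ℕ, 1 ≤ C ∧ ∀ (i : ι) (T ρ δ M0 : ℝ), 1 ≤ T → 1 ≤ ρ → 0 < δ → δ ≤ 1 →
      C * (1 + ρ) ^ 2 * ((nn i : ℝ) + 1) ^ 3 * (√(e i) + δ) ≤ 1 →
      C * (1 + ρ) ^ 2 ≤ √((nn i : ℝ) + 1) →
      ∀ (β : J → ℝ → ℂ) (τ : J → ℝ) (ep : J → Bool) (g : J → Γ) (x v : J → Pl) (l l0 : J → ℝ),
      (∀ j, BE73.AmpN (M + 1) (β j) ρ M0) → (∀ j, 1 ≤ τ j ∧ τ j ≤ Λ1 * T) →
      (∀ j, Axis (mm m (s0 i) 0) (g j) (x j) (v j) (l j)) → (∀ j, l j ≤ ρ) →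
      (∀ j, 0 ≤ l0 j ∧ l0 j ≤ ρ) →
      ((nn i : ℝ) + 1) ^ (-(3 / 2) : ℝ) ≤ |∑ j, sgn (ep j) * (τ j / T) *
        pint Γ (mm m (s0 i) 0) (nn i + 1) (pc i) (x j) (v j) (l j)| →
      ‖∫ t in (0 : ℝ)..1, (ρd t : ℂ) * ∏ j, cj (ep j) (ZL (mm m (s0 i) 0) (mm m (s i) t) δ N
        (β j) (τ j) (g j) (x j) (v j) (l0 j))‖ ≤
        C * (1 + ρ) ^ C * (T * M0) ^ Fintype.card J *
          (C * (1 + ρ) ^ C * ((nn i : ℝ) + 1) ^ 6 / w i ^ 4 / T) ^ M := by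
  obtain ⟨C, hC1, hC⟩ := inner h J hρ hρ0 N M hΛ
  set c := Fintype.card J with hc
  have h4 : 1 ≤ 4 ^ c := Nat.one_le_pow _ _ (by norm_num)
  have hCC : C ≤ C * 4 ^ c := Nat.le_mul_of_pos_right _ h4
  refine ⟨C * 4 ^ c + c, by omega, ?_⟩
  intro i T ρ δ M0 hT hρ1 hδ hδ1 hs1 hs2 β τ ep g x v l l0 hβ hτ hA hl hl0 hp
  have hCr : (C : ℝ) ≤ ((C * 4 ^ c + c : ℕ) : ℝ) := by
    exact_mod_cast (by omega : C ≤ C * 4 ^ c + c)
  have hC0 : (1 : ℝ) ≤ (C : ℝ) := by exact_mod_cast hC1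
  have hn0 : (0 : ℝ) < (nn i : ℝ) + 1 := by positivity
  have hρp : (1 : ℝ) ≤ 1 + ρ := by linarith
  have hw := (h.w_mem i).1
  have hs1' : C * (1 + ρ) ^ 2 * ((nn i : ℝ) + 1) ^ 3 * (√(e i) + δ) ≤ 1 := by
    refine le_trans ?_ hs1
    gcongr
  have hs2' : C * (1 + ρ) ^ 2 ≤ √((nn i : ℝ) + 1) := by
    refine le_trans ?_ hs2
    gcongr
  have hin := hC i T ρ δ M0 hT hρ1 hδ hδ1 hs1' hs2' β τ ep g x v l hβ hτ hA hl hp
  have hβ1 : ∀ j, BE73.AmpN 1 (β j) ρ M0 := fun j =>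
    ⟨(hβ j).amp, fun q hq t => (hβ j).bound q (by omega) t⟩
  have hF : ∀ j, Continuous fun q : ℝ × Pl => cj (ep j) (FF (mm m (s0 i) 0) (mm m (s i) q.1) δ N
      (β j) (τ j) (g j) (x j) (v j) q.2) := fun j =>
    (M1_cont (ep j)).comp (FF_cont h i (hA j) δ (by linarith) (hβ1 j) (hτ j).1)
  have h1 := fub (F := fun j t p => cj (ep j) (FF (mm m (s0 i) 0) (mm m (s i) t) δ N
      (β j) (τ j) (g j) (x j) (v j) p)) hF hρ.continuous hδ (l := l0) (fun j => (hl0 j).1)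
    (fun j t s' y hy => by
      show cj (ep j) (FF (mm m (s0 i) 0) (mm m (s i) t) δ N (β j) (τ j) (g j) (x j) (v j) (s', y)) = 0
      rw [FF_zero _ _ hδ _ _ _ _ _ _ hy, M1_cj0]) hin
  have h2 : (fun t : ℝ => (ρd t : ℂ) * ∏ j, cj (ep j) (ZL (mm m (s0 i) 0) (mm m (s i) t) δ N
        (β j) (τ j) (g j) (x j) (v j) (l0 j))) = fun t => (ρd t : ℂ) * ∏ j,
        ∫ s' in (0 : ℝ)..l0 j, ∫ y : ℝ,
        cj (ep j) (FF (mm m (s0 i) 0) (mm m (s i) t) δ N (β j) (τ j) (g j) (x j) (v j) (s', y)) := by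
    funext t
    congr 1
    exact Finset.prod_congr rfl fun j _ => M1_ZL _ _ _ _ _ _ _ _ _ _ _
  rw [h2]
  refine h1.trans ?_
  -- the volume
  have hvol : ∏ j, (4 * δ * l0 j) ≤ (4 * (1 + ρ)) ^ c := by
    rw [hc, ← Finset.card_univ, ← Finset.prod_const]
    refine Finset.prod_le_prod (fun j _ => by have := (hl0 j).1; positivity) fun j _ => ?_
    have h3 := (hl0 j).1
    have h5 := (hl0 j).2
    have h6 : δ * l0 j ≤ 1 * (1 + ρ) := mul_le_mul hδ1 (by linarith) h3 zero_le_one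
    nlinarith
  have hTM : 0 ≤ (T * M0) ^ c := by
    rcases Nat.eq_zero_or_pos c with h0 | h0
    · rw [h0, pow_zero]
      exact zero_le_one
    · have hne : Nonempty J := Fintype.card_pos_iff.1 h0
      obtain ⟨j⟩ := hne
      have h7 : 0 ≤ M0 := (norm_nonneg _).trans ((hβ j).bound 0 (by omega) 0)
      have h8 : 0 ≤ T := by linarith
      positivity
  set C' : ℕ := C * 4 ^ c + c with hC'
  have hexp : (C : ℝ) * (1 + ρ) ^ C * (4 * (1 + ρ)) ^ c ≤ (C' : ℝ) * (1 + ρ) ^ C' := by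
    have h9 : (C : ℝ) * (1 + ρ) ^ C * (4 * (1 + ρ)) ^ c = ((C * 4 ^ c : ℕ) : ℝ) * (1 + ρ) ^ (C + c) := by
      push_cast
      rw [mul_pow, pow_add]
      ring
    rw [h9]
    refine mul_le_mul (by exact_mod_cast (by omega : C * 4 ^ c ≤ C'))
      (pow_le_pow_right₀ hρp (by omega)) (by positivity) (by positivity)
  have hbase : (C : ℝ) * (1 + ρ) ^ C * ((nn i : ℝ) + 1) ^ 6 / w i ^ 4 / T ≤
      (C' : ℝ) * (1 + ρ) ^ C' * ((nn i : ℝ) + 1) ^ 6 / w i ^ 4 / T := by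
    have h10 : (1 + ρ) ^ C ≤ (1 + ρ) ^ C' := pow_le_pow_right₀ hρp (by omega)
    have h11 : (0 : ℝ) < T := by linarith
    gcongr
  have hb0 : 0 ≤ (C : ℝ) * (1 + ρ) ^ C * ((nn i : ℝ) + 1) ^ 6 / w i ^ 4 / T := by
    have h11 : (0 : ℝ) < T := by linarith
    have h12 : (0 : ℝ) < 1 + ρ := by linarith
    positivity
  have h12 : (0 : ℝ) < 1 + ρ := by linarith
  calc (C : ℝ) * (1 + ρ) ^ C * (T * M0) ^ c *
        ((C : ℝ) * (1 + ρ) ^ C * ((nn i : ℝ) + 1) ^ 6 / w i ^ 4 / T) ^ M * ∏ j, (4 * δ * l0 j)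
      ≤ (C : ℝ) * (1 + ρ) ^ C * (T * M0) ^ c *
        ((C : ℝ) * (1 + ρ) ^ C * ((nn i : ℝ) + 1) ^ 6 / w i ^ 4 / T) ^ M * (4 * (1 + ρ)) ^ c := by
        refine mul_le_mul_of_nonneg_left hvol ?_
        exact mul_nonneg (mul_nonneg (by positivity) hTM) (pow_nonneg hb0 _)
    _ = ((C : ℝ) * (1 + ρ) ^ C * (4 * (1 + ρ)) ^ c) * ((T * M0) ^ c *
        ((C : ℝ) * (1 + ρ) ^ C * ((nn i : ℝ) + 1) ^ 6 / w i ^ 4 / T) ^ M) := by ring
    _ ≤ ((C' : ℝ) * (1 + ρ) ^ C') * ((T * M0) ^ c *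
        ((C' : ℝ) * (1 + ρ) ^ C' * ((nn i : ℝ) + 1) ^ 6 / w i ^ 4 / T) ^ M) := by
        refine mul_le_mul hexp ?_ (mul_nonneg hTM (pow_nonneg hb0 _)) (by positivity)
        exact mul_le_mul_of_nonneg_left (pow_le_pow_left₀ hb0 hbase _) hTM
    _ = _ := by ring

end BE66
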