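import Pool.Agent.LibBE66.F3
import Pool.Agent.LibBE66.G5

/-! ROW F5 : the amplitude `AA` as a function of the parameter. MEDIUM. Cites F1, F2, F3, G5 (`G5_disp`). -/

open MeasureTheory Set Filter Topology
open scoped ContDiff

namespace BE66

open BGS BR BE B35

variable {Γ : Type} [Group Γ] [MulAction Γ Pl] {D : Set Pl} {ι : Type} {m : Pl → Co}
  {a b b0 : ℝ} {L0 : ℕ} {s s0 : ι → ℝ × Pl → ℝ} {nn : ι → ℕ} {pc : ι → ℤ × ℤ} {w e : ι → ℝ}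

private theorem F5_eu_rot (v : Pl) : eu (rot v) = eu v := by
  unfold eu rot
  congr 1
  ring

private theorem F5_eq (h : DF Γ D m a b b0 L0 s s0 nn pc w e) (i : ι) {g : Γ} {x0 v0 : Pl}
    (hv : eu v0 = 1) (N : ℕ) (β : ℝ → ℂ) (τ : ℝ) (p : Pl) :
    (fun t => AA (mm m (s0 i) 0) (mm m (s i) t) N β τ g x0 v0 p) = fun t =>
      B35.KC (mm m (s i) t) N β τ (Fm (mm m (s0 i) 0) x0 v0 p)
        (g • Fm (mm m (s0 i) 0) x0 v0 p) *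
      ((Real.exp (s i (t, Fm (mm m (s0 i) 0) x0 v0 p) - s0 i (0, Fm (mm m (s0 i) 0) x0 v0 p)) *
        JA (mm m (s0 i) 0) (gfl (mm m (s0 i) 0) p.1 (x0, v0)).1
          (rot (gfl (mm m (s0 i) 0) p.1 (x0, v0)).2) p.2 : ℝ) : ℂ) := by
  funext t
  unfold AA
  rw [F3_jac h i t hv p rfl]

private theorem F5_ss (h : CF Γ D m a b s) (i : ι) (X : Pl) (c : ℝ) :
    ContDiff ℝ ∞ (fun t : ℝ => Real.exp (s i (t, X) - c)) := by
  have h1 : ContDiff ℝ ∞ (fun t : ℝ => s i (t, X)) :=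
    (h.smooth i).comp (contDiff_id.prodMk contDiff_const)
  exact Real.contDiff_exp.comp (h1.sub contDiff_const)

theorem AA_smooth (h : DF Γ D m a b b0 L0 s s0 nn pc w e) (i : ι) {g : Γ} {x0 v0 : Pl} {l : ℝ}
    (hA : Axis (mm m (s0 i) 0) g x0 v0 l) {N : ℕ} {β : ℝ → ℂ} {ρ M τ : ℝ} (hρ : 0 ≤ ρ)
    (hβ : BE73.AmpN 1 β ρ M) (hτ : 1 ≤ τ) (p : Pl) :
    ContDiff ℝ ∞ (fun t => AA (mm m (s0 i) 0) (mm m (s i) t) N β τ g x0 v0 p) := by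
  rw [F5_eq h i hA.unit]
  have hne := (Axis_ne h.cf.hX h.cf.hO (hm_mm h.cf0 i 0) hA).2 (Fm (mm m (s0 i) 0) x0 v0 p)
  refine (KC_smooth h.cf i hρ hβ hτ hne.symm).mul ?_
  exact Complex.ofRealCLM.contDiff.comp ((F5_ss h.cf i _ _).mul contDiff_const)

theorem AA_bd (h : DF Γ D m a b b0 L0 s s0 nn pc w e) (N k : ℕ) : ∃ C : ℕ, ∀ (i : ι) (g : Γ)
    (x0 v0 : Pl) (l : ℝ), Axis (mm m (s0 i) 0) g x0 v0 l → ∀ (β : ℝ → ℂ) (ρ M τ : ℝ), 1 ≤ ρ →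
      l ≤ ρ → BE73.AmpN (k + 1) β ρ M → 1 ≤ τ → ∀ t ∈ Icc (0 : ℝ) 1, ∀ p : Pl, |p.2| ≤ 2 →
      ∀ j ≤ k, ‖iteratedDeriv j (fun r => AA (mm m (s0 i) 0) (mm m (s i) r) N β τ g x0 v0 p) t‖ ≤
        C * (1 + ρ) ^ C * (τ * M) := by
  obtain ⟨C1, hC1⟩ := KC_bd h.cf N k
  obtain ⟨C2, hC21, hC2⟩ := F3_s h.cf k
  obtain ⟨C3, hC31, hC3⟩ := F3_JA h.cf0
  obtain ⟨K, hK⟩ := exists_nat_ge (2 ^ k * (C1 * 10 ^ C1) * (C2 * C3) : ℝ)
  refine ⟨max K (2 * C1), ?_⟩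
  intro i g x0 v0 l hA β ρ M τ hρ hl hβ hτ t ht p hp j hj
  have hm0 := hm_mm h.cf0 i 0
  have hX := h.cf.hX
  have hM : 0 ≤ M := (norm_nonneg _).trans (hβ.bound 0 (Nat.zero_le _) 0)
  have hg := (Axis_ne hX h.cf.hO hm0 hA)
  have ht1 : |t| ≤ 1 := abs_le.2 ⟨by linarith [ht.1], ht.2⟩
  obtain ⟨X, hXX⟩ : ∃ X, X = Fm (mm m (s0 i) 0) x0 v0 p := ⟨_, rfl⟩
  obtain ⟨J, hJ⟩ : ∃ J, J = JA (mm m (s0 i) 0) (gfl (mm m (s0 i) 0) p.1 (x0, v0)).1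
          (rot (gfl (mm m (s0 i) 0) p.1 (x0, v0)).2) p.2 := ⟨_, rfl⟩
  have hβ1 : BE73.AmpN 1 β ρ M := ⟨hβ.amp, fun n hn => hβ.bound n (by omega)⟩
  rw [F5_eq h i hA.unit, ← hXX, ← hJ, ← norm_iteratedFDeriv_eq_norm_iteratedDeriv]
  have hne : X ≠ g • X := (hg.2 X).symm
  have s1 : ContDiff ℝ ∞ (fun t => B35.KC (mm m (s i) t) N β τ X (g • X)) :=
    KC_smooth h.cf i (by linarith) hβ1 hτ hne
  have s2 : ContDiff ℝ ∞ (fun t : ℝ => Real.exp (s i (t, X) - s0 i (0, X)) * J) :=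
    (F5_ss h.cf i _ _).mul contDiff_const
  have s3 : ContDiff ℝ ∞ (fun t : ℝ => ((Real.exp (s i (t, X) - s0 i (0, X)) * J : ℝ) : ℂ)) :=
    Complex.ofRealCLM.contDiff.comp s2
  -- the bounds
  have hu : eu (rot (gfl (mm m (s0 i) 0) p.1 (x0, v0)).2) = 1 := by
    rw [F5_eu_rot, gfl_eu hX hm0]
    exact hA.unit
  have hJb := hC3 i (gfl (mm m (s0 i) 0) p.1 (x0, v0)).1 _ hu p.2 hp
  rw [← hJ] at hJb
  have hdisp : BR.ds (mm m (s i) t) X (g • X) ≤ 2 * l + 8 := by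
    rw [hXX]
    exact G5_disp h i ht hA (t := p.1) (y := p.2) hp
  have hd0 : 0 ≤ BR.ds (mm m (s i) t) X (g • X) := Real.sqrt_nonneg _
  have b1 : ∀ n ≤ k, ‖iteratedFDeriv ℝ n (fun t => B35.KC (mm m (s i) t) N β τ X (g • X)) t‖ ≤
      C1 * 10 ^ C1 * (1 + ρ) ^ (2 * C1) * (τ * M) := by
    intro n hn
    rw [norm_iteratedFDeriv_eq_norm_iteratedDeriv]
    refine (hC1 i t ht1 X g hg.1 β ρ M τ hρ hβ hτ n hn).trans ?_
    have h1 : (2 + BR.ds (mm m (s i) t) X (g • X)) ^ C1 ≤ (10 * (1 + ρ)) ^ C1 :=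
      pow_le_pow_left₀ (by linarith) (by linarith) _
    calc C1 * (1 + ρ) ^ C1 * (2 + BR.ds (mm m (s i) t) X (g • X)) ^ C1 * τ * M
        ≤ C1 * (1 + ρ) ^ C1 * (10 * (1 + ρ)) ^ C1 * τ * M := by gcongr
      _ = C1 * 10 ^ C1 * (1 + ρ) ^ (2 * C1) * (τ * M) := by
        rw [mul_pow, two_mul, pow_add]
        ring
  have b2 : ∀ n ≤ k, ‖iteratedFDeriv ℝ n
      (fun t : ℝ => ((Real.exp (s i (t, X) - s0 i (0, X)) * J : ℝ) : ℂ)) t‖ ≤ C2 * C3 := by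
    intro n hn
    have h1 : ‖iteratedFDeriv ℝ n
        (fun t : ℝ => ((Real.exp (s i (t, X) - s0 i (0, X)) * J : ℝ) : ℂ)) t‖ =
        ‖iteratedFDeriv ℝ n (fun t : ℝ => Real.exp (s i (t, X) - s0 i (0, X)) * J) t‖ :=
      Complex.ofRealLI.norm_iteratedFDeriv_comp_left s2.contDiffAt
        (by exact_mod_cast le_top)
    rw [h1, norm_iteratedFDeriv_eq_norm_iteratedDeriv]
    have h2 : iteratedDeriv n (fun t : ℝ => Real.exp (s i (t, X) - s0 i (0, X)) * J) t =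
        iteratedDeriv n (fun t : ℝ => Real.exp (s i (t, X) - s0 i (0, X))) t * J :=
      iteratedDeriv_mul_const_field _ _
    rw [h2, norm_mul]
    have h3 : |s i (t, X) - s0 i (0, X)| ≤ 1 := (h.near i t ht X).trans (h.e_mem i).2
    have h4 := hC2 i t ht1 X (s0 i (0, X)) h3 n hn
    have h5 : ‖J‖ ≤ C3 := by
      rw [Real.norm_eq_abs, abs_of_nonneg (by linarith [hJb.1])]
      exact hJb.2
    exact mul_le_mul h4 h5 (norm_nonneg _) (by linarith)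
  have h0 : (0 : ℝ) ≤ C1 * 10 ^ C1 * (1 + ρ) ^ (2 * C1) * (τ * M) := by positivity
  refine (norm_iteratedFDeriv_mul_le s1 s3 t (n := j) (by exact_mod_cast le_top)).trans ?_
  have h1 : ∑ n ∈ Finset.range (j + 1), (j.choose n : ℝ) *
      ‖iteratedFDeriv ℝ n (fun t => B35.KC (mm m (s i) t) N β τ X (g • X)) t‖ *
      ‖iteratedFDeriv ℝ (j - n)
        (fun t : ℝ => ((Real.exp (s i (t, X) - s0 i (0, X)) * J : ℝ) : ℂ)) t‖ ≤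
      ∑ n ∈ Finset.range (j + 1), (j.choose n : ℝ) *
        (C1 * 10 ^ C1 * (1 + ρ) ^ (2 * C1) * (τ * M)) * (C2 * C3) := by
    refine Finset.sum_le_sum fun n hn => ?_
    have hn' : n ≤ j := Nat.lt_succ_iff.1 (Finset.mem_range.1 hn)
    refine mul_le_mul (mul_le_mul_of_nonneg_left (b1 n (hn'.trans hj)) (Nat.cast_nonneg _))
      (b2 _ (by omega)) (norm_nonneg _) (mul_nonneg (Nat.cast_nonneg _) h0)
  refine h1.trans ?_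
  have h2 : ∑ n ∈ Finset.range (j + 1), (j.choose n : ℝ) = 2 ^ j := by
    exact_mod_cast Nat.sum_range_choose j
  rw [← Finset.sum_mul, ← Finset.sum_mul, h2]
  have h3 : (2 : ℝ) ^ j ≤ 2 ^ k := pow_le_pow_right₀ one_le_two hj
  have h4 : (1 + ρ) ^ (2 * C1) ≤ (1 + ρ) ^ (max K (2 * C1)) :=
    pow_le_pow_right₀ (by linarith) (le_max_right _ _)
  have h5 : (2 ^ k * (C1 * 10 ^ C1) * (C2 * C3) : ℝ) ≤ ((max K (2 * C1) : ℕ) : ℝ) :=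
    hK.trans (by exact_mod_cast le_max_left _ _)
  have h6 : 0 ≤ τ * M := by positivity
  have h7 : 0 ≤ C2 * C3 := by positivity
  calc (2 : ℝ) ^ j * (C1 * 10 ^ C1 * (1 + ρ) ^ (2 * C1) * (τ * M)) * (C2 * C3)
      ≤ 2 ^ k * (C1 * 10 ^ C1 * (1 + ρ) ^ (2 * C1) * (τ * M)) * (C2 * C3) := by gcongr
    _ = (2 ^ k * (C1 * 10 ^ C1) * (C2 * C3)) * (1 + ρ) ^ (2 * C1) * (τ * M) := by ring
    _ ≤ ((max K (2 * C1) : ℕ) : ℝ) * (1 + ρ) ^ (max K (2 * C1)) * (τ * M) := by gcongr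

end BE66
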