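import Pool.Agent.LibBE66.Defs

/-! ROW N2 : derivatives of a finite product. SHORT, ONLY MATHLIB.
PLAN. `norm_iteratedFDeriv_prod_le` (Mathlib) with `norm_iteratedFDeriv_eq_norm_iteratedDeriv`: each term is at most
`multinomial * ∏ β j`, because every `count j p ≤ i ≤ k`; `C` = the maximum over `i ≤ k` of the sum of the multinomials over
`univ.sym i`. (Or: induction on the finite set with Leibniz.) `N2_cj`: conjugation is a real linear isometry
(`Complex.conjCLE`, `ContinuousLinearMap.iteratedDeriv...` / `LinearIsometry.norm_iteratedFDeriv_comp_left`). `N2_phase`: for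
real `d`: `cj e (exp (-(I τ d)) A) = exp (-(I sgn e τ d)) cj e A`. -/

open MeasureTheory Set Filter Topology
open scoped ContDiff

namespace BE66

open B35

theorem prod_bd (J : Type) [Fintype J] (k : ℕ) : ∃ C : ℝ, 1 ≤ C ∧ ∀ (B : J → ℝ → ℂ) (β : J → ℝ)
    (t : ℝ), (∀ j, ContDiff ℝ ∞ (B j)) → (∀ j, ∀ i ≤ k, ‖iteratedDeriv i (B j) t‖ ≤ β j) →
      ∀ i ≤ k, ‖iteratedDeriv i (fun r => ∏ j, B j r) t‖ ≤ C * ∏ j, β j := by
  classical
  let A : ℕ → ℝ := fun i => ∑ p ∈ (Finset.univ : Finset J).sym i,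
    ((p : Multiset J).countPerms : ℝ)
  have hA : ∀ i, 0 ≤ A i := fun i => Finset.sum_nonneg fun p _ => Nat.cast_nonneg _
  refine ⟨1 + ∑ i ∈ Finset.range (k + 1), A i, ?_, ?_⟩
  · have := Finset.sum_nonneg (s := Finset.range (k + 1)) fun i _ => hA i
    linarith
  intro B β t hB hβ i hi
  have hβ0 : ∀ j, 0 ≤ β j := fun j => (norm_nonneg _).trans (hβ j 0 (Nat.zero_le k))
  have h1 := norm_iteratedFDeriv_prod_le (𝕜 := ℝ) (u := (Finset.univ : Finset J)) (f := B)
    (N := (∞ : WithTop ℕ∞)) (fun j _ => hB j) (x := t) (n := i) (by exact_mod_cast le_top)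
  rw [norm_iteratedFDeriv_eq_norm_iteratedDeriv] at h1
  have h2 : ∀ p ∈ (Finset.univ : Finset J).sym i, ((p : Multiset J).countPerms : ℝ) *
      ∏ j, ‖iteratedFDeriv ℝ ((p : Multiset J).count j) (B j) t‖ ≤
        ((p : Multiset J).countPerms : ℝ) * ∏ j, β j := by
    intro p _
    refine mul_le_mul_of_nonneg_left ?_ (Nat.cast_nonneg _)
    refine Finset.prod_le_prod (fun j _ => norm_nonneg _) fun j _ => ?_
    rw [norm_iteratedFDeriv_eq_norm_iteratedDeriv]
    refine hβ j _ (le_trans ?_ hi)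
    have h3 := Multiset.count_le_card j (p : Multiset J)
    rwa [Sym.card_coe] at h3
  refine h1.trans ((Finset.sum_le_sum h2).trans ?_)
  rw [← Finset.sum_mul]
  refine mul_le_mul_of_nonneg_right ?_ (Finset.prod_nonneg fun j _ => hβ0 j)
  have h4 := Finset.single_le_sum (f := A) (fun i _ => hA i)
    (Finset.mem_range.2 (Nat.lt_succ_of_le hi))
  show A i ≤ 1 + ∑ i ∈ Finset.range (k + 1), A i
  linarith

theorem N2_cj (e : Bool) {B : ℝ → ℂ} (hB : ContDiff ℝ ∞ B) :
    ContDiff ℝ ∞ (fun r => cj e (B r)) ∧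
      ∀ (i : ℕ) (t : ℝ), ‖iteratedDeriv i (fun r => cj e (B r)) t‖ = ‖iteratedDeriv i B t‖ := by
  cases e with
  | true => exact ⟨hB, fun i t => rfl⟩
  | false =>
    refine ⟨Complex.conjCLE.contDiff.comp hB, fun i t => ?_⟩
    have h1 := Complex.conjLIE.norm_iteratedFDeriv_comp_left B t i
    rw [norm_iteratedFDeriv_eq_norm_iteratedDeriv, norm_iteratedFDeriv_eq_norm_iteratedDeriv] at h1
    exact h1

theorem N2_phase (e : Bool) (τ d : ℝ) (c : ℝ) (A : ℂ) :
    cj e ((c : ℂ) * Complex.exp (-(Complex.I * τ * d)) * A) =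
      (c : ℂ) * cj e A * Complex.exp (Complex.I * (-(sgn e * τ * d) : ℝ)) := by
  cases e with
  | true =>
    unfold cj sgn
    simp only [if_true]
    rw [mul_assoc, mul_comm (Complex.exp _) A, ← mul_assoc]
    congr 2
    push_cast
    ring
  | false =>
    unfold cj sgn
    simp only [Bool.false_eq_true, if_false]
    rw [map_mul, map_mul, Complex.conj_ofReal, ← Complex.exp_conj, map_neg, map_mul, map_mul,
      Complex.conj_I, Complex.conj_ofReal, Complex.conj_ofReal, mul_assoc,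
      mul_comm (Complex.exp _), ← mul_assoc]
    congr 2
    push_cast
    ring

end BE66
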