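import Pool.Agent.LibBE66.F4
import Pool.Agent.LibBE66.F5
import Pool.Agent.LibBE66.N1
import Pool.Agent.LibBE66.N2
import Pool.Agent.LibBE66.N3

/-! ROW I1 : integration by parts at fixed points. STRONG (bookkeeping). Cites G5, F1, F5, N1, N2.
PLAN. `m0 = mm m (s0 i) 0`, `x_j = Fm m0 (x j) (v j) (pt j)`, `d_j t = ds (mm m (s i) t) x_j (g j • x_j)` (smooth: `F1.ds_smooth`).
`FF = cut * exp (-(Iτ_j d_j)) * AA` (unfold `KE`, `AA`), so by `N2_phase` the product over `j` is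
`B t * exp (I * (T * φ t))` with `φ t = -∑ j, sgn (ep j) * (τ j / T) * d_j t`, `B t = ∏ j, (cut ((pt j).2/δ) : ℂ) * cj (ep j) (AA ..)`
(`Complex.exp_sum`, `Finset.prod_mul_distrib`). `nonstatG` with `τ = T` and:
(1) `δ' = w i / 4 * (nn i + 1)^(-3/2)`. `deriv φ t = -∑ sgn (τ j/T) deriv d_j t`; by `G5_der`
`|deriv d_j t - w/2 pint_j| ≤ C w (1+ρ)^2 ((nn+1)(√e + 2δ) + 1/(nn+1)^2) ≤ (w/4) (nn+1)^(-3/2) / (card J * Λ1)` because of the two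
smallness hypotheses (`(nn+1) √e .. ≤ (nn+1)^(-2)/(C (1+ρ)^2) ..`, `(1+ρ)^2/(nn+1)^2 ≤ (nn+1)^(-3/2)/C`); so
`|deriv φ t| ≥ w/2 (nn+1)^(-3/2) - w/4 (nn+1)^(-3/2)`. `δ' ≤ 1`.
(2) `Λ = C (1+ρ)^C`: `F1_ds` for the orders `1..M+1` and `G5_disp` (`|(pt j).2| ≤ 2δ ≤ 2`), `τ j/T ≤ Λ1`.
(3) `β = C (1+ρ)^C (T M0)^card`: `AA_bd`, `AA_smooth`, `N2_cj`, `prod_bd`, `|cut| ≤ 1`, `τ j ≤ Λ1 T`; `M0 ≥ 0`.
`(Λ/δ')^4 = 256 Λ^4 (nn+1)^6 / w^4`. If `J` is empty the hypothesis `(nn+1)^(-3/2) ≤ 0` is false. The natural number `C` is chosen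
at the end. -/

open MeasureTheory Set Filter Topology
open scoped ContDiff

namespace BE66

open BGS BR BE B35

variable {Γ : Type} [Group Γ] [MulAction Γ Pl] {D : Set Pl} {ι : Type} {m : Pl → Co}
  {a b b0 : ℝ} {L0 : ℕ} {s s0 : ι → ℝ × Pl → ℝ} {nn : ι → ℕ} {pc : ι → ℤ × ℤ} {w e : ι → ℝ}

theorem I1_small {C K ρ n1 e δ : ℝ} (hK : 0 ≤ K) (hC : 12 * K ≤ C) (hn : 1 ≤ n1) (hδ : 0 < δ)
    (h1 : C * (1 + ρ) ^ 2 * n1 ^ 3 * (√e + δ) ≤ 1) (h2 : C * (1 + ρ) ^ 2 ≤ √n1) :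
    K * (1 + ρ) ^ 2 * (n1 * (√e + 2 * δ) + 1 / n1 ^ 2) ≤ 1 / 4 * n1 ^ (-(3 / 2) : ℝ) := by
  have hn0 : 0 < n1 := by linarith
  obtain ⟨r, hr1, hr2⟩ : ∃ r : ℝ, 1 ≤ r ∧ n1 = r ^ 2 :=
    ⟨√n1, Real.one_le_sqrt.2 hn, (Real.sq_sqrt hn0.le).symm⟩
  have hr0 : 0 < r := by linarith
  have hsq : √n1 = r := by rw [hr2, Real.sqrt_sq hr0.le]
  have hpow : n1 ^ (-(3 / 2) : ℝ) = 1 / r ^ 3 := by
    rw [hr2, ← Real.rpow_natCast r 2, ← Real.rpow_mul hr0.le, one_div, ← Real.rpow_natCast r 3,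
      ← Real.rpow_neg hr0.le]
    norm_num
  rw [hsq] at h2
  rw [hpow, hr2]
  rw [hr2] at h1
  have hse : 0 ≤ √e := Real.sqrt_nonneg e
  have hy : 0 ≤ (1 + ρ) ^ 2 := sq_nonneg _
  set y : ℝ := (1 + ρ) ^ 2 with hydef
  have h3 : 12 * K * y * (√e + δ) * r ^ 6 ≤ 1 := by
    have h4 : 12 * K * (y * (r ^ 6 * (√e + δ))) ≤ C * (y * (r ^ 6 * (√e + δ))) :=
      mul_le_mul_of_nonneg_right hC (by positivity)
    nlinarith
  have h5 : 12 * K * y ≤ r := (mul_le_mul_of_nonneg_right hC hy).trans h2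
  have h6 : K * y * (r ^ 2 * (√e + 2 * δ)) ≤ 1 / 6 / r ^ 3 := by
    rw [le_div_iff₀ (by positivity)]
    have h7 : K * y * (r ^ 2 * (√e + 2 * δ)) * r ^ 3 ≤ K * y * (2 * (√e + δ)) * r ^ 6 := by
      have h8 : r ^ 5 ≤ r ^ 6 := pow_le_pow_right₀ hr1 (by norm_num)
      have h9 : √e + 2 * δ ≤ 2 * (√e + δ) := by linarith
      calc K * y * (r ^ 2 * (√e + 2 * δ)) * r ^ 3 = K * y * (√e + 2 * δ) * r ^ 5 := by ring
        _ ≤ K * y * (2 * (√e + δ)) * r ^ 6 := by gcongr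
    linarith
  have h10 : K * y * (1 / (r ^ 2) ^ 2) ≤ 1 / 12 / r ^ 3 := by
    rw [le_div_iff₀ (by positivity)]
    have h11 : K * y * (1 / (r ^ 2) ^ 2) * r ^ 3 = K * y / r := by
      field_simp
    rw [h11, div_le_iff₀ hr0]
    linarith
  have h12 : K * y * (r ^ 2 * (√e + 2 * δ) + 1 / (r ^ 2) ^ 2) =
      K * y * (r ^ 2 * (√e + 2 * δ)) + K * y * (1 / (r ^ 2) ^ 2) := by ring
  rw [h12]
  have h13 : 1 / 6 / r ^ 3 + 1 / 12 / r ^ 3 = 1 / 4 * (1 / r ^ 3) := by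
    field_simp
    norm_num
  linarith

theorem I1_fin {K1 K2 y Z W : ℝ} {a1 a2 C M : ℕ} (_h1 : 0 ≤ K1) (h2 : 0 ≤ K2) (hy : 1 ≤ y)
    (hZ : 0 ≤ Z) (hW : 0 ≤ W) (hK1 : K1 ≤ C) (hK2 : K2 ≤ C) (ha1 : a1 ≤ C) (ha2 : a2 ≤ C) :
    K1 * y ^ a1 * Z * (K2 * y ^ a2 * W) ^ M ≤ C * y ^ C * Z * (C * y ^ C * W) ^ M := by
  have e1 : y ^ a1 ≤ y ^ C := pow_le_pow_right₀ hy ha1
  have e2 : y ^ a2 ≤ y ^ C := pow_le_pow_right₀ hy ha2
  gcongr

section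
variable {J : Type} [Fintype J]

theorem I1_sm (c : J → ℝ) {d : J → ℝ → ℝ} (hd : ∀ j, ContDiff ℝ ∞ (d j)) :
    ContDiff ℝ ∞ fun t => -∑ j, c j * d j t :=
  (ContDiff.sum fun j _ => contDiff_const.mul (hd j)).neg

theorem I1_it (c : J → ℝ) {d : J → ℝ → ℝ} (hd : ∀ j, ContDiff ℝ ∞ (d j)) (k : ℕ) (t : ℝ) :
    iteratedDeriv k (fun t => -∑ j, c j * d j t) t = -∑ j, c j * iteratedDeriv k (d j) t := by
  rw [iteratedDeriv_fun_neg, iteratedDeriv_fun_sum]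
  · simp only [iteratedDeriv_const_mul_field]
  · intro j _
    exact ((contDiff_const.mul (hd j)).of_le (by exact_mod_cast le_top)).contDiffAt

theorem I1_der (c : J → ℝ) {d : J → ℝ → ℝ} (hd : ∀ j, ContDiff ℝ ∞ (d j)) (t : ℝ) :
    deriv (fun t => -∑ j, c j * d j t) t = -∑ j, c j * deriv (d j) t := by
  have h := I1_it c hd 1 t
  simpa only [iteratedDeriv_one] using h

theorem I1_le {c : J → ℝ} {f : J → ℝ} {Λ1 B : ℝ} (hc : ∀ j, |c j| ≤ Λ1) (hf : ∀ j, |f j| ≤ B)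
    (hΛ : 0 ≤ Λ1) : |∑ j, c j * f j| ≤ Fintype.card J * (Λ1 * B) := by
  refine (Finset.abs_sum_le_sum_abs _ _).trans ?_
  refine (Finset.sum_le_card_nsmul _ _ (Λ1 * B) fun j _ => ?_).trans ?_
  · rw [abs_mul]
    exact mul_le_mul (hc j) (hf j) (abs_nonneg _) hΛ
  · rw [nsmul_eq_mul, Finset.card_univ]

end

theorem I1_FF (m0 m1 : Pl → Co) (δ : ℝ) (N : ℕ) (β : ℝ → ℂ) (τ : ℝ) (ep : Bool) (g : Γ)
    (x0 v0 p : Pl) : cj ep (FF m0 m1 δ N β τ g x0 v0 p) =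
      ((cut (p.2 / δ) : ℝ) : ℂ) * cj ep (AA m0 m1 N β τ g x0 v0 p) *
        Complex.exp (Complex.I *
          (-(sgn ep * τ * BR.ds m1 (Fm m0 x0 v0 p) (g • Fm m0 x0 v0 p)) : ℝ)) := by
  rw [← N2_phase]
  congr 1
  unfold FF AA KE
  ring

theorem inner (h : DF Γ D m a b b0 L0 s s0 nn pc w e) (J : Type) [Fintype J] {ρd : ℝ → ℝ}
    (hρ : ContDiff ℝ ∞ ρd) (hρ0 : ∀ t, t ∉ Icc (0 : ℝ) 1 → ρd t = 0) (N M : ℕ) {Λ1 : ℝ}
    (hΛ : 1 ≤ Λ1) : ∃ C : ℕ, 1 ≤ C ∧ ∀ (i : ι) (T ρ δ M0 : ℝ), 1 ≤ T → 1 ≤ ρ → 0 < δ → δ ≤ 1 →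
      C * (1 + ρ) ^ 2 * ((nn i : ℝ) + 1) ^ 3 * (√(e i) + δ) ≤ 1 →
      C * (1 + ρ) ^ 2 ≤ √((nn i : ℝ) + 1) →
      ∀ (β : J → ℝ → ℂ) (τ : J → ℝ) (ep : J → Bool) (g : J → Γ) (x v : J → Pl) (l : J → ℝ),
      (∀ j, BE73.AmpN (M + 1) (β j) ρ M0) → (∀ j, 1 ≤ τ j ∧ τ j ≤ Λ1 * T) →
      (∀ j, Axis (mm m (s0 i) 0) (g j) (x j) (v j) (l j)) → (∀ j, l j ≤ ρ) →
      ((nn i : ℝ) + 1) ^ (-(3 / 2) : ℝ) ≤ |∑ j, sgn (ep j) * (τ j / T) *
        pint Γ (mm m (s0 i) 0) (nn i + 1) (pc i) (x j) (v j) (l j)| →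
      ∀ pt : J → Pl, (∀ j, |(pt j).2| ≤ 2 * δ) →
      ‖∫ t in (0 : ℝ)..1, (ρd t : ℂ) * ∏ j, cj (ep j) (FF (mm m (s0 i) 0) (mm m (s i) t) δ N
        (β j) (τ j) (g j) (x j) (v j) (pt j))‖ ≤
        C * (1 + ρ) ^ C * (T * M0) ^ Fintype.card J *
          (C * (1 + ρ) ^ C * ((nn i : ℝ) + 1) ^ 6 / w i ^ 4 / T) ^ M := by
  classical
  obtain ⟨Cn, hCn, hns⟩ := nonstatG hρ hρ0 M
  obtain ⟨CG, hCG, hG⟩ := G5_der h
  obtain ⟨CA, hA⟩ := AA_bd h N M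
  obtain ⟨CP, hCP, hP⟩ := prod_bd J M
  choose n hn using fun k => F1_ds h.cf k
  set n' : ℕ := ∑ k ∈ Finset.range (M + 2), n k with hn'
  have hnk : ∀ k, k ≤ M + 1 → n k ≤ n' := fun k hk =>
    Finset.single_le_sum (fun _ _ => Nat.zero_le _) (Finset.mem_range.2 (by omega))
  set q : ℕ := Fintype.card J with hq
  set CL : ℝ := q * (Λ1 * (n' * 10 ^ n')) + 1 with hCL
  have hΛ0 : 0 < Λ1 := by linarith
  have hCL1 : 1 ≤ CL := by
    have : (0 : ℝ) ≤ q * (Λ1 * (n' * 10 ^ n')) := by positivity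
    linarith
  set K1 : ℝ := Cn * (CP * (CA * Λ1) ^ q) with hK1
  set K2 : ℝ := 256 * CL ^ 4 with hK2
  set C : ℕ := ⌈K1⌉₊ + ⌈K2⌉₊ + ⌈12 * (q * (Λ1 * CG))⌉₊ + CA * q + 4 * n' + 1 with hC
  have hK1C : K1 ≤ C := (Nat.le_ceil _).trans (by rw [hC]; exact_mod_cast (by omega))
  have hK2C : K2 ≤ C := (Nat.le_ceil _).trans (by rw [hC]; exact_mod_cast (by omega))
  have hK3C : 12 * (q * (Λ1 * CG)) ≤ C :=
    (Nat.le_ceil _).trans (by rw [hC]; exact_mod_cast (by omega))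
  have hCAC : CA * q ≤ C := by omega
  have hnC : 4 * n' ≤ C := by omega
  refine ⟨C, by omega, ?_⟩
  intro i T ρ δ M0 hT hρ1 hδ hδ1 hs1 hs2 β τ ep g x v l hβ hτ hax hl hlow pt hpt
  have hT0 : 0 < T := by linarith
  have hρp : 0 ≤ ρ := by linarith
  set n1 : ℝ := (nn i : ℝ) + 1 with hn1
  have hn11 : 1 ≤ n1 := by
    have : (0 : ℝ) ≤ nn i := Nat.cast_nonneg _
    linarith
  have hn10 : 0 < n1 := by linarith
  set y : ℝ := 1 + ρ with hy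
  have hy1 : 1 ≤ y := by linarith
  have hw := (h.w_mem i).1
  have hw1 := (h.w_mem i).2
  have he := (h.e_mem i).1
  -- `J` is not empty
  have hJ : Nonempty J := by
    by_contra hne
    rw [not_nonempty_iff] at hne
    rw [Finset.univ_eq_empty, Finset.sum_empty, abs_zero] at hlow
    exact absurd hlow (not_le.2 (Real.rpow_pos_of_pos hn10 _))
  have hM0 : 0 ≤ M0 := by
    obtain ⟨j⟩ := hJ
    exact (norm_nonneg _).trans ((hβ j).bound 0 (Nat.zero_le _) 0)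
  -- the points
  set m0 : Pl → Co := mm m (s0 i) 0 with hm0
  have hHM : HM Γ m0 := hm_mm h.cf0 i 0
  set X : J → Pl := fun j => Fm m0 (x j) (v j) (pt j) with hX
  have hne : ∀ j, g j ≠ 1 ∧ g j • X j ≠ X j := fun j =>
    ⟨(Axis_ne h.cf.hX h.cf.hO hHM (hax j)).1, (Axis_ne h.cf.hX h.cf.hO hHM (hax j)).2 _⟩
  set d : J → ℝ → ℝ := fun j t => BR.ds (mm m (s i) t) (X j) (g j • X j) with hd
  have hds : ∀ j, ContDiff ℝ ∞ (d j) ∧ ∀ t, 0 < d j t := fun j =>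
    ds_smooth h.cf i (hne j).2.symm
  have hpt2 : ∀ j, |(pt j).2| ≤ 2 := fun j => (hpt j).trans (by linarith)
  have hd10 : ∀ j, ∀ t ∈ Icc (0 : ℝ) 1, 2 + d j t ≤ 10 * y := by
    intro j t ht
    have h1 := G5_disp h i ht (hax j) (t := (pt j).1) (y := (pt j).2) (hpt2 j)
    have h2 : d j t ≤ 2 * l j + 8 := h1
    have h3 := hl j
    linarith
  set c : J → ℝ := fun j => sgn (ep j) * (τ j / T) with hc
  have hsgn : ∀ ε : Bool, |sgn ε| = 1 := by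
    intro ε
    cases ε <;> simp [sgn]
  have hcle : ∀ j, |c j| ≤ Λ1 := by
    intro j
    have h1 : 0 ≤ τ j / T := div_nonneg (by linarith [(hτ j).1]) hT0.le
    simp only [hc, abs_mul, hsgn, one_mul, abs_of_nonneg h1]
    rw [div_le_iff₀ hT0]
    exact (hτ j).2
  set φ : ℝ → ℝ := fun t => -∑ j, c j * d j t with hφ
  set B : ℝ → ℂ := fun t => ∏ j, (((cut ((pt j).2 / δ) : ℝ) : ℂ) *
    cj (ep j) (AA m0 (mm m (s i) t) N (β j) (τ j) (g j) (x j) (v j) (pt j))) with hB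
  have hφs : ContDiff ℝ ∞ φ := I1_sm c fun j => (hds j).1
  have hAs : ∀ j, ContDiff ℝ ∞ fun t =>
      AA m0 (mm m (s i) t) N (β j) (τ j) (g j) (x j) (v j) (pt j) := fun j =>
    AA_smooth h i (hax j) hρp ⟨(hβ j).amp, fun k hk => (hβ j).bound k (by omega)⟩ (hτ j).1 (pt j)
  have hBj : ∀ j, ContDiff ℝ ∞ fun t => (((cut ((pt j).2 / δ) : ℝ) : ℂ) *
      cj (ep j) (AA m0 (mm m (s i) t) N (β j) (τ j) (g j) (x j) (v j) (pt j))) := fun j =>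
    contDiff_const.mul (N2_cj (ep j) (hAs j)).1
  have hBs : ContDiff ℝ ∞ B := contDiff_prod fun j _ => hBj j
  -- the integrand
  have hint : ∀ t : ℝ, ∏ j, cj (ep j) (FF m0 (mm m (s i) t) δ N
      (β j) (τ j) (g j) (x j) (v j) (pt j)) = B t * Complex.exp (Complex.I * (T * φ t : ℝ)) := by
    intro t
    simp only [I1_FF]
    rw [Finset.prod_mul_distrib, ← Complex.exp_sum]
    congr 2
    rw [← Finset.mul_sum, ← Complex.ofReal_sum]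
    congr 2
    simp only [hφ, hc, mul_neg, Finset.mul_sum, ← Finset.sum_neg_distrib]
    refine Finset.sum_congr rfl fun j _ => ?_
    simp only [hd, hX]
    field_simp
  have hint2 : ∀ t : ℝ, (ρd t : ℂ) * ∏ j, cj (ep j) (FF m0 (mm m (s i) t) δ N
      (β j) (τ j) (g j) (x j) (v j) (pt j)) =
      (ρd t : ℂ) * B t * Complex.exp (Complex.I * (T * φ t : ℝ)) := fun t => by
    rw [hint, mul_assoc]
  simp only [hint2]
  -- the derivative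
  set δ' : ℝ := w i / 4 * n1 ^ (-(3 / 2) : ℝ) with hδ'
  have hr0 : 0 < n1 ^ (-(3 / 2) : ℝ) := Real.rpow_pos_of_pos hn10 _
  have hr1 : n1 ^ (-(3 / 2) : ℝ) ≤ 1 :=
    Real.rpow_le_one_of_one_le_of_nonpos hn11 (by norm_num)
  have hδ'0 : 0 < δ' := by positivity
  have hδ'1 : δ' ≤ 1 := by
    rw [hδ']
    nlinarith
  have hder : ∀ t ∈ Icc (0 : ℝ) 1, δ' ≤ |deriv φ t| := by
    intro t ht
    set P : J → ℝ := fun j => pint Γ m0 (nn i + 1) (pc i) (x j) (v j) (l j) with hPd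
    have h1 : deriv φ t = -∑ j, c j * deriv (d j) t := I1_der c (fun j => (hds j).1) t
    have h2 : ∀ j, |deriv (d j) t - w i / 2 * P j| ≤
        CG * w i * y ^ 2 * (n1 * (√(e i) + 2 * δ) + 1 / n1 ^ 2) := by
      intro j
      have h3 := hG i t ht (g j) (x j) (v j) (l j) (hax j) (pt j).1 (pt j).2 (hpt2 j) (X j) rfl
      refine h3.trans ?_
      have hl0 := (hax j).pos
      have h4 : (1 + l j) ^ 2 ≤ y ^ 2 := pow_le_pow_left₀ (by linarith) (by linarith [hl j]) 2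
      have h5 : √(e i) + |(pt j).2| ≤ √(e i) + 2 * δ := by linarith [hpt j]
      have h6 : 0 ≤ √(e i) + |(pt j).2| := by positivity
      have h7 : CG * w i * (1 + l j) ^ 2 ≤ CG * w i * y ^ 2 :=
        mul_le_mul_of_nonneg_left h4 (by positivity)
      exact mul_le_mul h7 (by
        have := mul_le_mul_of_nonneg_left h5 hn10.le
        linarith) (by positivity) (by positivity)
    have h8 : |∑ j, c j * (deriv (d j) t - w i / 2 * P j)| ≤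
        q * (Λ1 * (CG * w i * y ^ 2 * (n1 * (√(e i) + 2 * δ) + 1 / n1 ^ 2))) :=
      I1_le hcle h2 hΛ0.le
    have h9 : q * (Λ1 * (CG * w i * y ^ 2 * (n1 * (√(e i) + 2 * δ) + 1 / n1 ^ 2))) ≤ δ' := by
      have h10 := I1_small (C := C) (K := q * (Λ1 * CG)) (ρ := ρ) (n1 := n1) (e := e i)
        (δ := δ) (by positivity) hK3C hn11 hδ hs1 hs2
      calc q * (Λ1 * (CG * w i * y ^ 2 * (n1 * (√(e i) + 2 * δ) + 1 / n1 ^ 2)))
          = w i * (q * (Λ1 * CG) * (1 + ρ) ^ 2 * (n1 * (√(e i) + 2 * δ) + 1 / n1 ^ 2)) := by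
            rw [hy]
            ring
        _ ≤ w i * (1 / 4 * n1 ^ (-(3 / 2) : ℝ)) := mul_le_mul_of_nonneg_left h10 hw.le
        _ = δ' := by
            rw [hδ']
            ring
    have h11 : ∑ j, c j * (deriv (d j) t - w i / 2 * P j) =
        ∑ j, c j * deriv (d j) t - w i / 2 * ∑ j, c j * P j := by
      rw [Finset.mul_sum, ← Finset.sum_sub_distrib]
      refine Finset.sum_congr rfl fun j _ => ?_
      ring
    have h12 : w i / 2 * n1 ^ (-(3 / 2) : ℝ) ≤ |w i / 2 * ∑ j, c j * P j| := by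
      rw [abs_mul, abs_of_pos (by positivity : (0 : ℝ) < w i / 2)]
      exact mul_le_mul_of_nonneg_left hlow (by positivity)
    rw [h11] at h8
    rw [h1, abs_neg]
    have h13 := abs_sub_abs_le_abs_sub (w i / 2 * ∑ j, c j * P j) (∑ j, c j * deriv (d j) t)
    rw [abs_sub_comm] at h13
    have h14 : w i / 2 * n1 ^ (-(3 / 2) : ℝ) = 2 * δ' := by
      rw [hδ']
      ring
    linarith
  -- the higher derivatives
  have hhi : ∀ k : ℕ, 1 ≤ k → k ≤ M + 1 → ∀ t ∈ Icc (0 : ℝ) 1,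
      |iteratedDeriv k φ t| ≤ CL * y ^ n' := by
    intro k _ hk t ht
    have ht1 : |t| ≤ 1 := by
      rw [abs_of_nonneg ht.1]
      exact ht.2
    have h1 : iteratedDeriv k φ t = -∑ j, c j * iteratedDeriv k (d j) t :=
      I1_it c (fun j => (hds j).1) k t
    have h2 : ∀ j, |iteratedDeriv k (d j) t| ≤ n' * (10 * y) ^ n' := by
      intro j
      have h3 := hn k i t ht1 (X j) (g j) (hne j).1
      rw [Real.norm_eq_abs] at h3
      have h4 := (hds j).2 t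
      have h5 : (1 : ℝ) ≤ 2 + d j t := by linarith
      have h6 : (n k : ℝ) ≤ n' := by exact_mod_cast hnk k hk
      calc |iteratedDeriv k (d j) t| ≤ n k * (2 + d j t) ^ n k := h3
        _ ≤ n' * (2 + d j t) ^ n' := by
            have h7 : (2 + d j t) ^ n k ≤ (2 + d j t) ^ n' :=
              pow_le_pow_right₀ h5 (hnk k hk)
            exact mul_le_mul h6 h7 (by positivity) (by positivity)
        _ ≤ n' * (10 * y) ^ n' :=
            mul_le_mul_of_nonneg_left (pow_le_pow_left₀ (by linarith) (hd10 j t ht) n')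
              (Nat.cast_nonneg _)
    have h8 := I1_le hcle h2 hΛ0.le
    rw [h1, abs_neg]
    refine h8.trans ?_
    have h9 : (1 : ℝ) ≤ y ^ n' := one_le_pow₀ hy1
    rw [hCL, mul_pow]
    nlinarith
  -- the amplitude
  set β0 : ℝ := CP * (CA * y ^ CA * (Λ1 * T * M0)) ^ q with hβ0
  have hamp : ∀ k ≤ M, ∀ t ∈ Icc (0 : ℝ) 1, ‖iteratedDeriv k B t‖ ≤ β0 := by
    intro k hk t ht
    have h1 : ∀ j, ∀ k ≤ M, ‖iteratedDeriv k (fun t => (((cut ((pt j).2 / δ) : ℝ) : ℂ) *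
        cj (ep j) (AA m0 (mm m (s i) t) N (β j) (τ j) (g j) (x j) (v j) (pt j)))) t‖ ≤
        CA * y ^ CA * (Λ1 * T * M0) := by
      intro j k hk
      rw [iteratedDeriv_const_mul_field, norm_mul, (N2_cj (ep j) (hAs j)).2]
      have h2 : ‖((cut ((pt j).2 / δ) : ℝ) : ℂ)‖ ≤ 1 := by
        rw [Complex.norm_real, Real.norm_eq_abs, abs_of_nonneg cut.nonneg]
        exact cut.le_one
      have h3 := hA i (g j) (x j) (v j) (l j) (hax j) (β j) ρ M0 (τ j) hρ1 (hl j) (hβ j)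
        (hτ j).1 t ht (pt j) (hpt2 j) k hk
      have h4 : CA * (1 + ρ) ^ CA * (τ j * M0) ≤ CA * y ^ CA * (Λ1 * T * M0) :=
        mul_le_mul_of_nonneg_left (mul_le_mul_of_nonneg_right (hτ j).2 hM0) (by positivity)
      refine (mul_le_mul h2 (h3.trans h4) (norm_nonneg _) zero_le_one).trans ?_
      rw [one_mul]
    have h5 := hP (fun j t => (((cut ((pt j).2 / δ) : ℝ) : ℂ) *
        cj (ep j) (AA m0 (mm m (s i) t) N (β j) (τ j) (g j) (x j) (v j) (pt j))))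
        (fun _ => CA * y ^ CA * (Λ1 * T * M0)) t hBj h1 k hk
    rw [Finset.prod_const, Finset.card_univ] at h5
    exact h5
  have hβ0p : 0 ≤ β0 := by positivity
  have hΛp : 1 ≤ CL * y ^ n' := by
    have h9 : (1 : ℝ) ≤ y ^ n' := one_le_pow₀ hy1
    nlinarith
  have hmain := hns φ B (CL * y ^ n') δ' β0 T hφs hBs hΛp hδ'0 hδ'1 hβ0p hT hder hhi hamp
  refine hmain.trans ?_
  have e1 : Cn * β0 = K1 * y ^ (CA * q) * (T * M0) ^ q := by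
    rw [hβ0, hK1, pow_mul, mul_pow (CA : ℝ) Λ1 q]
    have : (CA * y ^ CA * (Λ1 * T * M0)) ^ q =
        (CA : ℝ) ^ q * (y ^ CA) ^ q * (Λ1 ^ q * (T * M0) ^ q) := by
      rw [mul_pow, mul_pow, mul_assoc Λ1, mul_pow Λ1]
    rw [this]
    ring
  have e2 : (CL * y ^ n' / δ') ^ 4 / T = K2 * y ^ (4 * n') * (n1 ^ 6 / w i ^ 4 / T) := by
    have e3 : (n1 ^ (-(3 / 2) : ℝ)) ^ 4 = 1 / n1 ^ 6 := by
      rw [← Real.rpow_natCast, ← Real.rpow_mul hn10.le, one_div, ← Real.rpow_natCast n1 6,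
        ← Real.rpow_neg hn10.le]
      norm_num
    rw [hδ', div_pow, mul_pow, mul_pow, e3, hK2, ← pow_mul, mul_comm n' 4, div_pow]
    field_simp
    norm_num
  rw [e1, e2]
  have e4 := I1_fin (M := M) (K1 := K1) (K2 := K2) (y := y) (Z := (T * M0) ^ q)
    (W := n1 ^ 6 / w i ^ 4 / T) (a1 := CA * q) (a2 := 4 * n') (C := C) (by positivity)
    (by positivity) hy1 (by positivity) (by positivity) hK1C hK2C hCAC hnC
  refine e4.trans (le_of_eq ?_)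
  congr 2
  ring

end BE66
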