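import Pool.Agent.LibBE66.Defs

/-! ROW P4 : the metrics of a block are close to the base metric. MEDIUM. Uses LibBGM20 (Q0-Q3: `ps`, `psR`, `per_bmq_le`,
`per_bmq_nonneg`, `QH1_card`, `ps_up`, `QH2_summable`; R0 `ex`; D2 `D2_bound`), LibB35 (Defs, Fam).
PLAN. `n = bk k`. `P.sP Γ D q.1 (0, z) = nx D P.m h0 z` with `h0 = BGM.ex .. (zer n ξ)` (`thc 0 = 0`, `zero_div`, `zero_mul`);
`P.sC Γ D q (σ, z) = nx D P.m h1 z`, `h1 = BGM.ex .. (upI (mix n ξ η) (n, c) 0) + thc σ * P.c n * per ..`. `near_ex`: the two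
families of coefficients agree except for the scale `n`, so in the series `ps = ∑' R, c R * psR R` only the term `R = n` differs:
`|ex ζ - ex ζ'| ≤ P.c n * (2 P.L (n+1))^2 * C` for `ζ, ζ'` with `ζ d = ζ' d` whenever `d.1 ≠ n` (each coefficient is in `[0, 1]`,
`0 ≤ per .. ≤ C`, the card of the grid is `(2 L (n+1))^2`). `|thc σ| ≤ 1` for `σ ∈ [0,1]`. `near_nx`: if `|h1 - h0| ≤ ε` everywhere (both
continuous) then `|nx h1 z - nx h0 z| ≤ 2 ε` (`∫ exp h1 √dt ≤ exp ε ∫ exp h0 √dt`, both positive: `D` has positive measure or use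
that the integrals are positive; if both integrals are `0` the logs are equal; `Real.log_le_log`, integrability on the bounded set `D`:
`Cmp_int hX` for continuous functions). -/

open MeasureTheory Set Filter Topology
open scoped ContDiff unitInterval

namespace BE66

open BGS BR BE B35
open Pool.BGR (upI)

variable {Γ : Type} [Group Γ] [MulAction Γ Pl] {D : Set Pl} {P : Dt}

theorem P4_cpos (hP : OkD Γ D P) (n : ℕ) : 0 < P.c n := by
  obtain ⟨s, hs, -, h⟩ := hP.c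
  rw [h n]
  exact mul_pos hs (Real.exp_pos _)

theorem near_ex (hP : OkD Γ D P) : ∃ C : ℝ, 0 ≤ C ∧ ∀ (n : ℕ) (ζ ζ' : Dir → I),
    (∀ d : Dir, d.1 ≠ n → ζ d = ζ' d) → ∀ z,
      |BGM.ex Γ P.ψ P.L P.c ζ z - BGM.ex Γ P.ψ P.L P.c ζ' z| ≤
        C * ((n : ℝ) + 1) ^ 2 * P.c n := by
  have hX := hP.cx.hX
  have hcs := hP.cx.cs
  obtain ⟨C, hC0, hC⟩ := BGM.per_bmq_le hX P.L
  refine ⟨(2 * P.L) ^ 2 * C, mul_nonneg (sq_nonneg _) hC0.le, ?_⟩
  intro n ζ ζ' h z
  have e1 : BGM.ex Γ P.ψ P.L P.c ζ z - BGM.ex Γ P.ψ P.L P.c ζ' z =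
      P.c n * (BGM.psR Γ P.L ζ n z - BGM.psR Γ P.L ζ' n z) := by
    unfold BGM.ex BGM.ps
    rw [add_sub_add_left_eq_sub, ← (BGM.QH2_summable hX P.L hcs ζ z).tsum_sub
      (BGM.QH2_summable hX P.L hcs ζ' z), tsum_eq_single n, mul_sub]
    intro R hR
    have h1 : BGM.psR Γ P.L ζ R z = BGM.psR Γ P.L ζ' R z := by
      unfold BGM.psR
      exact Finset.sum_congr rfl fun p _ => by rw [h (R, p) hR]
    rw [h1, sub_self]
  have e2 : |BGM.psR Γ P.L ζ n z - BGM.psR Γ P.L ζ' n z| ≤ (2 * P.L * ((n : ℝ) + 1)) ^ 2 * C := by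
    unfold BGM.psR
    rw [← Finset.sum_sub_distrib]
    refine (Finset.abs_sum_le_sum_abs _ _).trans ?_
    have h2 : ∀ p ∈ grid P.L (n + 1), |(ζ (n, p) : ℝ) * per Γ (BGM.bmq (n + 1) p) z -
        (ζ' (n, p) : ℝ) * per Γ (BGM.bmq (n + 1) p) z| ≤ C := by
      intro p hp
      have a0 := BGM.per_bmq_nonneg (Γ := Γ) (n + 1) p z
      have a1 := hC (n + 1) (by omega) p hp z
      have a2 := (ζ (n, p)).2.1
      have a3 := (ζ (n, p)).2.2
      have a4 := (ζ' (n, p)).2.1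
      have a5 := (ζ' (n, p)).2.2
      rw [← sub_mul, abs_mul, abs_of_nonneg a0]
      have a6 : |((ζ (n, p) : I) : ℝ) - ζ' (n, p)| ≤ 1 := by
        rw [abs_le]
        constructor <;> linarith
      calc |((ζ (n, p) : I) : ℝ) - ζ' (n, p)| * per Γ (BGM.bmq (n + 1) p) z
          ≤ 1 * per Γ (BGM.bmq (n + 1) p) z := mul_le_mul_of_nonneg_right a6 a0
        _ ≤ C := by rw [one_mul]; exact a1
    refine (Finset.sum_le_sum h2).trans ?_
    rw [Finset.sum_const, nsmul_eq_mul, BGM.QH1_card]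
    push_cast
    exact le_rfl
  rw [e1, abs_mul, abs_of_pos (P4_cpos hP n)]
  have e3 := mul_le_mul_of_nonneg_left e2 (P4_cpos hP n).le
  refine e3.trans (le_of_eq ?_)
  ring

theorem near_nx (hX : Surface Γ D) {m : Pl → Co} (hm : HM Γ m) {h0 h1 : Pl → ℝ}
    (c0 : Continuous h0) (c1 : Continuous h1) {ε : ℝ} (hε : ∀ z, |h1 z - h0 z| ≤ ε) (z : Pl) :
    |nx D m h1 z - nx D m h0 z| ≤ 2 * ε := by
  have hs : Continuous fun w => √(dt (m w)) :=
    Real.continuous_sqrt.comp (Cmp_dt_cont.comp hm.smooth.continuous)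
  have ic : ∀ h : Pl → ℝ, Continuous h →
      IntegrableOn (fun w => Real.exp (h w) * √(dt (m w))) D := fun h hc =>
    Cmp_int hX ((Real.continuous_exp.comp hc).mul hs)
  have key : ∀ f g : Pl → ℝ, Continuous f → Continuous g → (∀ z, g z - f z ≤ ε) →
      ∫ w in D, Real.exp (g w) * √(dt (m w)) ≤
        Real.exp ε * ∫ w in D, Real.exp (f w) * √(dt (m w)) := by
    intro f g hf hg h
    rw [← integral_const_mul]
    refine setIntegral_mono_on (ic g hg) ((ic f hf).const_mul _) hX.meas fun w _ => ?_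
    show Real.exp (g w) * √(dt (m w)) ≤ Real.exp ε * (Real.exp (f w) * √(dt (m w)))
    rw [← mul_assoc, ← Real.exp_add]
    refine mul_le_mul_of_nonneg_right (Real.exp_le_exp.2 ?_) (Real.sqrt_nonneg _)
    have := h w
    linarith
  have k1 := key h0 h1 c0 c1 fun z => (le_abs_self _).trans (hε z)
  have k2 := key h1 h0 c1 c0 fun z => by
    have := neg_abs_le (h1 z - h0 z)
    have := hε z
    linarith
  have n0 : 0 ≤ ∫ w in D, Real.exp (h0 w) * √(dt (m w)) :=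
    integral_nonneg fun w => mul_nonneg (Real.exp_pos _).le (Real.sqrt_nonneg _)
  have n1 : 0 ≤ ∫ w in D, Real.exp (h1 w) * √(dt (m w)) :=
    integral_nonneg fun w => mul_nonneg (Real.exp_pos _).le (Real.sqrt_nonneg _)
  have hε0 : 0 ≤ ε := (abs_nonneg _).trans (hε z)
  have hl : |Real.log (∫ w in D, Real.exp (h1 w) * √(dt (m w))) -
      Real.log (∫ w in D, Real.exp (h0 w) * √(dt (m w)))| ≤ ε := by
    rcases n0.eq_or_lt with h | h
    · rw [← h, mul_zero] at k1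
      have h2 := le_antisymm k1 n1
      rw [h2, ← h, sub_self, abs_zero]
      exact hε0
    · have h3 : 0 < ∫ w in D, Real.exp (h1 w) * √(dt (m w)) := by
        by_contra hc
        have h4 : Real.exp ε * (∫ w in D, Real.exp (h1 w) * √(dt (m w))) ≤ 0 :=
          mul_nonpos_of_nonneg_of_nonpos (Real.exp_pos _).le (not_lt.1 hc)
        linarith
      have h5 := Real.log_le_log h3 k1
      rw [Real.log_mul (Real.exp_pos _).ne' h.ne', Real.log_exp] at h5
      have h6 := Real.log_le_log h k2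
      rw [Real.log_mul (Real.exp_pos _).ne' h3.ne', Real.log_exp] at h6
      rw [abs_le]
      constructor <;> linarith
  have e : nx D m h1 z - nx D m h0 z = (h1 z - h0 z) -
      (Real.log (∫ w in D, Real.exp (h1 w) * √(dt (m w))) -
        Real.log (∫ w in D, Real.exp (h0 w) * √(dt (m w)))) := by
    unfold nx
    ring
  rw [e]
  refine (abs_sub _ _).trans ?_
  have := hε z
  linarith

theorem P4_thc0 : thc 0 = 0 := zero_mul _

theorem P4_thc {t : ℝ} (ht : t ∈ Icc (0 : ℝ) 1) : |thc t| ≤ 1 := by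
  unfold thc
  have h1 : 0 ≤ cut t := cut.nonneg
  have h2 : cut t ≤ 1 := cut.le_one
  rw [abs_mul, abs_of_nonneg ht.1, abs_of_nonneg h1]
  exact mul_le_one₀ ht.2 h1 h2

theorem near_bd (hP : OkD Γ D P) : ∃ C : ℝ, 0 ≤ C ∧
    ∀ q : (ℕ × (Dir → I) × (Dir → I)) × (ℤ × ℤ), q.2 ∈ grid P.L (bk q.1.1 + 1) →
    ∀ t ∈ Icc (0 : ℝ) 1, ∀ z, |P.sC Γ D q (t, z) - P.sP Γ D q.1 (0, z)| ≤
      C * ((bk q.1.1 : ℝ) + 1) ^ 2 * P.c (bk q.1.1) := by
  have hX := hP.cx.hX
  obtain ⟨C, hC0, hC⟩ := near_ex hP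
  obtain ⟨C', hC0', hC'⟩ := BGM.per_bmq_le hX P.L
  refine ⟨2 * (C + C'), by linarith, ?_⟩
  intro q hq t ht z
  set n := bk q.1.1 with hn
  set ζ : Dir → I := upI (mix n q.1.2.1 q.1.2.2) (n, q.2) 0 with hζ
  have hagree : ∀ d : Dir, d.1 ≠ n → ζ d = zer n q.1.2.1 d := by
    intro d hd
    have h1 : ζ d = mix n q.1.2.1 q.1.2.2 d := by
      rw [hζ]
      unfold upI
      refine Function.update_of_ne ?_ _ _
      intro h
      rw [h] at hd
      exact hd rfl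
    rw [h1]
    unfold mix zer
    rw [if_neg hd, if_neg hd]
  have c0 : Continuous (BGM.ex Γ P.ψ P.L P.c (zer n q.1.2.1)) :=
    (BGM.D2_smooth hP.cx _).1.continuous
  have c2 : Continuous (BGM.ex Γ P.ψ P.L P.c ζ) := (BGM.D2_smooth hP.cx _).1.continuous
  have c3 : Continuous (per Γ (BGM.bmq (n + 1) q.2)) := (BGM.QH1_per hX n q.2).1.continuous
  have c1 : Continuous (fun z => BGM.ex Γ P.ψ P.L P.c ζ z +
      thc t * P.c n * per Γ (BGM.bmq (n + 1) q.2) z) := c2.add (continuous_const.mul c3)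
  have e1 : P.sC Γ D q (t, z) = nx D P.m (fun z => BGM.ex Γ P.ψ P.L P.c ζ z +
      thc t * P.c n * per Γ (BGM.bmq (n + 1) q.2) z) z := rfl
  have e2 : P.sP Γ D q.1 (0, z) = nx D P.m (BGM.ex Γ P.ψ P.L P.c (zer n q.1.2.1)) z := by
    unfold Dt.sP
    congr 1
    funext w
    show BGM.ex Γ P.ψ P.L P.c (zer n q.1.2.1) w + thc 0 / √(P.c n) * _ = _
    rw [P4_thc0, zero_div, zero_mul, add_zero]
  rw [e1, e2]
  have hcn := P4_cpos hP n
  have hb : ∀ w, |(BGM.ex Γ P.ψ P.L P.c ζ w + thc t * P.c n * per Γ (BGM.bmq (n + 1) q.2) w) -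
      BGM.ex Γ P.ψ P.L P.c (zer n q.1.2.1) w| ≤ (C + C') * ((n : ℝ) + 1) ^ 2 * P.c n := by
    intro w
    have h1 := hC n ζ (zer n q.1.2.1) hagree w
    have h2 : |thc t * P.c n * per Γ (BGM.bmq (n + 1) q.2) w| ≤
        C' * ((n : ℝ) + 1) ^ 2 * P.c n := by
      have a0 := BGM.per_bmq_nonneg (Γ := Γ) (n + 1) q.2 w
      have a1 := hC' (n + 1) (by omega) q.2 hq w
      rw [abs_mul, abs_mul, abs_of_pos hcn, abs_of_nonneg a0]
      have a2 : |thc t| * P.c n ≤ P.c n := by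
        have := mul_le_mul_of_nonneg_right (P4_thc ht) hcn.le
        linarith
      have a3 : |thc t| * P.c n * per Γ (BGM.bmq (n + 1) q.2) w ≤ P.c n * C' :=
        mul_le_mul a2 a1 a0 hcn.le
      have a4 : (1 : ℝ) ≤ ((n : ℝ) + 1) ^ 2 := by
        have : (0 : ℝ) ≤ n := Nat.cast_nonneg n
        nlinarith
      have a5 : P.c n * C' * 1 ≤ P.c n * C' * ((n : ℝ) + 1) ^ 2 :=
        mul_le_mul_of_nonneg_left a4 (mul_nonneg hcn.le hC0'.le)
      nlinarith
    have e3 : (BGM.ex Γ P.ψ P.L P.c ζ w + thc t * P.c n * per Γ (BGM.bmq (n + 1) q.2) w) -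
      BGM.ex Γ P.ψ P.L P.c (zer n q.1.2.1) w = (BGM.ex Γ P.ψ P.L P.c ζ w -
      BGM.ex Γ P.ψ P.L P.c (zer n q.1.2.1) w) + thc t * P.c n * per Γ (BGM.bmq (n + 1) q.2) w := by
      ring
    rw [e3]
    refine (abs_add_le _ _).trans ?_
    have e4 : (C + C') * ((n : ℝ) + 1) ^ 2 * P.c n =
        C * ((n : ℝ) + 1) ^ 2 * P.c n + C' * ((n : ℝ) + 1) ^ 2 * P.c n := by ring
    rw [e4]
    exact add_le_add h1 h2
  have h3 := near_nx hX hP.hm c0 c1 hb z
  refine h3.trans (le_of_eq ?_)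
  ring

end BE66
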