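import Pool.Agent.LibBE66.P3
import Pool.Agent.LibBM73.M8

/-! ROW P5 : the derivative of the exponent in the coefficient of the cell. MEDIUM. Cites P3 `mean_bd`; LibBGM20 (D2 `D2_smooth`,
`D2_bound`; Q1 `per_bmq_le`, `per_bmq_nonneg`; Q2 `QH1_per`: smooth and invariant).
PLAN. `P.sC Γ D q (t, z) = H (z) + thc t * w * p z - log (∫ w' in D, exp (H w' + thc t * w * p w') √dt)`, `H = BGM.ex .. (..)`, `p = per Γ (bmq ..)`,
`w = P.c (bk k)`. `thc_der`: `thc t = t * cut t`, `cut = 1` on `[-1, 1]` (`ContDiffBump.one_of_mem_closedBall`), `deriv cut t = 0` for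
`t ∈ [0, 1]` (local maximum of a function `≤ 1`: `IsLocalMax.hasDerivAt_eq_zero`), so `HasDerivAt thc 1 t`. The integral
`A t = ∫ exp (H + thc t * w * p) √dt` over the bounded `D` is positive (the integrand is positive and `volume D > 0`: the orbit of `D` under
the countable group covers the plane; or derive positivity from `OkD`: `BGM.Cx.base`, see LibBM73/M7 `area_pos`), differentiable with
`A' t = thc' t * w * ∫ p exp (..) √dt` (`hasDerivAt_integral_of_dominated_loc_of_deriv_le`, everything continuous and bounded on `closure D`), so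
the derivative of the exponent is `w * (p z - c')`, `c' = (∫ p exp (..) √dt) / A t`. `|c'| ≤ C / (bk k + 1)^2`: `mean_bd` with `B` = a bound of
`|H + thc t w p|` (`D2_bound`, `P.c ≤ 1`, `per_bmq_le`) and `A t ≥ exp (-B) ∫ √dt > 0`. -/

open MeasureTheory Set Filter Topology
open scoped ContDiff unitInterval

namespace BE66

open BGS BR BE B35
open Pool.BGR (upI)

variable {Γ : Type} [Group Γ] [MulAction Γ Pl] {D : Set Pl} {P : Dt}

theorem thc_der {t : ℝ} (ht : t ∈ Icc (0 : ℝ) 1) : HasDerivAt thc 1 t ∧ thc t = t := by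
  have h1 : (cut : ℝ → ℝ) t = 1 := by
    refine cut.one_of_mem_closedBall ?_
    rw [Metric.mem_closedBall, dist_zero_right, Real.norm_eq_abs, abs_of_nonneg ht.1]
    exact ht.2
  have h2 : HasDerivAt (fun r : ℝ => (cut : ℝ → ℝ) r) (deriv (fun r : ℝ => (cut : ℝ → ℝ) r) t) t :=
    ((cut.contDiff (n := 1)).differentiable (by simp) t).hasDerivAt
  have h3 : IsLocalMax (fun r : ℝ => (cut : ℝ → ℝ) r) t := Filter.Eventually.of_forall fun r => by
    show (cut : ℝ → ℝ) r ≤ (cut : ℝ → ℝ) t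
    rw [h1]
    exact cut.le_one
  have h4 := h3.hasDerivAt_eq_zero h2
  rw [h4] at h2
  constructor
  · have h5 := (hasDerivAt_id t).mul h2
    have h6 : (1 : ℝ) * (cut : ℝ → ℝ) t + id t * 0 = 1 := by
      rw [h1, mul_zero, add_zero, mul_one]
    rw [h6] at h5
    exact h5
  · unfold thc
    rw [h1, mul_one]

/-- Differentiation of the area. -/
theorem P5_G (hX : Surface Γ D) {ρ H p : Pl → ℝ} (hρ : Continuous ρ) (hρ0 : ∀ z, 0 ≤ ρ z)
    (hH : Continuous H) (hp : Continuous p) {B C : ℝ} (hB : ∀ z, |H z| ≤ B) (hC : ∀ z, |p z| ≤ C)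
    (w u : ℝ) : HasDerivAt (fun u : ℝ => ∫ z in D, Real.exp (H z + u * w * p z) * ρ z)
      (∫ z in D, w * (p z * (Real.exp (H z + u * w * p z) * ρ z))) u := by
  have hC0 : 0 ≤ C := (abs_nonneg _).trans (hC 0)
  have hc : ∀ u : ℝ, Continuous fun z => Real.exp (H z + u * w * p z) * ρ z := fun u =>
    (Real.continuous_exp.comp (hH.add (continuous_const.mul hp))).mul hρ
  refine (hasDerivAt_integral_of_dominated_loc_of_deriv_le (μ := volume.restrict D)
    (F := fun u z => Real.exp (H z + u * w * p z) * ρ z)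
    (F' := fun u z => w * (p z * (Real.exp (H z + u * w * p z) * ρ z)))
    (bound := fun z => |w| * (C * (Real.exp (B + (|u| + 1) * |w| * C) * ρ z)))
    (s := Metric.ball u 1) (Metric.ball_mem_nhds u one_pos) ?_ ?_ ?_ ?_ ?_ ?_).2
  · exact Eventually.of_forall fun u => (hc u).aestronglyMeasurable
  · exact Cmp_int hX (hc u)
  · exact (continuous_const.mul (hp.mul (hc u))).aestronglyMeasurable
  · refine Eventually.of_forall fun z x hx => ?_
    rw [Metric.mem_ball, Real.dist_eq] at hx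
    have h1 : |x| ≤ |u| + 1 := by
      have := abs_sub_abs_le_abs_sub x u
      linarith
    rw [norm_mul, norm_mul, norm_mul, Real.norm_eq_abs, Real.norm_eq_abs,
      Real.norm_of_nonneg (Real.exp_pos _).le, Real.norm_of_nonneg (hρ0 z)]
    have h2 : H z + x * w * p z ≤ B + (|u| + 1) * |w| * C := by
      have h3 := (abs_le.1 (hB z)).2
      have h4 : x * w * p z ≤ |x * w * p z| := le_abs_self _
      have h5 : |x * w * p z| ≤ (|u| + 1) * |w| * C := by
        rw [abs_mul, abs_mul]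
        have := hC z
        gcongr
      linarith
    have h3 := hC z
    have h4 := hρ0 z
    have h5 : Real.exp (H z + x * w * p z) ≤ Real.exp (B + (|u| + 1) * |w| * C) :=
      Real.exp_le_exp.2 h2
    gcongr
  · exact Cmp_int hX (continuous_const.mul (continuous_const.mul (continuous_const.mul hρ)))
  · refine Eventually.of_forall fun z x _ => ?_
    have h1 : HasDerivAt (fun x : ℝ => H z + x * w * p z) (w * p z) x := by
      have h2 := (((hasDerivAt_id x).mul_const w).mul_const (p z)).const_add (H z)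
      simpa using h2
    have h3 := h1.exp.mul_const (ρ z)
    refine h3.congr_deriv ?_
    ring

theorem der_bd (hP : OkD Γ D P) : ∃ C : ℝ, 0 ≤ C ∧
    ∀ q : (ℕ × (Dir → I) × (Dir → I)) × (ℤ × ℤ), q.2 ∈ grid P.L (bk q.1.1 + 1) →
    ∀ t ∈ Icc (0 : ℝ) 1, ∃ c : ℝ, |c| ≤ C / ((bk q.1.1 : ℝ) + 1) ^ 2 ∧
      ∀ z, HasDerivAt (fun r => P.sC Γ D q (r, z))
        (P.c (bk q.1.1) * (per Γ (BGM.bmq (bk q.1.1 + 1) q.2) z - c)) t := by
  have hX := hP.cx.hX
  obtain ⟨M, hM, HM1⟩ := BGM.D2_bound hP.cx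
  obtain ⟨Cp, hCp, HC⟩ := BGM.per_bmq_le hX P.L
  obtain ⟨C1, hC1, HC1⟩ := mean_bd hX hP.hm P.L (M + Cp)
  have hρ := AN8b_rho_cont hP.hm
  have hA0 : 0 < ∫ z in D, √(dt (P.m z)) := BM73.area_pos hX hP.cx.rp
  set A0 := ∫ z in D, √(dt (P.m z)) with hA0d
  refine ⟨C1 / (Real.exp (-(M + Cp)) * A0), by positivity, fun q hq t ht => ?_⟩
  obtain ⟨ht1, ht2⟩ := thc_der ht
  set n := bk q.1.1 with hn
  set w := P.c n with hw
  have hw0 : 0 < w := hP.cx.cs.pos n
  have hw1 : w ≤ 1 := hP.cx.cs.le_one n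
  set H : Pl → ℝ := fun z => BGM.ex Γ P.ψ P.L P.c (upI (mix n q.1.2.1 q.1.2.2) (n, q.2) 0) z
    with hH
  set p : Pl → ℝ := per Γ (BGM.bmq (n + 1) q.2) with hp
  have hHc : Continuous H := (BGM.D2_smooth hP.cx _).1.continuous
  have hpc : Continuous p := (BGM.QH1_per hX n q.2).1.continuous
  have hp0 : ∀ z, 0 ≤ p z := BGM.per_bmq_nonneg (n + 1) q.2
  have hp1 : ∀ z, p z ≤ Cp := fun z => HC (n + 1) (by omega) q.2 hq z
  have hpa : ∀ z, |p z| ≤ Cp := fun z => by
    rw [abs_of_nonneg (hp0 z)]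
    exact hp1 z
  have hHa : ∀ z, |H z| ≤ M := fun z => HM1 _ z
  have hG := P5_G hX hρ (fun z => Real.sqrt_nonneg _) hHc hpc hHa hpa w t
  set A := fun u : ℝ => ∫ z in D, Real.exp (H z + u * w * p z) * √(dt (P.m z)) with hAd
  have htw : ∀ z, |H z + t * w * p z| ≤ M + Cp := fun z => by
    refine (abs_add_le _ _).trans (add_le_add (hHa z) ?_)
    rw [abs_mul, abs_of_nonneg (mul_nonneg ht.1 hw0.le), abs_of_nonneg (hp0 z)]
    calc t * w * p z ≤ 1 * 1 * Cp := by
          have h1 := ht.2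
          have h2 := hp1 z
          have h3 := hp0 z
          gcongr
      _ = Cp := by ring
  have hhc : Continuous fun z => H z + t * w * p z := hHc.add (continuous_const.mul hpc)
  have hAt : Real.exp (-(M + Cp)) * A0 ≤ A t := by
    rw [hA0d, ← integral_const_mul]
    refine integral_mono (Cmp_int hX (continuous_const.mul hρ))
      (Cmp_int hX ((Real.continuous_exp.comp hhc).mul hρ)) fun z => ?_
    refine mul_le_mul_of_nonneg_right (Real.exp_le_exp.2 ?_) (Real.sqrt_nonneg _)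
    exact (abs_le.1 (htw z)).1
  have hAt0 : 0 < A t := lt_of_lt_of_le (by positivity) hAt
  set J := ∫ z in D, p z * (Real.exp (H z + t * w * p z) * √(dt (P.m z))) with hJ
  have hJ1 : |J| ≤ C1 / ((n : ℝ) + 1) ^ 2 := by
    have h1 := HC1 (n + 1) (by omega) q.2 hq _ hhc htw
    have h2 : (((n + 1 : ℕ) : ℝ)) = (n : ℝ) + 1 := by push_cast; rfl
    rw [h2] at h1
    exact h1
  have hG' : HasDerivAt A (w * J) t := by
    rw [hJ, ← integral_const_mul]
    exact hG
  refine ⟨J / A t, ?_, fun z => ?_⟩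
  · rw [abs_div, abs_of_pos hAt0]
    calc |J| / A t ≤ (C1 / ((n : ℝ) + 1) ^ 2) / (Real.exp (-(M + Cp)) * A0) := by
          gcongr
      _ = C1 / (Real.exp (-(M + Cp)) * A0) / ((n : ℝ) + 1) ^ 2 := by
          field_simp
  · have hth : HasDerivAt (fun r : ℝ => A (thc r)) (w * J * 1) t := by
      have h1 : HasDerivAt A (w * J) (thc t) := by
        rw [ht2]
        exact hG'
      exact h1.comp t ht1
    have hAth : A (thc t) ≠ 0 := by
      rw [ht2]
      exact hAt0.ne'
    have h2 := hth.log hAth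
    have h3 : HasDerivAt (fun r : ℝ => H z + thc r * w * p z) (1 * w * p z) t :=
      ((ht1.mul_const w).mul_const (p z)).const_add (H z)
    have h4 := h3.sub h2
    rw [ht2] at h4
    refine h4.congr_deriv ?_
    field_simp

end BE66
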