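import Pool.Agent.LibBE66.G3
import Pool.Agent.LibBE66.G4

/-! ROW P1 : the closed geodesics `Cg Γ` and their axes. MEDIUM. Cites G3 `G3_per`, G4 `per_cont`, LibGD33 (G1 `axis_exists`,
`axis_unique`, `axis_tl`, G3 `axis_pow`, `Axis_inv`), LibGH18 `rep_prim`, LibBGM20 B4p `B4_ne`.
PLAN. `ax_spec`: `axis_exists` and the definition of `ax` (`dif_pos`, `choose_spec`). `q_axis`: `gel q = gpr q ^ (n + 1)`
(`axis_pow`), `tl (g⁻¹) = tl g` (`BGM.B2_inv` or `Axis_inv` with `axis_tl`), so `BGM.tl m (gpr q) = lp m q.1`; `GH.rep p ≠ 1`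
(it is primitive: `GH.rep_prim`, definition of `GH.Prim`, see how LibGD33 uses it). `pint_vis`: put `P = per Γ (BGM.bmq R c)`,
continuous and invariant (`per_cont`); `t ↦ P (gfl m t (ax ..)).1` is periodic with the period `lp` (`G3_per` for the axis of `gpr q`), so
the integral over `[0, (n+1) lp]` is `(n+1)` times the one over `[0, lp]` (`Function.Periodic.intervalIntegral_add_eq`, induction). For the
orientation `false`: the axis of `rep⁻¹` and the reversed axis of `rep` (`Axis_inv`: `(x, -v)`) differ by a shift (`axis_unique`):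
`(ax m (rep⁻¹)) = gfl m s (x, -v)`, and `(gfl m t (x, -v)).1 = (gfl m (-t) (x, v)).1` (`gfl_homog` / `Ex_ray`); the integral over a period does not
change under the shift and the reflection (`intervalIntegral.integral_comp_neg`, periodicity). -/

open MeasureTheory Set Filter Topology
open scoped ContDiff

namespace BE66

open BGS BR BE B35

variable {Γ : Type} [Group Γ] [MulAction Γ Pl] {D : Set Pl} {m : Pl → Co}

theorem ax_spec (hX : Surface Γ D) (hO : Ori Γ) (hm : HM Γ m) {g : Γ} (hg : g ≠ 1) :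
    Axis m g (ax m g).1 (ax m g).2 (BGM.tl m g) := by
  obtain ⟨x0, v0, hA⟩ := GD.axis_exists hX hO hm hg
  have h : ∃ x : Pl × Pl, Axis m g x.1 x.2 (BGM.tl m g) := ⟨(x0, v0), hA⟩
  unfold ax
  rw [dif_pos h]
  exact h.choose_spec

omit [MulAction Γ Pl] in
private theorem P1_rep (p : GH.PG Γ) : GH.rep p ≠ 1 := by
  intro h
  rcases GH.rep_prim p 1 2 (by rw [h, one_zpow]) with h1 | h1 <;> omega

/-- The axis of the primitive element. -/
private theorem P1_ax (hX : Surface Γ D) (hO : Ori Γ) (hm : HM Γ m) (q : Cg Γ) :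
    Axis m (gpr q) (ax m (gpr q)).1 (ax m (gpr q)).2 (lp m q.1) := by
  have h1 := P1_rep q.1
  have hA := ax_spec hX hO hm h1
  have e : gpr q ≠ 1 ∧ BGM.tl m (gpr q) = lp m q.1 := by
    unfold gpr
    by_cases h : q.2.2 = true
    · rw [if_pos h]
      exact ⟨h1, rfl⟩
    · rw [if_neg h]
      exact ⟨inv_ne_one.2 h1, GD.axis_tl hX hO hm (Axis_inv hX hO hm hA)⟩
  have h2 := ax_spec hX hO hm e.1
  rw [e.2] at h2
  exact h2

theorem q_axis (hX : Surface Γ D) (hO : Ori Γ) (hm : HM Γ m) (q : Cg Γ) :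
    Axis m (gel q) (ax m (gpr q)).1 (ax m (gpr q)).2 (ln m q) ∧ 0 < lp m q.1 ∧
      lp m q.1 ≤ ln m q := by
  have h := P1_ax hX hO hm q
  have h1 := GD.axis_pow hX hO hm h (k := q.2.1 + 1) (by omega)
  have h2 : ((q.2.1 + 1 : ℕ) : ℝ) * lp m q.1 = ln m q := by
    unfold ln
    push_cast
    rfl
  rw [h2] at h1
  refine ⟨h1, h.pos, ?_⟩
  unfold ln
  have h3 : (0 : ℝ) ≤ q.2.1 := Nat.cast_nonneg _
  nlinarith [h.pos]

/-- The integral over a period of the axis does not depend on the axis. -/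
private theorem P1_shift (hX : Surface Γ D) (hm : HM Γ m) {F : Pl → ℝ} {l : ℝ} {x0 v0 x1 v1 : Pl}
    {s : ℝ} (hs : gfl m s (x0, v0) = (x1, v1))
    (hp : Function.Periodic (fun t => F (gfl m t (x0, v0)).1) l) :
    ∫ t in (0 : ℝ)..l, F (gfl m t (x1, v1)).1 = ∫ t in (0 : ℝ)..l, F (gfl m t (x0, v0)).1 := by
  have e : ∀ t : ℝ, F (gfl m t (x1, v1)).1 = (fun t => F (gfl m t (x0, v0)).1) (t + s) := by
    intro t
    show F (gfl m t (x1, v1)).1 = F (gfl m (t + s) (x0, v0)).1
    rw [gfl_add hX hm, hs]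
  simp only [e]
  rw [intervalIntegral.integral_comp_add_right (fun t => F (gfl m t (x0, v0)).1), zero_add,
    add_comm l s]
  have := hp.intervalIntegral_add_eq s 0
  rw [zero_add] at this
  exact this

/-- The reversed geodesic. -/
private theorem P1_rev (hX : Surface Γ D) (hm : HM Γ m) {F : Pl → ℝ} {l : ℝ} {x0 v0 : Pl}
    (hp : Function.Periodic (fun t => F (gfl m t (x0, v0)).1) l) :
    ∫ t in (0 : ℝ)..l, F (gfl m t (x0, -v0)).1 = ∫ t in (0 : ℝ)..l, F (gfl m t (x0, v0)).1 := by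
  have e : ∀ t : ℝ, F (gfl m t (x0, -v0)).1 = (fun t => F (gfl m t (x0, v0)).1) (-t) := by
    intro t
    show F (gfl m t (x0, -v0)).1 = F (gfl m (-t) (x0, v0)).1
    have h1 := gfl_homog hX hm (-1) t x0 v0
    rw [neg_smul, one_smul, neg_one_mul] at h1
    rw [h1]
  simp only [e]
  rw [intervalIntegral.integral_comp_neg (fun t => F (gfl m t (x0, v0)).1), neg_zero]
  have := hp.intervalIntegral_add_eq (-l) 0
  rw [zero_add, neg_add_cancel] at this
  exact this

private theorem P1_vis (hX : Surface Γ D) (hO : Ori Γ) (hm : HM Γ m) {F : Pl → ℝ}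
    (hF : ∀ (g : Γ) z, F (g • z) = F z) (q : Cg Γ) :
    ∫ t in (0 : ℝ)..(lp m q.1), F (gfl m t (ax m (gpr q))).1 =
      ∫ t in (0 : ℝ)..(lp m q.1), F (gfl m t (ax m (GH.rep q.1))).1 := by
  have h1 := P1_rep q.1
  have hA : Axis m (GH.rep q.1) (ax m (GH.rep q.1)).1 (ax m (GH.rep q.1)).2 (lp m q.1) :=
    ax_spec hX hO hm h1
  have hper : ∀ {g : Γ} {x v : Pl}, Axis m g x v (lp m q.1) →
      Function.Periodic (fun t => F (gfl m t (x, v)).1) (lp m q.1) := by
    intro g x v hg t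
    show F (gfl m (t + lp m q.1) (x, v)).1 = F (gfl m t (x, v)).1
    rw [G3_per hX hO hm hg, hF]
  have hq := P1_ax hX hO hm q
  by_cases h : q.2.2 = true
  · have e : gpr q = GH.rep q.1 := by
      unfold gpr
      rw [if_pos h]
    rw [e]
  · have e : gpr q = (GH.rep q.1)⁻¹ := by
      unfold gpr
      rw [if_neg h]
    rw [e] at hq ⊢
    have hi := Axis_inv hX hO hm hA
    obtain ⟨s, hs⟩ := GD.axis_unique hX hO hm hi hq
    have h2 := P1_shift hX hm hs (hper hi)
    have h3 := P1_rev hX hm (hper hA)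
    exact h2.trans h3

theorem pint_vis (hX : Surface Γ D) (hO : Ori Γ) (hm : HM Γ m) {R : ℕ} (hR : 1 ≤ R) (c : ℤ × ℤ)
    (q : Cg Γ) : pint Γ m R c (ax m (gpr q)).1 (ax m (gpr q)).2 (ln m q) =
      ((q.2.1 : ℝ) + 1) * vis m R c q.1 := by
  obtain ⟨hc, hinv⟩ := per_cont hX hR c
  have hq := P1_ax hX hO hm q
  have hper : Function.Periodic (fun t => per Γ (BGM.bmq R c)
      (gfl m t ((ax m (gpr q)).1, (ax m (gpr q)).2)).1) (lp m q.1) := by
    intro t
    show per Γ (BGM.bmq R c) (gfl m (t + lp m q.1) ((ax m (gpr q)).1, (ax m (gpr q)).2)).1 = _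
    rw [G3_per hX hO hm hq, hinv]
  have hcont : Continuous fun t => per Γ (BGM.bmq R c)
      (gfl m t ((ax m (gpr q)).1, (ax m (gpr q)).2)).1 := by
    refine hc.comp (continuous_fst.comp ?_)
    exact (gfl_smooth hX hm).continuous.comp (continuous_id.prodMk continuous_const)
  have h1 := hper.intervalIntegral_add_zsmul_eq ((q.2.1 : ℤ) + 1) 0
    fun t₁ t₂ => hcont.intervalIntegrable t₁ t₂
  rw [zero_add, zero_add, zsmul_eq_mul, zsmul_eq_mul] at h1
  push_cast at h1
  unfold pint vis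
  rw [← P1_vis hX hO hm hinv q]
  exact h1

end BE66
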