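import Pool.Agent.LibB35.Fam
import Pool.Agent.LibBE88.A6
import Pool.Agent.LibGD33.G1
import Pool.Agent.LibGD33.G3
import Pool.Agent.LibBGM20.H1B
import Pool.Agent.LibBGM20.A7
import Pool.Agent.LibBGM20.D1
import Pool.Agent.LibBGM20.D4

/-! Decorrelation by integration by parts in one coefficient of the metric (part D of BE35):
definitions (architect helper66). -/

open MeasureTheory Set Filter Topology
open scoped ContDiff

namespace BE66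

open BGS BR BE B35

variable {Γ : Type} [Group Γ] [MulAction Γ Pl] {D : Set Pl} {ι : Type}

/-- The setting: `s i (σ, ·)` is the exponent of the metric as a function of the coefficient `σ` of
the bump function of the cell `pc i` of the mesh `1 / (nn i + 1)`, with the amplitude `w i`;
`s0 i (0, ·)` is the exponent of the base metric, `e i` bounds the difference. -/
structure DF (Γ : Type) [Group Γ] [MulAction Γ Pl] (D : Set Pl) (m : Pl → Co) (a b b0 : ℝ)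
    (L0 : ℕ) (s s0 : ι → ℝ × Pl → ℝ) (nn : ι → ℕ) (pc : ι → ℤ × ℤ) (w e : ι → ℝ) : Prop where
  cf : CF Γ D m a b s
  cf0 : CF Γ D m a b0 s0
  near : ∀ (i : ι), ∀ σ ∈ Icc (0 : ℝ) 1, ∀ z, |s i (σ, z) - s0 i (0, z)| ≤ e i
  e_mem : ∀ i, 0 ≤ e i ∧ e i ≤ 1
  w_mem : ∀ i, 0 < w i ∧ w i ≤ 1
  cell : ∀ i, pc i ∈ grid L0 (nn i + 1)
  der : ∃ C : ℝ, ∀ (i : ι), ∀ σ ∈ Icc (0 : ℝ) 1, ∃ c : ℝ, |c| ≤ C / ((nn i : ℝ) + 1) ^ 2 ∧
    ∀ z, HasDerivAt (fun t => s i (t, z)) (w i * (per Γ (BGM.bmq (nn i + 1) (pc i)) z - c)) σ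

/-- The integrand of `ZL`, as a function of the point `p = (s, y)`. -/
noncomputable def FF {Γ : Type} [Group Γ] [MulAction Γ Pl] (m0 m1 : Pl → Co) (δ : ℝ) (N : ℕ)
    (b : ℝ → ℂ) (τ : ℝ) (g : Γ) (x0 v0 : Pl) (p : Pl) : ℂ :=
  ((cut (p.2 / δ) : ℝ) : ℂ) * KE m1 N b τ g (Fm m0 x0 v0 p) *
    ((√(dt (m1 (Fm m0 x0 v0 p))) * |(fderiv ℝ (Fm m0 x0 v0) p).det| : ℝ) : ℂ)

/-- The amplitude: `FF` without the phase and the cut-off. -/
noncomputable def AA {Γ : Type} [Group Γ] [MulAction Γ Pl] (m0 m1 : Pl → Co) (N : ℕ)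
    (b : ℝ → ℂ) (τ : ℝ) (g : Γ) (x0 v0 : Pl) (p : Pl) : ℂ :=
  KC m1 N b τ (Fm m0 x0 v0 p) (g • Fm m0 x0 v0 p) *
    ((√(dt (m1 (Fm m0 x0 v0 p))) * |(fderiv ℝ (Fm m0 x0 v0) p).det| : ℝ) : ℂ)

/-- The integral of the bump function of a cell along a geodesic. -/
noncomputable def pint (Γ : Type) [Group Γ] [MulAction Γ Pl] (m0 : Pl → Co) (R : ℕ) (c : ℤ × ℤ)
    (x0 v0 : Pl) (l : ℝ) : ℝ :=
  ∫ t in (0 : ℝ)..l, per Γ (BGM.bmq R c) (gfl m0 t (x0, v0)).1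

end BE66
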