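import Pool.Agent.LibBE66.UD
import Pool.Agent.LibBE88.V11
import Pool.Agent.LibBE88.V12

/-! ROW F1 : bounds of the derivatives in the parameter at every point of the cover. MEDIUM. Cites LibBE88 V12
(`par_ds`, `Adm_par`, `ds_low`), V11 `Adm_UU`, V1 `Adm_smooth`, row UD.
PLAN. Given `x : Pl` and `g ≠ 1` choose `γ` with `x' = γ • x ∈ D` (`hX.orbit`), `g' = γ * g * γ⁻¹ ≠ 1`; then
`g' • x' = γ • g • x`, and for every parameter `t`: `ds (mm .. t) x (g • x) = ds (mm .. t) x' (g' • x')` (`ds_deck`, `hm_mm`) and the same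
for `UU` (`UU_deck`): the two functions of `t` are equal (`funext`). `F1_ds`: `par_ds` with `k` and
`norm_iteratedFDeriv_eq_norm_iteratedDeriv`; smoothness: `ds = eu (JV ..)`, `JV_smooth`, `x ≠ g • x` (`B1_free` in LibBGM20/B1,
`eu_Vx_pos`), `√` away from `0`. `F1_UU`: `Adm_par` for `Adm_UU`; smoothness: `Adm_smooth` (the set `D` is nonempty: it meets
every orbit), composed with `t ↦ (t, x, g • x)`. -/

open MeasureTheory Set Filter Topology
open scoped ContDiff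

namespace BE66

open BGS BR BE B35

variable {Γ : Type} [Group Γ] [MulAction Γ Pl] {D : Set Pl} {ι : Type} {m : Pl → Co} {a b : ℝ}
  {s : ι → ℝ × Pl → ℝ}

theorem ds_smooth (h : CF Γ D m a b s) (i : ι) {x y : Pl} (hxy : x ≠ y) :
    ContDiff ℝ ∞ (fun t => BR.ds (mm m (s i) t) x y) ∧ ∀ t, 0 < BR.ds (mm m (s i) t) x y := by
  have hpos : ∀ t, 0 < BR.ds (mm m (s i) t) x y := fun t => ds_pos h.hX (hm_mm h i t) hxy
  refine ⟨?_, hpos⟩
  have h1 : ContDiff ℝ ∞ fun t : ℝ => JV m (s i) (t, x, y) :=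
    (JV_smooth h i).comp (contDiff_id.prodMk contDiff_const)
  have h2 : (fun t => BR.ds (mm m (s i) t) x y) =
      fun t : ℝ => √((JV m (s i) (t, x, y)).1 ^ 2 + (JV m (s i) (t, x, y)).2 ^ 2) := rfl
  rw [h2]
  refine ContDiff.sqrt ((h1.fst.pow 2).add (h1.snd.pow 2)) fun t h0 => ?_
  have h3 := hpos t
  have h4 : BR.ds (mm m (s i) t) x y =
      √((JV m (s i) (t, x, y)).1 ^ 2 + (JV m (s i) (t, x, y)).2 ^ 2) := rfl
  rw [h4, h0, Real.sqrt_zero] at h3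
  exact lt_irrefl _ h3

theorem UU_smooth (h : CF Γ D m a b s) (i : ι) (j : ℕ) :
    ContDiff ℝ ∞ (fun e : ℝ × Pl × Pl =>
      UU (Gx (mm m (s i) e.1) e.2.1) j (Vx (mm m (s i) e.1) e.2.1 e.2.2)) := by
  obtain ⟨γ, hγ, -⟩ := h.hX.orbit (0 : Pl)
  exact Adm_smooth h.hX ⟨_, hγ⟩ (Adm_UU h j) i

private theorem F1_conj {x : Pl} {g γ : Γ} : (γ * g * γ⁻¹) • (γ • x) = γ • (g • x) := by
  rw [mul_smul, mul_smul, inv_smul_smul]

omit [MulAction Γ Pl] in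
private theorem F1_ne {g γ : Γ} (hg : g ≠ 1) : γ * g * γ⁻¹ ≠ 1 := by
  intro h0
  apply hg
  have h1 : γ * g = γ := by
    have := congrArg (fun k => k * γ) h0
    simpa using this
  simpa using h1

theorem F1_ds (h : CF Γ D m a b s) (k : ℕ) : ∃ n : ℕ, ∀ (i : ι) (t : ℝ), |t| ≤ 1 →
    ∀ (x : Pl) (g : Γ), g ≠ 1 →
      ‖iteratedDeriv k (fun r => BR.ds (mm m (s i) r) x (g • x)) t‖ ≤
        n * (2 + BR.ds (mm m (s i) t) x (g • x)) ^ n := by
  obtain ⟨n, hn⟩ := par_ds h k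
  refine ⟨n, fun i t ht x g hg => ?_⟩
  obtain ⟨γ, hγ, -⟩ := h.hX.orbit x
  have hd : ∀ r, BR.ds (mm m (s i) r) x (g • x) =
      BR.ds (mm m (s i) r) (γ • x) ((γ * g * γ⁻¹) • (γ • x)) := fun r => by
    rw [F1_conj, (ds_deck h.hX h.hO (hm_mm h i r) γ x (g • x)).1]
  have h1 := hn i t (by rw [Real.norm_eq_abs]; exact ht) (γ • x) (subset_closure hγ)
    (γ * g * γ⁻¹) (F1_ne hg)
  rw [norm_iteratedFDeriv_eq_norm_iteratedDeriv] at h1
  simp only [hd]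
  exact h1

theorem F1_UU (h : CF Γ D m a b s) (j k : ℕ) : ∃ n : ℕ, ∀ (i : ι) (t : ℝ), |t| ≤ 1 →
    ∀ (x : Pl) (g : Γ),
      ‖iteratedDeriv k (fun r => UU (Gx (mm m (s i) r) x) j (Vx (mm m (s i) r) x (g • x))) t‖ ≤
        n * (2 + BR.ds (mm m (s i) t) x (g • x)) ^ n := by
  obtain ⟨n, hn⟩ := Adm_par (Adm_UU h j) k
  refine ⟨n, fun i t ht x g => ?_⟩
  obtain ⟨γ, hγ, -⟩ := h.hX.orbit x
  have hd : BR.ds (mm m (s i) t) x (g • x) =
      BR.ds (mm m (s i) t) (γ • x) ((γ * g * γ⁻¹) • (γ • x)) := by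
    rw [F1_conj, (ds_deck h.hX h.hO (hm_mm h i t) γ x (g • x)).1]
  have hu : (fun r => UU (Gx (mm m (s i) r) x) j (Vx (mm m (s i) r) x (g • x))) =
      fun r => UU (Gx (mm m (s i) r) (γ • x)) j
        (Vx (mm m (s i) r) (γ • x) ((γ * g * γ⁻¹) • (γ • x))) := by
    funext r
    rw [F1_conj, UU_deck h.hX h.hO (hm_mm h i r)]
  have h1 := hn i t (by rw [Real.norm_eq_abs]; exact ht) (γ • x) (subset_closure hγ)
    (γ * g * γ⁻¹)
  rw [norm_iteratedFDeriv_eq_norm_iteratedDeriv] at h1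
  rw [hu, hd]
  exact h1

end BE66
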