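import Pool.Agent.LibBE66.F1
import Pool.Agent.LibBE66.AL
import Pool.Agent.LibBGM20.B1

/-! ROW F2 : the complex kernel as a function of the parameter. MEDIUM. Cites F1, AL.
PLAN. `KC = ∑ j ∈ range (N+1), (UU .. : ℂ) * al j a τ (ds ..)`. `F2_comp`: Faa di Bruno bound
`norm_iteratedFDerivWithin_comp_le` with `s = univ`, `t = Ioi 0` (`iteratedFDerivWithin_univ`; on the open set `Ioi 0`
`iteratedFDerivWithin_of_isOpen`), `norm_iteratedFDeriv_eq_norm_iteratedDeriv`. `KC_smooth`: `F1.ds_smooth` (`ds > 0` for every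
parameter), `al_bd` (ContDiffOn), `UU_smooth`. `KC_bd`: let `d = ds (mm m (s i) t) x (g • x) ≥ r0` (`ds_low`, `|t| ≤ 1`);
derivatives of `ds` of the orders `1..k`: `≤ n (2+d)^n ≤ B ^ i` with `B = n' (2+d)^n' ≥ 1` (`F1_ds`, maximum over the finitely many
orders); `F2_comp` with `C = C_al * M * (ρ+1)^(2j+1) * τ`; product with `UU` by Leibniz
(`norm_iteratedFDeriv_mul_le`; `F1_UU`; the real factor as a complex function: `Complex.ofRealCLM`). The exponent `C` (natural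
number) is the maximum of finitely many. -/

open MeasureTheory Set Filter Topology
open scoped ContDiff

namespace BE66

open BGS BR BE B35

theorem F2_comp {f : ℝ → ℝ} {g : ℝ → ℂ} (hf : ContDiff ℝ ∞ f) (hg : ContDiffOn ℝ ∞ g (Ioi 0))
    (h0 : ∀ t, 0 < f t) {k : ℕ} {t C B : ℝ} (hC : ∀ i ≤ k, ‖iteratedDeriv i g (f t)‖ ≤ C)
    (hB : ∀ i, 1 ≤ i → i ≤ k → ‖iteratedDeriv i f t‖ ≤ B ^ i) :
    ContDiff ℝ ∞ (fun r => g (f r)) ∧
      ‖iteratedDeriv k (fun r => g (f r)) t‖ ≤ k.factorial * C * B ^ k := by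
  refine ⟨hg.comp_contDiff hf h0, ?_⟩
  have h1 := norm_iteratedFDerivWithin_comp_le (𝕜 := ℝ) (g := g) (f := f) (n := k)
    (s := univ) (t := Ioi 0) (x := t) hg hf.contDiffOn (by exact_mod_cast le_top)
    isOpen_Ioi.uniqueDiffOn uniqueDiffOn_univ (fun r _ => h0 r) (mem_univ t) (C := C) (D := B)
    (fun i hi => by
      rw [iteratedFDerivWithin_of_isOpen i isOpen_Ioi (h0 t),
        norm_iteratedFDeriv_eq_norm_iteratedDeriv]
      exact hC i hi)
    (fun i hi hi' => by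
      rw [iteratedFDerivWithin_univ, norm_iteratedFDeriv_eq_norm_iteratedDeriv]
      exact hB i hi hi')
  rw [iteratedFDerivWithin_univ, norm_iteratedFDeriv_eq_norm_iteratedDeriv] at h1
  exact h1

/-- One term. -/
theorem F2_term {u f : ℝ → ℝ} {g : ℝ → ℂ} (hu : ContDiff ℝ ∞ u) (hf : ContDiff ℝ ∞ f)
    (hg : ContDiffOn ℝ ∞ g (Ioi 0)) (h0 : ∀ t, 0 < f t) {k : ℕ} {t U C B : ℝ}
    (hU : ∀ i ≤ k, ‖iteratedDeriv i u t‖ ≤ U) (hC : ∀ i ≤ k, ‖iteratedDeriv i g (f t)‖ ≤ C)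
    (hB1 : 1 ≤ B) (hB : ∀ i ≤ k, ‖iteratedDeriv i f t‖ ≤ B) :
    ContDiff ℝ ∞ (fun r => ((u r : ℝ) : ℂ) * g (f r)) ∧ ∀ j ≤ k,
      ‖iteratedDeriv j (fun r => ((u r : ℝ) : ℂ) * g (f r)) t‖ ≤
        2 ^ k * (U * (k.factorial * C * B ^ k)) := by
  have hC0 : 0 ≤ C := (norm_nonneg _).trans (hC 0 (Nat.zero_le k))
  have hU0 : 0 ≤ U := (norm_nonneg _).trans (hU 0 (Nat.zero_le k))
  have hB0 : 0 ≤ B := by linarith
  have hu' : ContDiff ℝ ∞ (fun r => ((u r : ℝ) : ℂ)) := Complex.ofRealCLM.contDiff.comp hu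
  have hgf : ContDiff ℝ ∞ (fun r => g (f r)) := hg.comp_contDiff hf h0
  refine ⟨hu'.mul hgf, fun j hj => ?_⟩
  have h1 := norm_iteratedFDeriv_mul_le hu' hgf t (n := j) (by exact_mod_cast le_top)
  rw [norm_iteratedFDeriv_eq_norm_iteratedDeriv] at h1
  refine h1.trans ?_
  have h2 : ∀ i ∈ Finset.range (j + 1), (j.choose i : ℝ) *
      ‖iteratedFDeriv ℝ i (fun r => ((u r : ℝ) : ℂ)) t‖ *
        ‖iteratedFDeriv ℝ (j - i) (fun r => g (f r)) t‖ ≤
      (j.choose i : ℝ) * (U * (k.factorial * C * B ^ k)) := by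
    intro i hi
    have hi' : i ≤ j := Nat.lt_succ_iff.1 (Finset.mem_range.1 hi)
    have e1 : ‖iteratedFDeriv ℝ i (fun r => ((u r : ℝ) : ℂ)) t‖ ≤ U := by
      have h3 := Complex.ofRealLI.norm_iteratedFDeriv_comp_left (f := u) (x := t)
        (n := (∞ : WithTop ℕ∞)) hu.contDiffAt (i := i) (by exact_mod_cast le_top)
      have h4 : (fun r => ((u r : ℝ) : ℂ)) = Complex.ofRealLI ∘ u := rfl
      rw [h4, h3, norm_iteratedFDeriv_eq_norm_iteratedDeriv]
      exact hU i (hi'.trans hj)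
    have hji : j - i ≤ k := (Nat.sub_le j i).trans hj
    have e2 : ‖iteratedFDeriv ℝ (j - i) (fun r => g (f r)) t‖ ≤ k.factorial * C * B ^ k := by
      rw [norm_iteratedFDeriv_eq_norm_iteratedDeriv]
      refine (F2_comp hf hg h0 (k := j - i) (C := C) (B := B)
        (fun l hl => hC l (hl.trans hji)) (fun l hl hl' => ?_)).2.trans ?_
      · refine (hB l (hl'.trans hji)).trans ?_
        exact le_self_pow₀ hB1 (by omega)
      · refine mul_le_mul (mul_le_mul_of_nonneg_right ?_ hC0) (pow_le_pow_right₀ hB1 hji)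
          (by positivity) (by positivity)
        exact_mod_cast Nat.factorial_le hji
    rw [mul_assoc]
    refine mul_le_mul_of_nonneg_left ?_ (Nat.cast_nonneg _)
    exact mul_le_mul e1 e2 (norm_nonneg _) hU0
  refine (Finset.sum_le_sum h2).trans ?_
  rw [← Finset.sum_mul]
  refine mul_le_mul_of_nonneg_right ?_ (by positivity)
  have h5 : ∑ i ∈ Finset.range (j + 1), (j.choose i : ℝ) = 2 ^ j := by
    exact_mod_cast Nat.sum_range_choose j
  rw [h5]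
  exact pow_le_pow_right₀ (by norm_num) hj

/-- Finitely many exponents. -/
theorem F2_max (k : ℕ) (n : ℕ → ℕ) {y : ℝ} (hy : 1 ≤ y) {i : ℕ} (hi : i ≤ k) {A : ℝ}
    (h : A ≤ n i * y ^ n i) : A ≤ ((1 + ∑ i ∈ Finset.range (k + 1), n i : ℕ) : ℝ) *
      y ^ (1 + ∑ i ∈ Finset.range (k + 1), n i) := by
  have h1 : n i ≤ 1 + ∑ i ∈ Finset.range (k + 1), n i := by
    have := Finset.single_le_sum (f := n) (s := Finset.range (k + 1)) (fun i _ => Nat.zero_le _)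
      (Finset.mem_range.2 (show i < k + 1 by omega))
    omega
  refine h.trans ?_
  refine mul_le_mul ?_ (pow_le_pow_right₀ hy h1) (by positivity) (by positivity)
  exact_mod_cast h1

variable {Γ : Type} [Group Γ] [MulAction Γ Pl] {D : Set Pl} {ι : Type} {m : Pl → Co} {a b : ℝ}
  {s : ι → ℝ × Pl → ℝ}

theorem KC_smooth (h : CF Γ D m a b s) (i : ι) {N : ℕ} {β : ℝ → ℂ} {ρ M τ : ℝ} (hρ : 0 ≤ ρ)
    (hβ : BE73.AmpN 1 β ρ M) (hτ : 1 ≤ τ) {x y : Pl} (hxy : x ≠ y) :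
    ContDiff ℝ ∞ (fun t => B35.KC (mm m (s i) t) N β τ x y) := by
  unfold B35.KC
  refine ContDiff.sum fun j _ => ?_
  obtain ⟨hd, hd0⟩ := ds_smooth h i hxy
  obtain ⟨C, -, hC⟩ := al_bd j 0 one_pos
  have hg := (hC β ρ M τ hρ hβ hτ).1
  have hU : ContDiff ℝ ∞ (fun t : ℝ => UU (Gx (mm m (s i) t) x) j (Vx (mm m (s i) t) x y)) :=
    (UU_smooth h i j).comp (contDiff_id.prodMk (contDiff_const (c := (x, y))))
  exact (Complex.ofRealCLM.contDiff.comp hU).mul (hg.comp_contDiff hd hd0)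

theorem KC_bd (h : CF Γ D m a b s) (N k : ℕ) : ∃ C : ℕ, ∀ (i : ι) (t : ℝ), |t| ≤ 1 →
    ∀ (x : Pl) (g : Γ), g ≠ 1 → ∀ (β : ℝ → ℂ) (ρ M τ : ℝ), 1 ≤ ρ → BE73.AmpN (k + 1) β ρ M →
      1 ≤ τ → ∀ j ≤ k, ‖iteratedDeriv j (fun r => B35.KC (mm m (s i) r) N β τ x (g • x)) t‖ ≤
        C * (1 + ρ) ^ C * (2 + BR.ds (mm m (s i) t) x (g • x)) ^ C * τ * M := by
  obtain ⟨r0, hr0, hlow⟩ := ds_low h
  choose nd hnd using F1_ds h
  choose nu hnu using F1_UU h
  choose Ca hCa0 hCa using fun q : ℕ => al_bd q k hr0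
  obtain ⟨n1, hn1⟩ : ∃ n1, n1 = 1 + ∑ i ∈ Finset.range (k + 1), nd i := ⟨_, rfl⟩
  obtain ⟨n2, hn2⟩ : ∃ n2 : ℕ → ℕ, ∀ q, n2 q = 1 + ∑ i ∈ Finset.range (k + 1), nu q i :=
    ⟨fun q => 1 + ∑ i ∈ Finset.range (k + 1), nu q i, fun _ => rfl⟩
  obtain ⟨n3, hn3⟩ : ∃ n3, n3 = ∑ q ∈ Finset.range (N + 1), n2 q := ⟨_, rfl⟩
  obtain ⟨A, hA⟩ : ∃ A : ℝ, A = ∑ q ∈ Finset.range (N + 1),
      2 ^ k * ((n2 q : ℝ) * (k.factorial * Ca q * (n1 : ℝ) ^ k)) := ⟨_, rfl⟩
  have hA0 : 0 ≤ A := by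
    rw [hA]
    refine Finset.sum_nonneg fun q _ => ?_
    have := hCa0 q
    positivity
  refine ⟨⌈A⌉₊ + ((2 * N + 1) + (n3 + n1 * k)), ?_⟩
  intro i t ht x g hg β ρ M τ hρ hβ hτ j hj
  obtain ⟨d, hd⟩ : ∃ d, d = BR.ds (mm m (s i) t) x (g • x) := ⟨_, rfl⟩
  have hxy : x ≠ g • x := fun he => hg (BGM.B1_free h.hX he.symm)
  obtain ⟨hds, hds0⟩ := ds_smooth h i hxy
  have hdr : r0 ≤ d := by
    rw [hd]
    exact hlow i t ht x g hg
  have hd0 : 0 < d := by linarith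
  have hy : 1 ≤ 2 + d := by linarith
  have hM : 0 ≤ M := (norm_nonneg _).trans (hβ.bound 0 (Nat.zero_le _) 0)
  have hρ0 : 0 ≤ ρ := by linarith
  have hτ0 : 0 ≤ τ := by linarith
  have hβ1 : BE73.AmpN 1 β ρ M := ⟨hβ.amp, fun l hl => hβ.bound l (by omega)⟩
  -- the terms
  have hterm : ∀ q ∈ Finset.range (N + 1),
      ContDiff ℝ ∞ (fun r => ((UU (Gx (mm m (s i) r) x) q (Vx (mm m (s i) r) x (g • x)) : ℝ) : ℂ) *
        B35.al q β τ (BR.ds (mm m (s i) r) x (g • x))) ∧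
      ‖iteratedDeriv j (fun r =>
        ((UU (Gx (mm m (s i) r) x) q (Vx (mm m (s i) r) x (g • x)) : ℝ) : ℂ) *
          B35.al q β τ (BR.ds (mm m (s i) r) x (g • x))) t‖ ≤
        (2 ^ k * ((n2 q : ℝ) * (k.factorial * Ca q * (n1 : ℝ) ^ k))) *
          ((1 + ρ) ^ (2 * N + 1) * (2 + d) ^ (n3 + n1 * k) * τ * M) := by
    intro q hq
    have hqN : q ≤ N := Nat.lt_succ_iff.1 (Finset.mem_range.1 hq)
    have hU : ContDiff ℝ ∞
        (fun r : ℝ => UU (Gx (mm m (s i) r) x) q (Vx (mm m (s i) r) x (g • x))) :=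
      (UU_smooth h i q).comp (contDiff_id.prodMk (contDiff_const (c := (x, g • x))))
    obtain ⟨hal, hal2⟩ := hCa q β ρ M τ hρ0 hβ hτ
    have h1 := F2_term (k := k) (t := t) hU hds hal hds0 (U := (n2 q : ℝ) * (2 + d) ^ n2 q)
      (C := Ca q * M * (ρ + 1) ^ (2 * q + 1) * τ) (B := (n1 : ℝ) * (2 + d) ^ n1)
      (fun l hl => by
        rw [hn2 q]
        refine F2_max k (nu q) hy hl ?_
        rw [hd]
        exact hnu q l i t ht x g)
      (fun l hl => by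
        rw [← hd]
        exact hal2 l hl d hdr)
      (by
        have h2 : (1 : ℝ) ≤ n1 := by
          rw [hn1]
          push_cast
          have : (0 : ℝ) ≤ ∑ i ∈ Finset.range (k + 1), (nd i : ℝ) := by positivity
          linarith
        exact one_le_mul_of_one_le_of_one_le h2 (one_le_pow₀ hy))
      (fun l hl => by
        rw [hn1]
        refine F2_max k nd hy hl ?_
        rw [hd]
        exact hnd l i t ht x g hg)
    refine ⟨h1.1, (h1.2 j hj).trans ?_⟩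
    have e1 : (ρ + 1) ^ (2 * q + 1) ≤ (1 + ρ) ^ (2 * N + 1) := by
      rw [add_comm ρ 1]
      exact pow_le_pow_right₀ (by linarith) (by omega)
    have e2 : (2 + d) ^ n2 q * ((2 + d) ^ n1) ^ k ≤ (2 + d) ^ (n3 + n1 * k) := by
      rw [← pow_mul, ← pow_add]
      refine pow_le_pow_right₀ hy ?_
      have := Finset.single_le_sum (f := n2) (fun i _ => Nat.zero_le _) hq
      omega
    have hc := hCa0 q
    calc 2 ^ k * ((n2 q : ℝ) * (2 + d) ^ n2 q *
          (k.factorial * (Ca q * M * (ρ + 1) ^ (2 * q + 1) * τ) * ((n1 : ℝ) * (2 + d) ^ n1) ^ k))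
        = (2 ^ k * ((n2 q : ℝ) * (k.factorial * Ca q * (n1 : ℝ) ^ k))) *
          ((ρ + 1) ^ (2 * q + 1) * ((2 + d) ^ n2 q * ((2 + d) ^ n1) ^ k) * τ * M) := by
          rw [mul_pow]
          ring
      _ ≤ _ := by
          refine mul_le_mul_of_nonneg_left ?_ (by positivity)
          refine mul_le_mul_of_nonneg_right ?_ hM
          refine mul_le_mul_of_nonneg_right ?_ hτ0
          exact mul_le_mul e1 e2 (by positivity) (by positivity)
  have hsum : iteratedDeriv j (fun r => B35.KC (mm m (s i) r) N β τ x (g • x)) t =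
      ∑ q ∈ Finset.range (N + 1), iteratedDeriv j (fun r =>
        ((UU (Gx (mm m (s i) r) x) q (Vx (mm m (s i) r) x (g • x)) : ℝ) : ℂ) *
          B35.al q β τ (BR.ds (mm m (s i) r) x (g • x))) t := by
    unfold B35.KC
    have h3 := iteratedFDeriv_fun_sum_apply (𝕜 := ℝ) (u := Finset.range (N + 1)) (n := j) (x := t)
      (f := fun q r => ((UU (Gx (mm m (s i) r) x) q (Vx (mm m (s i) r) x (g • x)) : ℝ) : ℂ) *
        B35.al q β τ (BR.ds (mm m (s i) r) x (g • x)))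
      (fun q hq => ((hterm q hq).1.of_le (by exact_mod_cast le_top)).contDiffAt)
    simp only [iteratedDeriv_eq_iteratedFDeriv]
    rw [h3, _root_.sum_apply]
  rw [hsum, ← hd]
  refine (norm_sum_le _ _).trans ((Finset.sum_le_sum fun q hq => (hterm q hq).2).trans ?_)
  rw [← Finset.sum_mul, ← hA]
  have g1 : A ≤ ((⌈A⌉₊ + ((2 * N + 1) + (n3 + n1 * k)) : ℕ) : ℝ) := by
    have h4 := Nat.le_ceil A
    refine h4.trans ?_
    exact_mod_cast Nat.le_add_right _ _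
  have g2 : (1 + ρ) ^ (2 * N + 1) ≤ (1 + ρ) ^ (⌈A⌉₊ + ((2 * N + 1) + (n3 + n1 * k))) :=
    pow_le_pow_right₀ (by linarith) (by omega)
  have g3 : (2 + d) ^ (n3 + n1 * k) ≤ (2 + d) ^ (⌈A⌉₊ + ((2 * N + 1) + (n3 + n1 * k))) :=
    pow_le_pow_right₀ hy (by omega)
  calc A * ((1 + ρ) ^ (2 * N + 1) * (2 + d) ^ (n3 + n1 * k) * τ * M)
      = A * (1 + ρ) ^ (2 * N + 1) * (2 + d) ^ (n3 + n1 * k) * τ * M := by ring
    _ ≤ _ := by
        refine mul_le_mul_of_nonneg_right ?_ hM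
        refine mul_le_mul_of_nonneg_right ?_ hτ0
        refine mul_le_mul ?_ g3 (by positivity) (by positivity)
        exact mul_le_mul g1 g2 (by positivity) (by positivity)

end BE66
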