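import Pool.Agent.LibBE66.Defs

/-! ROW G1 : first variation of the distance in the parameter. MEDIUM / STRONG. Uses LibBE88 (A1 `hm_mm`, A4
`JE_smooth`, A5 `JV_smooth`), LibBGM20 (A4 `ds_le`, A5 `ds_eq`), LibBGM20/H1B `had_of`, LibBR70.
PLAN. `g t = ds (mm m (s i) t) x y = eu (JV m (s i) (t, x, y))` is differentiable at `σ` (`JV_smooth`; `eu` is smooth
away from `0`: `√(v.1^2+v.2^2)`; `x ≠ y`, `eu_Vx_pos` in LibBR70/H1j). Let `c θ = gp m (s i) θ (σ, x, y)
= Ex (mm ..σ) x (θ • V)`, a smooth curve from `x` to `y` (`Ex_zero`, `Ex_Vx`) with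
`nm (mm m (s i) σ (c θ)) (deriv c θ) = d`, `d = ds (mm ..σ) x y` (`qf_gfl`/`Ex_ray` in LibBR70/H1e, or
`BGM.A3_rad` for `Had` = `had_of`). Because `mm m s t z = exp (s (t, z)) • m z`,
`nm (mm .. t z) v = exp ((s (t, z) - s (σ, z)) / 2) * nm (mm .. σ z) v` (`BGM.nm_smul_co`). So
`g t ≤ f t := BGM.len (mm .. t) c 0 1 = ∫ θ in 0..1, exp ((s (t, c θ) - s (σ, c θ)) / 2) * d`
(`BGM.ds_le`; `BGM.ds = BR.ds` for these metrics: `BGM.ds_eq`, `BGM.eu = BR.eu` by `rfl`), with equality at `t = σ`.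
`f` is differentiable at `σ` with `f' = ∫ θ in 0..1, (1/2) * deriv (fun t => s (t, c θ)) σ * d` (differentiation under
the integral: `intervalIntegral.hasDerivAt_integral_of_dominated_loc_of_deriv_le`, the integrand is smooth in `(t, θ)`, bounded on
the compact `[σ-1, σ+1] × [0,1]`). `f - g ≥ 0` with the minimum `0` at `σ`: `IsLocalMin.hasDerivAt_eq_zero`. -/

open MeasureTheory Set Filter Topology
open scoped ContDiff

namespace BE66

open BGS BR BE B35

variable {Γ : Type} [Group Γ] [MulAction Γ Pl] {D : Set Pl} {ι : Type} {m : Pl → Co} {a b : ℝ}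
  {s : ι → ℝ × Pl → ℝ}

private theorem G1_had (h : CF Γ D m a b s) (i : ι) (t : ℝ) :
    BGM.Had (mm m (s i) t) |b| (Ex (mm m (s i) t)) (Vx (mm m (s i) t)) (JB (mm m (s i) t)) := by
  have h0 := h.neg i t 0
  have ha : 0 < a ^ 2 := pow_pos h.a_pos 2
  have hb : 0 < |b| := by
    rw [abs_pos]
    rintro rfl
    have h1 := h0.1.trans h0.2
    norm_num at h1
    linarith
  refine BGM.had_of h.hX (hm_mm h i t) hb fun z => ?_
  rw [sq_abs]
  exact (h.neg i t z).1

private theorem G1_ds (h : CF Γ D m a b s) (i : ι) (t : ℝ) (x y : Pl) :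
    BR.ds (mm m (s i) t) x y = BGM.ds (mm m (s i) t) x y :=
  (BGM.ds_eq (G1_had h i t) x y).symm

private theorem G1_hd {Ψ : ℝ × ℝ → ℝ} (hΨ : ContDiff ℝ ∞ Ψ) (t θ : ℝ) :
    HasDerivAt (fun t => Ψ (t, θ)) (fderiv ℝ Ψ (t, θ) (1, 0)) t := by
  have h1 : HasFDerivAt Ψ (fderiv ℝ Ψ (t, θ)) (t, θ) :=
    ((hΨ.differentiable (by simp)) _).hasFDerivAt
  have h2 : HasDerivAt (fun t : ℝ => (t, θ)) (1, 0) t :=
    (hasDerivAt_id t).prodMk (hasDerivAt_const t θ)
  exact h1.comp_hasDerivAt t h2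

/-- a smooth integral with a parameter -/
private theorem G1_int {Ψ : ℝ × ℝ → ℝ} (hΨ : ContDiff ℝ ∞ Ψ) (σ : ℝ) :
    HasDerivAt (fun t => ∫ θ in (0 : ℝ)..1, Ψ (t, θ))
      (∫ θ in (0 : ℝ)..1, fderiv ℝ Ψ (σ, θ) (1, 0)) σ := by
  have hc : Continuous fun q : ℝ × ℝ => fderiv ℝ Ψ q (1, 0) :=
    (hΨ.continuous_fderiv (by simp)).clm_apply continuous_const
  obtain ⟨M, hM⟩ := ((isCompact_Icc (a := σ - 1) (b := σ + 1)).prod
    (isCompact_Icc (a := (0 : ℝ)) (b := 1))).exists_bound_of_continuousOn hc.continuousOn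
  refine (intervalIntegral.hasDerivAt_integral_of_dominated_loc_of_deriv_le
    (s := Icc (σ - 1) (σ + 1)) (bound := fun _ => M) (F := fun t θ => Ψ (t, θ))
    (F' := fun t θ => fderiv ℝ Ψ (t, θ) (1, 0))
    (Icc_mem_nhds (by linarith) (by linarith)) ?_ ?_ ?_ ?_ ?_ ?_).2
  · refine Eventually.of_forall fun t => ?_
    exact (hΨ.continuous.comp (continuous_const.prodMk continuous_id)).aestronglyMeasurable
  · exact (hΨ.continuous.comp (continuous_const.prodMk continuous_id)).intervalIntegrable _ _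
  · exact (hc.comp (continuous_const.prodMk continuous_id)).aestronglyMeasurable
  · refine Eventually.of_forall fun θ hθ t ht => ?_
    rw [uIoc_of_le zero_le_one] at hθ
    exact hM (t, θ) ⟨ht, ⟨hθ.1.le, hθ.2⟩⟩
  · exact intervalIntegrable_const
  · exact Eventually.of_forall fun θ _ t _ => G1_hd hΨ t θ

theorem first_var (h : CF Γ D m a b s) (i : ι) {x y : Pl} (hxy : x ≠ y) (σ : ℝ) :
    HasDerivAt (fun t => BR.ds (mm m (s i) t) x y)
      (1 / 2 * BR.ds (mm m (s i) σ) x y *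
        ∫ θ in (0 : ℝ)..1, deriv (fun t => s i (t, gp m (s i) θ (σ, x, y))) σ) σ := by
  have hH := G1_had h i σ
  have hm := hm_mm h i σ
  set V : Pl := JV m (s i) (σ, x, y) with hV
  set c : ℝ → Pl := fun θ => gp m (s i) θ (σ, x, y) with hc
  have hcE : ∀ θ, c θ = Ex (mm m (s i) σ) x (θ • V) := fun θ => rfl
  have hV' : V = Vx (mm m (s i) σ) x y := rfl
  have hEs : ContDiff ℝ ∞ (Ex (mm m (s i) σ) x) :=
    (Ex_smooth h.hX hm).comp (contDiff_const.prodMk contDiff_id)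
  have hcs : ContDiff ℝ ∞ c := hEs.comp (contDiff_id.smul contDiff_const)
  have hc0 : c 0 = x := by
    rw [hcE, zero_smul]
    exact Ex_zero h.hX hm x
  have hc1 : c 1 = y := by
    rw [hcE, one_smul]
    exact Ex_Vx h.hX hm x y
  set d : ℝ := BR.ds (mm m (s i) σ) x y with hd
  have hdV : d = BGM.eu V := rfl
  -- the speed
  have hsp : ∀ θ, BGM.nm (mm m (s i) σ (c θ)) (deriv c θ) = d := by
    intro θ
    have h1 : HasDerivAt c (fderiv ℝ (Ex (mm m (s i) σ) x) (θ • V) V) θ := by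
      have h2 : HasFDerivAt (Ex (mm m (s i) σ) x) (fderiv ℝ (Ex (mm m (s i) σ) x) (θ • V))
          (θ • V) := ((hEs.differentiable (by simp)) _).hasFDerivAt
      have h3 : HasDerivAt (fun θ : ℝ => θ • V) V θ := by
        have := (hasDerivAt_id θ).smul_const V
        rwa [one_smul] at this
      exact h2.comp_hasDerivAt θ h3
    rw [h1.deriv, hcE, hdV]
    exact BGM.A3_rad hH x V θ
  have hsp2 : ∀ t θ, BGM.nm (mm m (s i) t (c θ)) (deriv c θ) =
      Real.exp ((s i (t, c θ) - s i (σ, c θ)) / 2) * d := by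
    intro t θ
    have h1 := hsp θ
    unfold mm at h1 ⊢
    rw [BGM.nm_smul_co (Real.exp_pos _).le] at h1 ⊢
    rw [← h1, ← mul_assoc]
    congr 1
    rw [← Real.exp_half, ← Real.exp_half, ← Real.exp_add]
    congr 1
    ring
  -- the upper bound
  set Ψ : ℝ × ℝ → ℝ := fun q => Real.exp ((s i (q.1, c q.2) - s i (σ, c q.2)) / 2) * d with hΨ
  have hΨs : ContDiff ℝ ∞ Ψ := by
    have h1 : ContDiff ℝ ∞ fun q : ℝ × ℝ => c q.2 := hcs.comp contDiff_snd
    have h2 : ContDiff ℝ ∞ fun q : ℝ × ℝ => s i (q.1, c q.2) :=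
      (h.smooth i).comp (contDiff_fst.prodMk h1)
    have h3 : ContDiff ℝ ∞ fun q : ℝ × ℝ => s i (σ, c q.2) :=
      (h.smooth i).comp (contDiff_const.prodMk h1)
    exact (Real.contDiff_exp.comp ((h2.sub h3).div_const 2)).mul contDiff_const
  have hle : ∀ t, BR.ds (mm m (s i) t) x y ≤ ∫ θ in (0 : ℝ)..1, Ψ (t, θ) := by
    intro t
    have h1 := BGM.ds_le (G1_had h i t).rp (c := c) (hcs.of_le (by simp)) (zero_le_one (α := ℝ))
    rw [hc0, hc1] at h1
    rw [G1_ds h i t]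
    refine h1.trans (le_of_eq ?_)
    unfold BGM.len
    exact intervalIntegral.integral_congr fun θ _ => hsp2 t θ
  have heq : ∫ θ in (0 : ℝ)..1, Ψ (σ, θ) = d := by
    have h1 : ∀ θ, Ψ (σ, θ) = d := by
      intro θ
      rw [hΨ]
      simp
    simp only [h1]
    simp
  have hf := G1_int hΨs σ
  -- the derivative of the upper bound
  have hder : ∀ θ, fderiv ℝ Ψ (σ, θ) (1, 0) = 1 / 2 * d * deriv (fun t => s i (t, c θ)) σ := by
    intro θ
    have h3 := G1_hd hΨs σ θ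
    have h4 : HasDerivAt (fun t => s i (t, c θ)) (deriv (fun t => s i (t, c θ)) σ) σ := by
      have h5 : ContDiff ℝ ∞ fun t : ℝ => s i (t, c θ) :=
        (h.smooth i).comp (contDiff_id.prodMk contDiff_const)
      exact ((h5.differentiable (by simp)) σ).hasDerivAt
    have h6 : HasDerivAt (fun t => Ψ (t, θ))
        (Real.exp ((s i (σ, c θ) - s i (σ, c θ)) / 2) *
          (deriv (fun t => s i (t, c θ)) σ / 2) * d) σ :=
      (((h4.sub_const (s i (σ, c θ))).div_const 2).exp).mul_const d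
    rw [h3.unique h6, sub_self, zero_div, Real.exp_zero]
    ring
  -- differentiability of the distance
  have hV0 : V ≠ 0 := by
    intro h0
    apply hxy
    rw [← hc0, ← hc1, hcE, hcE, h0, smul_zero, smul_zero]
  have hg : DifferentiableAt ℝ (fun t => BR.ds (mm m (s i) t) x y) σ := by
    have h1 : DifferentiableAt ℝ (fun t : ℝ => JV m (s i) (t, x, y)) σ := by
      have h2 : ContDiff ℝ ∞ fun t : ℝ => JV m (s i) (t, x, y) :=
        (JV_smooth h i).comp (contDiff_id.prodMk contDiff_const)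
      exact (h2.differentiable (by simp)) σ
    have h3 : DifferentiableAt ℝ (fun v : Pl => v.1 ^ 2 + v.2 ^ 2) V := by fun_prop
    have h4 : V.1 ^ 2 + V.2 ^ 2 ≠ 0 := by
      intro h5
      apply hV0
      have h6 : V.1 = 0 := by nlinarith [sq_nonneg V.1, sq_nonneg V.2]
      have h7 : V.2 = 0 := by nlinarith [sq_nonneg V.1, sq_nonneg V.2]
      exact Prod.ext h6 h7
    have h8 : DifferentiableAt ℝ (fun t : ℝ =>
        (JV m (s i) (t, x, y)).1 ^ 2 + (JV m (s i) (t, x, y)).2 ^ 2) σ :=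
      DifferentiableAt.comp (g := fun v : Pl => v.1 ^ 2 + v.2 ^ 2) σ h3 h1
    exact h8.sqrt h4
  have hmin : IsLocalMin (fun t => (∫ θ in (0 : ℝ)..1, Ψ (t, θ)) -
      BR.ds (mm m (s i) t) x y) σ := by
    refine Eventually.of_forall fun t => ?_
    have h1 := hle t
    change (∫ θ in (0 : ℝ)..1, Ψ (σ, θ)) - BR.ds (mm m (s i) σ) x y ≤ _
    rw [heq]
    linarith
  have h0 := hmin.hasDerivAt_eq_zero (hf.sub hg.hasDerivAt)
  have hfin : (∫ θ in (0 : ℝ)..1, fderiv ℝ Ψ (σ, θ) (1, 0)) =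
      1 / 2 * d * ∫ θ in (0 : ℝ)..1, deriv (fun t => s i (t, c θ)) σ := by
    rw [← intervalIntegral.integral_const_mul]
    exact intervalIntegral.integral_congr fun θ _ => hder θ
  have h9 := hg.hasDerivAt
  rw [← sub_eq_zero.1 h0, hfin] at h9
  exact h9

end BE66
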