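import Pool.Agent.LibBE66.Defs

/-! ROW G3 : the segment from `x` to `g x`, `x = Fm (s, y)`, stays within `|y|` of the axis of `g`, with the same
parameter. MEDIUM. Uses LibBR70, LibBR73 (AN0, AN1), LibGD33/G1 (`gd_had`, `axis_tr`), LibBGM20/A7 `A7_quad`.
PLAN. `gd_had` gives `h : BGM.Had m k (Ex m) (Vx m) (JB m)`; `BGM.ds_eq` with `BGM.eu = BR.eu` (`rfl`) gives
`BGM.ds m x y = BR.ds m x y`. `G3_foot`: `Fm m x0 v0 (s, y) = Ex m z (y • rot v)`, `(z, v) = gfl m s (x0, v0)`, `eu v = 1`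
(`gfl_eu`), `ds_E`. `G3_per`: `(gfl m (s + l) (x0, v0)).1 = g • (gfl m s (x0, v0)).1` (`gfl_add`, `Axis.per`, `gfl_deck`).
`G3_len`: triangle inequality with the foot points, `ds z (g z) = l` (the geodesic is a line: `BGM.line_E`, `Ex_ray`), isometry
(`ds_deck`), and `l = BGM.tl m g ≤ ds` (`axis_tl`, `BGM.tl_le`). `G3_seg`: the axis from `z` to `g z` is
`θ ↦ Ex m z (θ • Vx m z (g • z)) = (gfl m (s + θ l) (x0, v0)).1` (`Vx_Ex`, `Ex_ray`, `gfl_add`), then `A7_quad`: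
`≤ (1-θ) ds x z + θ ds (g x) (g z) = |y|`. -/

open MeasureTheory Set Filter Topology
open scoped ContDiff

namespace BE66

open BGS BR BE B35

variable {Γ : Type} [Group Γ] [MulAction Γ Pl] {D : Set Pl} {m : Pl → Co}

theorem bgm_ds (hX : Surface Γ D) (hm : HM Γ m) (x y : Pl) : BGM.ds m x y = BR.ds m x y := by
  obtain ⟨k, h⟩ := GD.gd_had hX hm
  exact BGM.ds_eq h x y

private theorem G3_eu_rot (v : Pl) : BR.eu (rot v) = BR.eu v := by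
  unfold BR.eu rot
  congr 1
  ring

theorem G3_foot (hX : Surface Γ D) (hm : HM Γ m) {x0 v0 : Pl} (hv : eu v0 = 1) (s y : ℝ) :
    BR.ds m (Fm m x0 v0 (s, y)) (gfl m s (x0, v0)).1 = |y| := by
  obtain ⟨k, h⟩ := GD.gd_had hX hm
  have hv' : eu (gfl m s (x0, v0)).2 = 1 := by rw [gfl_eu hX hm]; exact hv
  have h1 : BR.ds m (gfl m s (x0, v0)).1 (Fm m x0 v0 (s, y)) = |y| := by
    have h2 : Fm m x0 v0 (s, y) =
        Ex m (gfl m s (x0, v0)).1 (y • rot (gfl m s (x0, v0)).2) := rfl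
    rw [h2]
    unfold BR.ds
    rw [Vx_Ex hX hm, AN0_eu_smul, G3_eu_rot, hv', mul_one]
  rw [BR.ds_comm hX hm]
  exact h1

theorem G3_per (hX : Surface Γ D) (hO : Ori Γ) (hm : HM Γ m) {g : Γ} {x0 v0 : Pl} {l : ℝ}
    (hA : Axis m g x0 v0 l) (s : ℝ) :
    (gfl m (s + l) (x0, v0)).1 = g • (gfl m s (x0, v0)).1 := by
  rw [← Ex_ray hX hm, ← Ex_ray hX hm]
  exact GD.axis_tr hX hO hm hA s

theorem G3_tri (hX : Surface Γ D) (hm : HM Γ m) (x y z : Pl) :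
    BR.ds m x z ≤ BR.ds m x y + BR.ds m y z := by
  rw [← bgm_ds hX hm, ← bgm_ds hX hm, ← bgm_ds hX hm]
  exact BGM.ds_tri (GD.gd_rp hm) x y z

theorem G3_line (hX : Surface Γ D) (hm : HM Γ m) {x0 v0 : Pl} (hv : BR.eu v0 = 1) (s t : ℝ) :
    BR.ds m (gfl m s (x0, v0)).1 (gfl m t (x0, v0)).1 = |s - t| := by
  obtain ⟨k, h⟩ := GD.gd_had hX hm
  rw [← bgm_ds hX hm, ← Ex_ray hX hm, ← Ex_ray hX hm]
  exact BGM.line_E h hv s t

theorem G3_len (hX : Surface Γ D) (hO : Ori Γ) (hm : HM Γ m) {g : Γ} {x0 v0 : Pl} {l : ℝ}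
    (hA : Axis m g x0 v0 l) (s y : ℝ) :
    l ≤ BR.ds m (Fm m x0 v0 (s, y)) (g • Fm m x0 v0 (s, y)) ∧
      BR.ds m (Fm m x0 v0 (s, y)) (g • Fm m x0 v0 (s, y)) ≤ l + 2 * |y| := by
  have hz := G3_per hX hO hm hA s
  have hf := G3_foot (x0 := x0) hX hm hA.unit s y
  have hzz : BR.ds m (gfl m s (x0, v0)).1 (g • (gfl m s (x0, v0)).1) = l := by
    rw [← hz]
    exact (G3_line hX hm hA.unit s (s + l)).trans (by
      rw [show s - (s + l) = -l by ring, abs_neg, abs_of_pos hA.pos])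
  constructor
  · rw [← bgm_ds hX hm, ← GD.axis_tl hX hO hm hA]
    exact BGM.tl_le m g _
  · have t1 := G3_tri hX hm (Fm m x0 v0 (s, y)) (gfl m s (x0, v0)).1 (g • Fm m x0 v0 (s, y))
    have t2 := G3_tri hX hm (gfl m s (x0, v0)).1 (g • (gfl m s (x0, v0)).1)
      (g • Fm m x0 v0 (s, y))
    have t3 : BR.ds m (g • (gfl m s (x0, v0)).1) (g • Fm m x0 v0 (s, y)) = |y| := by
      rw [(ds_deck hX hO hm g _ _).1, BR.ds_comm hX hm]
      exact hf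
    rw [hf] at t1
    rw [hzz, t3] at t2
    linarith

theorem G3_seg (hX : Surface Γ D) (hO : Ori Γ) (hm : HM Γ m) {g : Γ} {x0 v0 : Pl} {l : ℝ}
    (hA : Axis m g x0 v0 l) (s y : ℝ) {x : Pl} (hx : x = Fm m x0 v0 (s, y)) {θ : ℝ} (hθ : 0 ≤ θ)
    (hθ' : θ ≤ 1) :
    BR.ds m (Ex m x (θ • Vx m x (g • x))) (gfl m (s + θ * l) (x0, v0)).1 ≤ |y| := by
  obtain ⟨k, h⟩ := GD.gd_had hX hm
  have hz := G3_per hX hO hm hA s
  have hf := G3_foot (x0 := x0) hX hm hA.unit s y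
  rw [← hx] at hf
  have hV : Vx m (gfl m s (x0, v0)).1 (g • (gfl m s (x0, v0)).1) =
      l • (gfl m s (x0, v0)).2 := by
    rw [← hz]
    have h2 : (gfl m (s + l) (x0, v0)).1 =
        Ex m (gfl m s (x0, v0)).1 (l • (gfl m s (x0, v0)).2) := by
      rw [Ex_ray hX hm, add_comm, gfl_add hX hm]
    rw [h2, Vx_Ex hX hm]
  have hE : (gfl m (s + θ * l) (x0, v0)).1 =
      Ex m (gfl m s (x0, v0)).1 (θ • Vx m (gfl m s (x0, v0)).1 (g • (gfl m s (x0, v0)).1)) := by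
    rw [hV, smul_smul, Ex_ray hX hm, add_comm, gfl_add hX hm]
  have h1 := BGM.A7_quad h x (g • x) (gfl m s (x0, v0)).1 (g • (gfl m s (x0, v0)).1) hθ hθ'
  rw [← hE, bgm_ds hX hm, bgm_ds hX hm, bgm_ds hX hm, (ds_deck hX hO hm g _ _).1, hf] at h1
  linarith

end BE66
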