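import Pool.Agent.LibBE66.Defs

/-! ROW P2 : the scaled amplitudes. SHORT. ONLY MATHLIB and the definitions `FG33.IsAmp`, `GWin.sc`, `BE73.AmpN`, `BR.Amp`
(LibBR70/AB7 or where `Amp` is defined).
PLAN. `sc a L t = (2/L) a (t/L)`. `HasCompactSupport a` gives `ρ0 ≥ 1` with `a t = 0` for `|t| > ρ0`, so `sc a L t = 0` for `|t| > ρ0 L`.
`iteratedDeriv k (fun t => a (t / L)) t = L⁻¹ ^ k • iteratedDeriv k a (t / L)` (`iteratedDeriv_comp_const_mul`; `t / L = L⁻¹ * t`), and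
`iteratedDeriv k a` is continuous with compact support, bounded (`HasCompactSupport.iteratedDeriv`, `ContDiff.continuous_iteratedDeriv`,
`Continuous.bounded_above_of_compact_support`). `M` = twice the maximum for the finitely many orders that `Amp` and `AmpN` need. -/

open MeasureTheory Set Filter Topology
open scoped ContDiff

namespace BE66

open BGS BR BE B35

theorem P2_der {a : ℝ → ℂ} (ha : ContDiff ℝ ∞ a) (L : ℝ) (k : ℕ) (t : ℝ) :
    iteratedDeriv k (GWin.sc a L) t =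
      ((2 / L : ℝ) : ℂ) * ((L⁻¹) ^ k • iteratedDeriv k a (L⁻¹ * t)) := by
  have e1 : GWin.sc a L = fun t : ℝ => ((2 / L : ℝ) : ℂ) * (fun t : ℝ => a (L⁻¹ * t)) t := by
    funext s
    show ((2 / L : ℝ) : ℂ) * a (s / L) = ((2 / L : ℝ) : ℂ) * a (L⁻¹ * s)
    rw [div_eq_inv_mul s L]
  have hk : ContDiff ℝ k a := ha.of_le (by exact_mod_cast le_top)
  have e2 := iteratedDeriv_comp_const_smul hk L⁻¹
  have h3 : ContDiffAt ℝ k (fun t : ℝ => a (L⁻¹ * t)) t :=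
    (hk.comp (contDiff_const.mul contDiff_id)).contDiffAt
  rw [e1, iteratedDeriv_const_mul _ h3, e2]

theorem P2_bd {a : ℝ → ℂ} (ha : FG33.IsAmp a) (k : ℕ) : ∃ C : ℝ, ∀ t, ‖iteratedDeriv k a t‖ ≤ C := by
  have h1 : Continuous (iteratedFDeriv ℝ k a) :=
    ha.smooth.continuous_iteratedFDeriv (by exact_mod_cast le_top)
  obtain ⟨C, hC⟩ := h1.bounded_above_of_compact_support (ha.supp.iteratedFDeriv k)
  refine ⟨C, fun t => ?_⟩
  rw [← norm_iteratedFDeriv_eq_norm_iteratedDeriv]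
  exact hC t

theorem sc_amp {a : ℝ → ℂ} (ha : FG33.IsAmp a) : ∃ ρ0 : ℝ, 1 ≤ ρ0 ∧ ∀ n : ℕ, ∃ M : ℝ, 0 ≤ M ∧
    ∀ L ρ : ℝ, 1 ≤ L → ρ0 * L ≤ ρ → BE73.AmpN n (GWin.sc a L) ρ M := by
  have hK : IsCompact (tsupport a) := ha.supp
  obtain ⟨R, hR⟩ := hK.isBounded.subset_closedBall (0 : ℝ)
  refine ⟨max R 1, le_max_right _ _, fun n => ?_⟩
  have hz : ∀ t, max R 1 < |t| → a t = 0 := by
    intro t ht
    by_contra h
    have h1 := hR (subset_tsupport a (Function.mem_support.2 h))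
    rw [Metric.mem_closedBall, Real.dist_eq, sub_zero] at h1
    exact absurd (lt_of_lt_of_le ht h1) (not_lt.2 (le_max_left _ _))
  choose C hC using fun k => P2_bd ha k
  have hM0 : 0 ≤ 2 * ∑ k ∈ Finset.range (max n 4 + 1), |C k| :=
    mul_nonneg zero_le_two (Finset.sum_nonneg fun k _ => abs_nonneg _)
  refine ⟨2 * ∑ k ∈ Finset.range (max n 4 + 1), |C k|, hM0, ?_⟩
  intro L ρ hL hρ
  have hL0 : 0 < L := lt_of_lt_of_le one_pos hL
  have hb : ∀ k, k ≤ max n 4 → ∀ t, ‖iteratedDeriv k (GWin.sc a L) t‖ ≤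
      2 * ∑ k ∈ Finset.range (max n 4 + 1), |C k| := by
    intro k hk t
    rw [P2_der ha.smooth, norm_mul, norm_smul, Complex.norm_real]
    have h1 : ‖(2 / L : ℝ)‖ ≤ 2 := by
      rw [Real.norm_eq_abs, abs_of_pos (div_pos zero_lt_two hL0), div_le_iff₀ hL0]
      linarith
    have h2 : ‖(L⁻¹) ^ k‖ ≤ 1 := by
      rw [Real.norm_eq_abs, abs_of_nonneg (pow_nonneg (inv_nonneg.2 hL0.le) k)]
      exact pow_le_one₀ (inv_nonneg.2 hL0.le) (inv_le_one_of_one_le₀ hL)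
    have h3 : ‖iteratedDeriv k a (L⁻¹ * t)‖ ≤ ∑ k ∈ Finset.range (max n 4 + 1), |C k| := by
      refine ((hC k _).trans (le_abs_self _)).trans ?_
      exact Finset.single_le_sum (f := fun k => |C k|) (fun k _ => abs_nonneg _)
        (Finset.mem_range.2 (Nat.lt_succ_of_le hk))
    have h4 : ‖(L⁻¹) ^ k‖ * ‖iteratedDeriv k a (L⁻¹ * t)‖ ≤
        1 * ∑ k ∈ Finset.range (max n 4 + 1), |C k| :=
      mul_le_mul h2 h3 (norm_nonneg _) zero_le_one
    rw [one_mul] at h4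
    exact mul_le_mul h1 h4 (mul_nonneg (norm_nonneg _) (norm_nonneg _)) zero_le_two
  have hsm : ContDiff ℝ ∞ (GWin.sc a L) := by
    have h1 : ContDiff ℝ ∞ (fun t : ℝ => a (t / L)) :=
      ha.smooth.comp (contDiff_id.div_const L)
    exact contDiff_const.mul h1
  refine ⟨⟨hsm, ?_, ?_, ?_⟩, ?_⟩
  · intro t
    show ((2 / L : ℝ) : ℂ) * a (-t / L) = (starRingEnd ℂ) (((2 / L : ℝ) : ℂ) * a (t / L))
    rw [map_mul, Complex.conj_ofReal, ← ha.herm, neg_div]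
  · intro t ht
    show ((2 / L : ℝ) : ℂ) * a (t / L) = 0
    rw [hz, mul_zero]
    rw [abs_div, abs_of_pos hL0, lt_div_iff₀ hL0]
    exact lt_of_le_of_lt hρ ht
  · intro k hk t
    exact hb k (hk.trans (le_max_right _ _)) t
  · intro k hk t
    exact hb k (hk.trans (le_max_left _ _)) t

end BE66
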