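import Pool.Agent.LibBE66.Defs
import Pool.Agent.LibBR73.AN8c

/-! ROW P3 : the mean of a periodised bump function is `O (R^(-2))`. MEDIUM / STRONG. Uses LibBGM20/Q1 (`QMD_fin`, `bmq_ball`,
`bmq_bigSq`, `bmq_le_one`, `bmq_nonneg`), `Surface`.
PLAN. `QMD_fin` for `K = closure D`: there is a finite `S` with `per Γ (bmq R p) z = ∑ γ ∈ S, bmq R p (γ • z)` for `z ∈ closure D`, all
`R ≥ 1`, `p ∈ grid L R`. So the integral is at most `∑ γ ∈ S, B' * volume (D ∩ {z | bmq R p (γ • z) ≠ 0})`, `B' = exp B * max √dt` on the compact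
`closure D`. The set is contained in the image of `Q = {w | |R w.1 - p.1| ≤ 2, |R w.2 - p.2| ≤ 2}` under `w ↦ γ⁻¹ • w`, smooth and injective;
its volume is at most `∫ w in Q, |det (fderiv ..)| ≤ B'' * 16 / R^2` (`MeasureTheory.lintegral_abs_det_fderiv_eq_addHaar_image`
or `addHaar_image_le_lintegral_abs_det_fderiv`; `Q ⊆ Icc (-(L+2)) (L+2) ×ˢ ..` compact by `bmq_bigSq`-type estimates, the determinant is
continuous, bounded there by `B''`, uniformly over the finite set `S`); `volume Q = (4/R)^2` (a product of intervals). -/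

open MeasureTheory Set Filter Topology
open scoped ContDiff

namespace BE66

open BGS BR BE B35

variable {Γ : Type} [Group Γ] [MulAction Γ Pl] {D : Set Pl} {m : Pl → Co}

theorem P3_unf (hX : Surface Γ D) (hm : HM Γ m) (L : ℕ) {R : ℕ} (hR : 1 ≤ R) {p : ℤ × ℤ}
    (hp : p ∈ grid L R) : ∫ z in D, per Γ (BGM.bmq R p) z * √(dt (m z)) =
      ∫ z, BGM.bmq R p z * √(dt (m z)) := by
  set K : Set Pl := Icc (-((L : ℝ) + 2)) (L + 2) ×ˢ Icc (-((L : ℝ) + 2)) (L + 2) with hK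
  have hKc : IsCompact K := isCompact_Icc.prod isCompact_Icc
  have hfin := hX.proper (closure D ∪ K) (hX.bdd.isCompact_closure.union hKc)
  have hBs : ∀ β : Γ, ∀ z ∈ D, β • z ∈ K → β ∈ hfin.toFinset := by
    intro β z hz1 hz2
    rw [Finite.mem_toFinset]
    exact ⟨z, Or.inl (subset_closure hz1), Or.inr hz2⟩
  have hρ := AN8b_rho_cont hm
  have h1 := AN8c_cut hX hm (S := univ) MeasurableSet.univ hKc (F := BGM.bmq R p)
    (BGM.bmq_smooth R p).continuous (fun z _ hz => BGM.bmq_bigSq hR hp hz) (B := hfin.toFinset)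
    (fun β hβ z hz1 hz2 => hβ (hBs β z hz1 hz2))
  simp only [Measure.restrict_univ, indicator_univ] at h1
  rw [h1, ← integral_finsetSum]
  · apply setIntegral_congr_fun hX.meas
    intro z hz
    show per Γ (BGM.bmq R p) z * √(dt (m z)) =
      ∑ β ∈ hfin.toFinset, BGM.bmq R p (β • z) * √(dt (m z))
    rw [← Finset.sum_mul]
    congr 1
    unfold per
    apply finsum_eq_sum_of_support_subset
    intro γ hγ
    exact Finset.mem_coe.2 (hBs γ z hz (BGM.bmq_bigSq hR hp hγ))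
  · intro β _
    exact Cmp_int hX (((BGM.bmq_smooth R p).continuous.comp (hX.smooth β).continuous).mul hρ)

theorem P3_sq (hm : HM Γ m) (L : ℕ) : ∃ C : ℝ, 0 ≤ C ∧ ∀ R : ℕ, 1 ≤ R → ∀ p ∈ grid L R,
    ∫ z, BGM.bmq R p z * √(dt (m z)) ≤ C / (R : ℝ) ^ 2 := by
  have hρ := AN8b_rho_cont hm
  set K : Set Pl := Icc (-((L : ℝ) + 2)) (L + 2) ×ˢ Icc (-((L : ℝ) + 2)) (L + 2) with hK
  have hKc : IsCompact K := isCompact_Icc.prod isCompact_Icc
  obtain ⟨C0, hC0⟩ := hKc.exists_bound_of_continuousOn hρ.continuousOn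
  refine ⟨16 * max C0 0, by positivity, fun R hR p hp => ?_⟩
  have hR0 : (0 : ℝ) < R := by exact_mod_cast hR
  set Q : Set Pl := Icc (((p.1 : ℝ) - 2) / R) (((p.1 : ℝ) + 2) / R) ×ˢ
    Icc (((p.2 : ℝ) - 2) / R) (((p.2 : ℝ) + 2) / R) with hQ
  have hQz : ∀ z : Pl, z ∉ Q → BGM.bmq R p z * √(dt (m z)) = 0 := by
    intro z hz
    have h1 : BGM.bmq R p z = 0 := by
      by_contra hne
      have h := BGM.bmq_ball hne
      rw [abs_lt, abs_lt] at h
      refine hz ⟨⟨?_, ?_⟩, ⟨?_, ?_⟩⟩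
      · rw [div_le_iff₀ hR0]; linarith [h.1.1]
      · rw [le_div_iff₀ hR0]; linarith [h.1.2]
      · rw [div_le_iff₀ hR0]; linarith [h.2.1]
      · rw [le_div_iff₀ hR0]; linarith [h.2.2]
    rw [h1, zero_mul]
  rw [← setIntegral_eq_integral_of_forall_compl_eq_zero (s := Q) hQz]
  have hvol : volume Q = ENNReal.ofReal (4 / R) * ENNReal.ofReal (4 / R) := by
    rw [hQ, Measure.volume_eq_prod, Measure.prod_prod, Real.volume_Icc, Real.volume_Icc]
    congr 2 <;> ring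
  have hfinv : volume Q < ⊤ := by
    rw [hvol]
    exact ENNReal.mul_lt_top ENNReal.ofReal_lt_top ENNReal.ofReal_lt_top
  have h2 := norm_setIntegral_le_of_norm_le_const (C := max C0 0) hfinv
    (f := fun z => BGM.bmq R p z * √(dt (m z))) (fun z _ => by
      rw [norm_mul, Real.norm_of_nonneg (BGM.bmq_nonneg R p z)]
      by_cases hz : BGM.bmq R p z = 0
      · rw [hz, zero_mul]
        exact le_max_right _ _
      · calc BGM.bmq R p z * ‖√(dt (m z))‖ ≤ 1 * ‖√(dt (m z))‖ :=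
            mul_le_mul_of_nonneg_right (BGM.bmq_le_one R p z) (norm_nonneg _)
          _ = ‖√(dt (m z))‖ := one_mul _
          _ ≤ C0 := hC0 z (BGM.bmq_bigSq hR hp hz)
          _ ≤ max C0 0 := le_max_left _ _)
  refine (le_abs_self _).trans (h2.trans ?_)
  have h3 : volume.real Q = 16 / (R : ℝ) ^ 2 := by
    rw [measureReal_def, hvol, ENNReal.toReal_mul, ENNReal.toReal_ofReal (by positivity)]
    field_simp
    norm_num
  rw [h3]
  apply le_of_eq
  ring

theorem mean_bd (hX : Surface Γ D) (hm : HM Γ m) (L : ℕ) (B : ℝ) : ∃ C : ℝ, 0 ≤ C ∧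
    ∀ R : ℕ, 1 ≤ R → ∀ p ∈ grid L R, ∀ h : Pl → ℝ, Continuous h → (∀ z, |h z| ≤ B) →
      |∫ z in D, per Γ (BGM.bmq R p) z * (Real.exp (h z) * √(dt (m z)))| ≤ C / (R : ℝ) ^ 2 := by
  obtain ⟨C, hC, H⟩ := P3_sq hm L
  refine ⟨Real.exp B * C, by positivity, fun R hR p hp h hh hB => ?_⟩
  have hρ := AN8b_rho_cont hm
  have hper : Continuous (per Γ (BGM.bmq R p)) :=
    (PER_smooth hX (BGM.bmq_smooth R p) (BGM.bmq_compact hR p)).continuous
  have h0 : 0 ≤ ∫ z in D, per Γ (BGM.bmq R p) z * (Real.exp (h z) * √(dt (m z))) :=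
    integral_nonneg fun z => mul_nonneg (BGM.per_bmq_nonneg R p z)
      (mul_nonneg (Real.exp_pos _).le (Real.sqrt_nonneg _))
  rw [abs_of_nonneg h0]
  have h1 : ∫ z in D, per Γ (BGM.bmq R p) z * (Real.exp (h z) * √(dt (m z))) ≤
      ∫ z in D, Real.exp B * (per Γ (BGM.bmq R p) z * √(dt (m z))) := by
    refine integral_mono (Cmp_int hX (hper.mul ((Real.continuous_exp.comp hh).mul hρ)))
      (Cmp_int hX (continuous_const.mul (hper.mul hρ))) fun z => ?_
    show per Γ (BGM.bmq R p) z * (Real.exp (h z) * √(dt (m z))) ≤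
      Real.exp B * (per Γ (BGM.bmq R p) z * √(dt (m z)))
    have h2 : Real.exp (h z) ≤ Real.exp B := Real.exp_le_exp.2 (abs_le.1 (hB z)).2
    have h3 : 0 ≤ per Γ (BGM.bmq R p) z * √(dt (m z)) :=
      mul_nonneg (BGM.per_bmq_nonneg R p z) (Real.sqrt_nonneg _)
    calc per Γ (BGM.bmq R p) z * (Real.exp (h z) * √(dt (m z))) =
        Real.exp (h z) * (per Γ (BGM.bmq R p) z * √(dt (m z))) := by ring
      _ ≤ _ := mul_le_mul_of_nonneg_right h2 h3
  refine h1.trans ?_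
  rw [integral_const_mul, P3_unf hX hm L hR hp]
  calc Real.exp B * ∫ z, BGM.bmq R p z * √(dt (m z)) ≤ Real.exp B * (C / (R : ℝ) ^ 2) :=
        mul_le_mul_of_nonneg_left (H R hR p hp) (Real.exp_pos _).le
    _ = Real.exp B * C / (R : ℝ) ^ 2 := by ring

end BE66
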