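import Pool.Agent.LibBE66.P4
import Pool.Agent.LibBE66.P5
import Pool.Agent.LibB35.FA1
import Pool.Agent.LibB35.FA2
import Pool.Agent.LibB35.FA3
import Pool.Agent.LibB35.FA4
import Pool.Agent.LibB35.FA5

/-! ROW P6 : the blocks are an instance of the structure `DF`. SHORT. Cites P4, P5, LibB35/Fam (`CF_cell`, `CF_path`, `c_le`, `bk_le`).
PLAN. `k0` = the maximum of the two `k0` of `CF_cell`, `CF_path` and of one beyond which `C (bk k + 1)^2 P.c (bk k) ≤ 1` (`c_le`, `bk_le`: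
`≤ 9 C exp (2 k^(2/3) - k^(5/6)) → 0`). A family of class `CF` restricted to fewer indices, or reindexed (`fun q => s (f q)`), is of class `CF`
(`CF_pull` below: all fields are of the form `∀ i`). `0 < P.c n ≤ 1`: `hP.c`, `cn n = exp (-..) ≤ 1`. -/

open MeasureTheory Set Filter Topology
open scoped ContDiff unitInterval

namespace BE66

open BGS BR BE B35
open Pool.BGR (upI)

variable {Γ : Type} [Group Γ] [MulAction Γ Pl] {D : Set Pl} {P : Dt} {κ : ℝ}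

theorem CF_pull {ι ι' : Type} {m : Pl → Co} {a b : ℝ} {s : ι → ℝ × Pl → ℝ}
    (h : CF Γ D m a b s) (f : ι' → ι) : CF Γ D m a b (fun q => s (f q)) where
  hX := h.hX
  hO := h.hO
  hm := h.hm
  a_pos := h.a_pos
  smooth := fun i => h.smooth (f i)
  inv := fun i => h.inv (f i)
  bd := fun k => by
    obtain ⟨C, hC⟩ := h.bd k
    exact ⟨C, fun i => hC (f i)⟩
  neg := fun i => h.neg (f i)

theorem P6_small (hP : OkD Γ D P) (C : ℝ) : ∃ k0 : ℕ, ∀ k ≥ k0,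
    C * ((bk k : ℝ) + 1) ^ 2 * P.c (bk k) ≤ 1 := by
  obtain ⟨k1, h1⟩ := c_le hP
  have t1 : Tendsto (fun k : ℕ => (k : ℝ) ^ (1 / 6 : ℝ)) atTop atTop :=
    (tendsto_rpow_atTop (by norm_num : (0 : ℝ) < 1 / 6)).comp tendsto_natCast_atTop_atTop
  have t2 : Tendsto (fun k : ℕ => (k : ℝ) ^ (2 / 3 : ℝ)) atTop atTop :=
    (tendsto_rpow_atTop (by norm_num : (0 : ℝ) < 2 / 3)).comp tendsto_natCast_atTop_atTop
  have e1 := t1.eventually_ge_atTop 3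
  have e2 := t2.eventually_ge_atTop (Real.log (9 * |C| + 1))
  obtain ⟨k2, h2⟩ := eventually_atTop.1 (e1.and e2)
  refine ⟨max (max k1 k2) 1, fun k hk => ?_⟩
  have hk1 : k1 ≤ k := (le_max_left _ _).trans ((le_max_left _ _).trans hk)
  have hk2 : k2 ≤ k := (le_max_right _ _).trans ((le_max_left _ _).trans hk)
  have hk3 : 1 ≤ k := (le_max_right _ _).trans hk
  have hk0 : (0 : ℝ) < k := by exact_mod_cast hk3
  obtain ⟨a1, a2⟩ := h2 k hk2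
  have b1 := (h1 k hk1).1
  have b2 := (bk_le k).2
  have b0 : (0 : ℝ) ≤ (bk k : ℝ) + 1 := by positivity
  have hc0 : 0 ≤ P.c (bk k) := by
    have := (h1 k hk1).2
    exact (Real.exp_pos _).le.trans this
  have e3 : (k : ℝ) ^ (5 / 6 : ℝ) = (k : ℝ) ^ (2 / 3 : ℝ) * (k : ℝ) ^ (1 / 6 : ℝ) := by
    rw [← Real.rpow_add hk0]
    norm_num
  have e4 : 2 * (k : ℝ) ^ (2 / 3 : ℝ) + Real.log (9 * |C| + 1) ≤ (k : ℝ) ^ (5 / 6 : ℝ) := by
    rw [e3]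
    have h5 : 0 ≤ (k : ℝ) ^ (2 / 3 : ℝ) := Real.rpow_nonneg hk0.le _
    nlinarith
  have e5 : ((bk k : ℝ) + 1) ^ 2 ≤ 9 * Real.exp (2 * (k : ℝ) ^ (2 / 3 : ℝ)) := by
    have h6 := pow_le_pow_left₀ b0 b2 2
    refine h6.trans (le_of_eq ?_)
    rw [mul_pow, ← Real.exp_nat_mul]
    push_cast
    norm_num
  have hA : (0 : ℝ) < 9 * |C| + 1 := by positivity
  calc C * ((bk k : ℝ) + 1) ^ 2 * P.c (bk k)
      ≤ |C| * ((bk k : ℝ) + 1) ^ 2 * P.c (bk k) := by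
        refine mul_le_mul_of_nonneg_right ?_ hc0
        exact mul_le_mul_of_nonneg_right (le_abs_self C) (sq_nonneg _)
    _ ≤ |C| * (9 * Real.exp (2 * (k : ℝ) ^ (2 / 3 : ℝ))) *
          Real.exp (-(k : ℝ) ^ (5 / 6 : ℝ)) := by
        refine mul_le_mul ?_ b1 hc0 (by positivity)
        exact mul_le_mul_of_nonneg_left e5 (abs_nonneg _)
    _ = (9 * |C|) * Real.exp (2 * (k : ℝ) ^ (2 / 3 : ℝ) - (k : ℝ) ^ (5 / 6 : ℝ)) := by
        rw [sub_eq_add_neg, Real.exp_add]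
        ring
    _ ≤ (9 * |C| + 1) * Real.exp (-Real.log (9 * |C| + 1)) := by
        refine mul_le_mul (by linarith) (Real.exp_le_exp.2 (by linarith)) (Real.exp_pos _).le hA.le
    _ = 1 := by
        rw [Real.exp_neg, Real.exp_log hA]
        exact mul_inv_cancel₀ hA.ne'

theorem P6_c1 (hP : OkD Γ D P) (n : ℕ) : 0 < P.c n ∧ P.c n ≤ 1 := by
  refine ⟨P4_cpos hP n, ?_⟩
  obtain ⟨s, hs, hs1, h⟩ := hP.c
  rw [h n]
  have h1 : cn n ≤ 1 := by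
    unfold cn
    refine Real.exp_le_one_iff.2 (neg_nonpos.2 (Real.rpow_nonneg (Real.log_nonneg ?_) _))
    have : (0 : ℝ) ≤ n := Nat.cast_nonneg n
    linarith
  exact mul_le_one₀ hs1 (Real.exp_pos _).le h1

theorem block_DF (hP : OkD Γ D P) (hκ : 0 < κ) : ∃ (k0 : ℕ) (b b0 : ℝ) (C : ℕ),
    DF Γ D P.m (κ / 2) b b0 P.L (fun q : P.Bc Γ D κ k0 => P.sC Γ D q.1)
      (fun q => P.sP Γ D q.1.1) (fun q => bk q.1.1.1) (fun q => q.1.2)
      (fun q => P.c (bk q.1.1.1)) (fun q => C * ((bk q.1.1.1 : ℝ) + 1) ^ 2 * P.c (bk q.1.1.1)) := by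
  obtain ⟨k1, b, h1⟩ := CF_cell hP hκ
  obtain ⟨k2, b0, h2⟩ := CF_path hP hκ
  obtain ⟨C, hC0, hC⟩ := near_bd hP
  obtain ⟨C', hC0', hC'⟩ := der_bd hP
  obtain ⟨k3, h3⟩ := P6_small hP (⌈C⌉₊ : ℝ)
  refine ⟨max (max k1 k2) k3, b, b0, ⌈C⌉₊, ?_⟩
  have g1 : ∀ q : P.Bc Γ D κ (max (max k1 k2) k3), k1 ≤ q.1.1.1 := fun q =>
    (le_max_left _ _).trans ((le_max_left _ _).trans q.2.1)
  have g2 : ∀ q : P.Bc Γ D κ (max (max k1 k2) k3), k2 ≤ q.1.1.1 := fun q =>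
    (le_max_right _ _).trans ((le_max_left _ _).trans q.2.1)
  have g3 : ∀ q : P.Bc Γ D κ (max (max k1 k2) k3), k3 ≤ q.1.1.1 := fun q =>
    (le_max_right _ _).trans q.2.1
  refine ⟨?_, ?_, ?_, ?_, ?_, ?_, ?_⟩
  · exact CF_pull h1 (fun q : P.Bc Γ D κ (max (max k1 k2) k3) =>
      (⟨q.1, g1 q, q.2.2⟩ : P.Bc Γ D κ k1))
  · exact CF_pull h2 (fun q : P.Bc Γ D κ (max (max k1 k2) k3) =>
      (⟨q.1.1, g2 q, q.2.2.1⟩ : P.Bi Γ D κ k2))
  · intro q t ht z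
    refine (hC q.1 q.2.2.2 t ht z).trans ?_
    refine mul_le_mul_of_nonneg_right ?_ (P6_c1 hP _).1.le
    exact mul_le_mul_of_nonneg_right (Nat.le_ceil C) (sq_nonneg _)
  · intro q
    refine ⟨?_, h3 _ (g3 q)⟩
    exact mul_nonneg (mul_nonneg (Nat.cast_nonneg _) (sq_nonneg _)) (P6_c1 hP _).1.le
  · exact fun q => P6_c1 hP _
  · exact fun q => q.2.2.2
  · exact ⟨C', fun q t ht => hC' q.1 q.2.2.2 t ht⟩

end BE66
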