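import Mathlib

/-! ROW P7 : the sizes of the numbers of a block. MEDIUM, ONLY MATHLIB.
PLAN. `x = (k : ℝ)`. For every real `B` and every `ε > 0`: `B (x^(2/3) + x^(3/4)/.. + log x + 1) ≤ ε x^(5/6)` etc. for large `x`
(`isLittleO_rpow_rpow`, `isLittleO_log_rpow_atTop`, `tendsto_rpow_neg_atTop`). With `r ≤ 3 exp (x^(2/3))`, `c ≤ exp (-x^(5/6))`:
`√(C1 r^2 c) ≤ √C1 * 3 exp (x^(2/3) - x^(5/6)/2)`, times `C (1 + K x)^2 * 27 exp (3 x^(2/3))` tends to 0; `δ = exp (-x^(3/4))` also, since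
`3/4 > 2/3`. `√r ≥ exp (x^(2/3)/2)`. Last: with `X = C (1+Kx)^C r^6/c^4 ≤ C (1+Kx)^C 3^6 exp (6 x^(2/3) + 8 x^(5/6))`:
`C (1+Kx)^C (2^k M0)^q (X/2^k)^(A+q+1) = M0^q [C (1+Kx)^C X^(A+q+1)] 2^(-k) 2^(-kA)` and the bracket is `≤ 2^k` for large `k`
(`2^k = exp (x log 2)`, `5/6 < 1`). `C' = M0^q`. -/

open Filter Topology

namespace BE66

theorem P7_lim (A K α : ℝ) (n : ℕ) {β s t : ℝ} (hst : s < t) (ht : 0 < t) (hβ : 0 < β) :
    Tendsto (fun x : ℝ => A * (1 + K * x) ^ n * Real.exp (α * x ^ s - β * x ^ t)) atTop (𝓝 0) := by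
  have h1 : Tendsto (fun x : ℝ => x ^ t * (n * (Real.log x / x ^ t) + α * x ^ (-(t - s)) - β))
      atTop atBot := by
    refine Tendsto.atTop_mul_neg (C := n * 0 + α * 0 - β) (by linarith) (tendsto_rpow_atTop ht) ?_
    refine ((tendsto_const_nhds.mul ?_).add (tendsto_const_nhds.mul ?_)).sub tendsto_const_nhds
    · exact (isLittleO_log_rpow_atTop ht).tendsto_div_nhds_zero
    · exact tendsto_rpow_neg_atTop (by linarith)
  have h2 := Real.tendsto_exp_atBot.comp h1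
  have h3 : Tendsto (fun x : ℝ => A * (x⁻¹ + K) ^ n) atTop (𝓝 (A * (0 + K) ^ n)) :=
    tendsto_const_nhds.mul ((tendsto_inv_atTop_zero.add tendsto_const_nhds).pow n)
  have h4 := h3.mul h2
  rw [mul_zero] at h4
  refine h4.congr' ?_
  filter_upwards [eventually_gt_atTop (0 : ℝ)] with x hx
  have hxt : x ^ t ≠ 0 := (Real.rpow_pos_of_pos hx t).ne'
  have e1 : x ^ t * (n * (Real.log x / x ^ t) + α * x ^ (-(t - s)) - β) =
      n * Real.log x + (α * x ^ s - β * x ^ t) := by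
    have e2 : x ^ t * x ^ (-(t - s)) = x ^ s := by
      rw [← Real.rpow_add hx]
      congr 1
      ring
    have e3 : x ^ t * (n * (Real.log x / x ^ t)) = n * Real.log x := by
      field_simp
    calc x ^ t * (n * (Real.log x / x ^ t) + α * x ^ (-(t - s)) - β)
        = x ^ t * (n * (Real.log x / x ^ t)) + α * (x ^ t * x ^ (-(t - s))) - β * x ^ t := by ring
      _ = _ := by rw [e2, e3]; ring
  have e4 : A * (x⁻¹ + K) ^ n * x ^ n = A * (1 + K * x) ^ n := by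
    rw [mul_assoc, ← mul_pow]
    congr 2
    field_simp
  show A * (x⁻¹ + K) ^ n * Real.exp (x ^ t * (n * (Real.log x / x ^ t) + α * x ^ (-(t - s)) - β)) =
    A * (1 + K * x) ^ n * Real.exp (α * x ^ s - β * x ^ t)
  rw [e1, Real.exp_add, mul_comm (n : ℝ) (Real.log x), Real.exp_mul, Real.exp_log hx,
    Real.rpow_natCast, ← mul_assoc, e4]

theorem P7_ev (A K α : ℝ) (n : ℕ) {β s t η : ℝ} (hst : s < t) (ht : 0 < t) (hβ : 0 < β)
    (hη : 0 < η) : ∀ᶠ k : ℕ in atTop,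
      A * (1 + K * (k : ℝ)) ^ n * Real.exp (α * (k : ℝ) ^ s - β * (k : ℝ) ^ t) ≤ η :=
  ((P7_lim A K α n hst ht hβ).comp tendsto_natCast_atTop_atTop).eventually_le_const hη

theorem sizes (C C1 A q : ℕ) {K M0 u : ℝ} (hK : 0 ≤ K) (hM : 0 ≤ M0) (hu : 0 < u) :
    ∃ (C' : ℝ) (k0 : ℕ), ∀ k ≥ k0, ∀ r c δ : ℝ, Real.exp ((k : ℝ) ^ (2 / 3 : ℝ)) ≤ r →
      r ≤ 3 * Real.exp ((k : ℝ) ^ (2 / 3 : ℝ)) → Real.exp (-2 * (k : ℝ) ^ (5 / 6 : ℝ)) ≤ c →
      c ≤ Real.exp (-(k : ℝ) ^ (5 / 6 : ℝ)) → δ = Real.exp (-(k : ℝ) ^ (3 / 4 : ℝ)) →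
      1 ≤ u * 2 ^ k ∧ C * (1 + K * k) ^ 2 * r ^ 3 * (√(C1 * r ^ 2 * c) + δ) ≤ 1 ∧
        C * (1 + K * k) ^ 2 ≤ √r ∧
        C * (1 + K * k) ^ C * (2 ^ k * M0) ^ q *
          (C * (1 + K * k) ^ C * r ^ 6 / c ^ 4 / 2 ^ k) ^ (A + q + 1) ≤ C' / (2 ^ k) ^ A := by
  have f1 : ∀ᶠ k : ℕ in atTop, 1 ≤ u * (2 : ℝ) ^ k := by
    have h1 : Tendsto (fun k : ℕ => u * (2 : ℝ) ^ k) atTop atTop :=
      (tendsto_pow_atTop_atTop_of_one_lt one_lt_two).const_mul_atTop hu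
    exact h1.eventually_ge_atTop 1
  have f2 := P7_ev (C * 27 * (√C1 * 3)) K 4 2 (β := 1 / 2) (s := 2 / 3) (t := 5 / 6) (η := 1 / 2)
    (by norm_num) (by norm_num) (by norm_num) (by norm_num)
  have f3 := P7_ev (C * 27) K 3 2 (β := 1) (s := 2 / 3) (t := 3 / 4) (η := 1 / 2)
    (by norm_num) (by norm_num) (by norm_num) (by norm_num)
  have f4 := P7_ev C K 0 2 (β := 1 / 2) (s := 0) (t := 2 / 3) (η := 1)
    (by norm_num) (by norm_num) (by norm_num) (by norm_num)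
  have f5 := P7_ev ((C : ℝ) ^ (A + q + 2) * 729 ^ (A + q + 1)) K (14 * ((A + q + 1 : ℕ) : ℝ))
    (C * (A + q + 2)) (β := Real.log 2) (s := 5 / 6) (t := 1) (η := 1)
    (by norm_num) (by norm_num) (Real.log_pos one_lt_two) (by norm_num)
  obtain ⟨k0, hk0⟩ := eventually_atTop.1 (f1.and (f2.and (f3.and (f4.and
    (f5.and (eventually_ge_atTop 1))))))
  refine ⟨M0 ^ q, k0, fun k hk r c δ hr1 hr2 hc1 hc2 hδ => ?_⟩
  obtain ⟨g1, g2, g3, g4, g5, g6⟩ := hk0 k hk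
  have hx1 : (1 : ℝ) ≤ k := by exact_mod_cast g6
  have hx0 : (0 : ℝ) < k := by linarith
  set x : ℝ := (k : ℝ) with hx
  have hr : 0 < r := (Real.exp_pos _).trans_le hr1
  have hc : 0 < c := (Real.exp_pos _).trans_le hc1
  have hKx : 0 ≤ 1 + K * x := by positivity
  refine ⟨g1, ?_, ?_, ?_⟩
  · have h1 : √(C1 * r ^ 2 * c) ≤ √C1 * (3 * Real.exp (x ^ (2 / 3 : ℝ))) *
        Real.exp (-(1 / 2 * x ^ (5 / 6 : ℝ))) := by
      rw [Real.sqrt_mul (by positivity), Real.sqrt_mul (by positivity), Real.sqrt_sq hr.le]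
      refine mul_le_mul (mul_le_mul_of_nonneg_left hr2 (Real.sqrt_nonneg _)) ?_
        (Real.sqrt_nonneg _) (by positivity)
      rw [Real.sqrt_le_left (Real.exp_pos _).le, ← Real.exp_nat_mul]
      refine hc2.trans (le_of_eq ?_)
      congr 1
      push_cast
      ring
    have h2 : r ^ 3 ≤ 27 * Real.exp (3 * x ^ (2 / 3 : ℝ)) := by
      refine (pow_le_pow_left₀ hr.le hr2 3).trans (le_of_eq ?_)
      rw [mul_pow, ← Real.exp_nat_mul]
      norm_num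
    have h3 : C * (1 + K * x) ^ 2 * r ^ 3 ≤
        C * (1 + K * x) ^ 2 * (27 * Real.exp (3 * x ^ (2 / 3 : ℝ))) :=
      mul_le_mul_of_nonneg_left h2 (by positivity)
    have h4 : √(C1 * r ^ 2 * c) + δ ≤ √C1 * (3 * Real.exp (x ^ (2 / 3 : ℝ))) *
        Real.exp (-(1 / 2 * x ^ (5 / 6 : ℝ))) + Real.exp (-x ^ (3 / 4 : ℝ)) := by
      rw [hδ]
      linarith
    have h5 : 0 ≤ √(C1 * r ^ 2 * c) + δ := by
      rw [hδ]
      positivity
    refine (mul_le_mul h3 h4 h5 (by positivity)).trans ?_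
    have e1 : (C * (1 + K * x) ^ 2 * (27 * Real.exp (3 * x ^ (2 / 3 : ℝ)))) *
        (√C1 * (3 * Real.exp (x ^ (2 / 3 : ℝ))) * Real.exp (-(1 / 2 * x ^ (5 / 6 : ℝ))) +
          Real.exp (-x ^ (3 / 4 : ℝ))) =
        C * 27 * (√C1 * 3) * (1 + K * x) ^ 2 *
          Real.exp (4 * x ^ (2 / 3 : ℝ) - 1 / 2 * x ^ (5 / 6 : ℝ)) +
        C * 27 * (1 + K * x) ^ 2 * Real.exp (3 * x ^ (2 / 3 : ℝ) - 1 * x ^ (3 / 4 : ℝ)) := by
      have e2 : Real.exp (4 * x ^ (2 / 3 : ℝ) - 1 / 2 * x ^ (5 / 6 : ℝ)) =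
          Real.exp (3 * x ^ (2 / 3 : ℝ)) * Real.exp (x ^ (2 / 3 : ℝ)) *
            Real.exp (-(1 / 2 * x ^ (5 / 6 : ℝ))) := by
        rw [← Real.exp_add, ← Real.exp_add]
        congr 1
        ring
      have e3 : Real.exp (3 * x ^ (2 / 3 : ℝ) - 1 * x ^ (3 / 4 : ℝ)) =
          Real.exp (3 * x ^ (2 / 3 : ℝ)) * Real.exp (-x ^ (3 / 4 : ℝ)) := by
        rw [← Real.exp_add]
        congr 1
        ring
      rw [e2, e3]
      ring
    rw [e1]
    linarith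
  · have h1 : Real.exp (1 / 2 * x ^ (2 / 3 : ℝ)) ≤ √r := by
      rw [Real.le_sqrt' (Real.exp_pos _), ← Real.exp_nat_mul]
      refine le_trans (le_of_eq ?_) hr1
      congr 1
      push_cast
      ring
    refine le_trans ?_ h1
    have e1 : Real.exp (0 * x ^ (0 : ℝ) - 1 / 2 * x ^ (2 / 3 : ℝ)) =
        (Real.exp (1 / 2 * x ^ (2 / 3 : ℝ)))⁻¹ := by
      rw [← Real.exp_neg]
      congr 1
      ring
    rw [e1, ← div_eq_mul_inv, div_le_one (Real.exp_pos _)] at g4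
    exact g4
  · have h2k : (0 : ℝ) < 2 ^ k := by positivity
    have e1 : (2 : ℝ) ^ k = Real.exp (Real.log 2 * x ^ (1 : ℝ)) := by
      rw [Real.rpow_one, Real.exp_mul, Real.exp_log two_pos, hx, Real.rpow_natCast]
    have h1 : r ^ 6 / c ^ 4 ≤ 729 * Real.exp (14 * x ^ (5 / 6 : ℝ)) := by
      rw [div_le_iff₀ (by positivity)]
      have h3 : r ^ 6 ≤ 729 * Real.exp (6 * x ^ (5 / 6 : ℝ)) := by
        have h4 : x ^ (2 / 3 : ℝ) ≤ x ^ (5 / 6 : ℝ) :=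
          Real.rpow_le_rpow_of_exponent_le hx1 (by norm_num)
        calc r ^ 6 ≤ (3 * Real.exp (x ^ (5 / 6 : ℝ))) ^ 6 :=
              pow_le_pow_left₀ hr.le (hr2.trans (mul_le_mul_of_nonneg_left
                (Real.exp_le_exp.2 h4) (by norm_num))) 6
          _ = 729 * Real.exp (6 * x ^ (5 / 6 : ℝ)) := by
              rw [mul_pow, ← Real.exp_nat_mul]
              norm_num
      have h5 : Real.exp (-(8 * x ^ (5 / 6 : ℝ))) ≤ c ^ 4 := by
        refine le_trans (le_of_eq ?_) (pow_le_pow_left₀ (Real.exp_pos _).le hc1 4)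
        rw [← Real.exp_nat_mul]
        congr 1
        push_cast
        ring
      calc r ^ 6 ≤ 729 * Real.exp (6 * x ^ (5 / 6 : ℝ)) := h3
        _ = 729 * Real.exp (14 * x ^ (5 / 6 : ℝ)) * Real.exp (-(8 * x ^ (5 / 6 : ℝ))) := by
            rw [mul_assoc, ← Real.exp_add]
            congr 2
            ring
        _ ≤ _ := mul_le_mul_of_nonneg_left h5 (by positivity)
    set P : ℝ := C * (1 + K * x) ^ C with hP
    have hP0 : 0 ≤ P := by positivity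
    have h6 : P * r ^ 6 / c ^ 4 ≤ P * (729 * Real.exp (14 * x ^ (5 / 6 : ℝ))) := by
      rw [mul_div_assoc]
      exact mul_le_mul_of_nonneg_left h1 hP0
    have h7 : (P * r ^ 6 / c ^ 4 / 2 ^ k) ^ (A + q + 1) ≤
        (P * (729 * Real.exp (14 * x ^ (5 / 6 : ℝ))) / 2 ^ k) ^ (A + q + 1) :=
      pow_le_pow_left₀ (by positivity) (div_le_div_of_nonneg_right h6 h2k.le) _
    have h8 : P * (P * (729 * Real.exp (14 * x ^ (5 / 6 : ℝ)))) ^ (A + q + 1) ≤ 2 ^ k := by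
      have e2 : P * (P * (729 * Real.exp (14 * x ^ (5 / 6 : ℝ)))) ^ (A + q + 1) =
          (C : ℝ) ^ (A + q + 2) * 729 ^ (A + q + 1) * (1 + K * x) ^ (C * (A + q + 2)) *
            Real.exp (14 * ((A + q + 1 : ℕ) : ℝ) * x ^ (5 / 6 : ℝ)) := by
        have e3 : Real.exp (14 * ((A + q + 1 : ℕ) : ℝ) * x ^ (5 / 6 : ℝ)) =
            Real.exp (14 * x ^ (5 / 6 : ℝ)) ^ (A + q + 1) := by
          rw [← Real.exp_nat_mul]
          congr 1
          ring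
        rw [e3, hP, mul_pow, mul_pow, mul_pow, pow_mul (1 + K * x)]
        ring
      rw [e2, e1]
      have h9 : Real.exp (14 * ((A + q + 1 : ℕ) : ℝ) * x ^ (5 / 6 : ℝ)) =
          Real.exp (14 * ((A + q + 1 : ℕ) : ℝ) * x ^ (5 / 6 : ℝ) - Real.log 2 * x ^ (1 : ℝ)) *
            Real.exp (Real.log 2 * x ^ (1 : ℝ)) := by
        rw [← Real.exp_add]
        congr 1
        ring
      rw [h9, ← mul_assoc]
      exact (mul_le_mul_of_nonneg_right g5 (Real.exp_pos _).le).trans (one_mul _).le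
    calc P * (2 ^ k * M0) ^ q * (P * r ^ 6 / c ^ 4 / 2 ^ k) ^ (A + q + 1)
        ≤ P * (2 ^ k * M0) ^ q *
          (P * (729 * Real.exp (14 * x ^ (5 / 6 : ℝ))) / 2 ^ k) ^ (A + q + 1) :=
          mul_le_mul_of_nonneg_left h7 (by positivity)
      _ = M0 ^ q / (2 ^ k) ^ A *
          (P * (P * (729 * Real.exp (14 * x ^ (5 / 6 : ℝ)))) ^ (A + q + 1) / 2 ^ k) := by
          rw [div_pow, mul_pow, pow_succ ((2 : ℝ) ^ k), pow_add ((2 : ℝ) ^ k)]
          field_simp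
      _ ≤ M0 ^ q / (2 ^ k) ^ A * 1 := by
          refine mul_le_mul_of_nonneg_left ?_ (by positivity)
          rw [div_le_one h2k]
          exact h8
      _ = _ := mul_one _

end BE66
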