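import Pool.Agent.LibBE66.M1
import Pool.Agent.LibBE66.P1
import Pool.Agent.LibBE66.P2
import Pool.Agent.LibBE66.P6
import Pool.Agent.LibBE66.P7

/-! ROW P8 : part D for the blocks: `decor` of LibB35/IF.lean. MEDIUM. Cites M1, P1, P2, P6, P7, LibB35/Fam.
PLAN. `block_DF` gives `k1, b, b0, C1`. `Λ1 = max v 1`, `M = A + card J + 1`, `C` from `D_main` (with `ρd = ρ`, `hν.smooth`, `hν.supp`), `ρ0`, `M0`
from `sc_amp` (`n = M + 1`), `K' = max (ρ0 * |K|) (|K| + 1)`; `sizes` with `C, C1, A, card J, K', M0, u`; `k0` = maximum of all and `1`. For `k ≥ k0` the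
index `i = ⟨((k, ξ, η), c), ..⟩ : P.Bc Γ D κ k1`. `hν.int` turns the integral over `t : I` into `∫ t in 0..1, (ρ t : ℂ) * f t` with
`f t = ∏ j, cj (e j) (ZL (mm P.m (P.sP ..) 0) (mm P.m (P.sC ..) t) (dl k) N (sc a L) (τ j) (gel (q j)) .. (lp ..))`, continuous by `D_cont`
(`cell_val`, `path_zero` identify the metrics, definition of `zl`). `D_main`: `T = 2^k`, `ρ = K' k`, `l j = ln .. (q j) ≤ K k ≤ ρ`, `l0 j = lp ..`
(`q_axis`), the lower bound by `pint_vis`. The base metric is `HM` (`hm_mm` for the CF family at the parameter `0`). `AmpN` is monotone in `n`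
(for `D_cont`). -/

open MeasureTheory Set Filter Topology
open scoped ContDiff unitInterval

namespace BE66

open BGS BR BE B35
open Pool.BGR (upI)

variable {Γ : Type} [Group Γ] [MulAction Γ Pl] {D : Set Pl} {P : Dt} {κ : ℝ} {ν : Measure I}
  {ρ : ℝ → ℝ}

theorem decor (hP : OkD Γ D P) (hν : Den ν ρ) (hκ : 0 < κ) {a : ℝ → ℂ} (ha : FG33.IsAmp a)
    {J : Type} [Fintype J] {u v : ℝ} (hu : 0 < u) (huv : u < v) (K : ℝ) (N A : ℕ) :
    ∃ (C : ℝ) (k0 : ℕ), ∀ k ≥ k0, ∀ ξ ∈ P.B Γ D κ k, ∀ η : Dir → I, ∀ L : ℝ, 1 ≤ L → L ≤ K * k →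
      ∀ (q : J → Cg Γ) (e : J → Bool) (τ : J → ℝ), (∀ j, ln (P.X0 Γ D k ξ) (q j) ≤ K * k) →
      (∀ j, u * 2 ^ k ≤ τ j ∧ τ j ≤ v * 2 ^ k) → ∀ c ∈ grid P.L (bk k + 1),
      ((bk k : ℝ) + 1) ^ (-(3 / 2) : ℝ) ≤ |∑ j, sgn (e j) * (τ j / 2 ^ k) * ((q j).2.1 + 1) *
        vis (P.X0 Γ D k ξ) (bk k + 1) c (q j).1| →
      ‖∫ t : I, ∏ j, cj (e j) (zl (P.X0 Γ D k ξ)
        (P.X Γ D (upI (mix (bk k) ξ η) (bk k, c) t)) (dl k) N (GWin.sc a L) (τ j) (q j)) ∂ν‖ ≤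
        C / (2 ^ k) ^ A := by
  obtain ⟨k1, b, b0, C1, hDF⟩ := block_DF (κ := κ) hP hκ
  obtain ⟨C, hC1, hC⟩ := D_main hDF J hν.smooth hν.supp N (A + Fintype.card J + 1)
    (Λ1 := max v 1) (le_max_right _ _)
  obtain ⟨ρ0, hρ0, hamp⟩ := sc_amp ha
  obtain ⟨M0, hM0, hM⟩ := hamp (A + Fintype.card J + 1 + 1)
  obtain ⟨K', hK'⟩ : ∃ K' : ℝ, K' = max (ρ0 * |K|) (|K| + 1) := ⟨_, rfl⟩
  have hK'a : ρ0 * |K| ≤ K' := by rw [hK']; exact le_max_left _ _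
  have hK'b : |K| + 1 ≤ K' := by rw [hK']; exact le_max_right _ _
  have hK'1 : 1 ≤ K' := by have := abs_nonneg K; linarith
  obtain ⟨C', k2, hs⟩ := sizes C C1 A (Fintype.card J) (K := K') (M0 := M0) (u := u)
    (by linarith) hM0 hu
  obtain ⟨k3, hc⟩ := c_le hP
  refine ⟨C', max (max k1 k2) (max k3 1), fun k hk ξ hξ η L hL hLK q e τ hln hτ c hc' hdet => ?_⟩
  have hk1 : k1 ≤ k := (le_max_left _ _).trans ((le_max_left _ _).trans hk)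
  have hk2 : k2 ≤ k := (le_max_right _ _).trans ((le_max_left _ _).trans hk)
  have hk3 : k3 ≤ k := (le_max_left _ _).trans ((le_max_right _ _).trans hk)
  have hk4 : 1 ≤ k := (le_max_right _ _).trans ((le_max_right _ _).trans hk)
  have hk5 : (1 : ℝ) ≤ (k : ℝ) := by exact_mod_cast hk4
  have hk6 : (0 : ℝ) ≤ (k : ℝ) := by linarith
  obtain ⟨hb1, hb2⟩ := bk_le k
  obtain ⟨hc1, hc2⟩ := hc k hk3
  obtain ⟨hu1, hs1, hs2, hs3⟩ := hs k hk2 ((bk k : ℝ) + 1) (P.c (bk k)) (dl k) (by linarith) hb2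
    hc2 hc1 rfl
  -- the index
  obtain ⟨i, hi⟩ : ∃ i : P.Bc Γ D κ k1, i.1 = ((k, ξ, η), c) := ⟨⟨((k, ξ, η), c), hk1, hξ, hc'⟩, rfl⟩
  -- the metrics
  have hneg : ∀ z, curv (P.X Γ D (zer (bk k) ξ)) z < 0 := by
    intro z
    have h1 : curv (P.X Γ D (zer (bk k) ξ)) z ≤ -κ ^ 2 := hξ z
    have h2 : 0 < κ ^ 2 := by positivity
    linarith
  have hHM : HM Γ (P.X0 Γ D k ξ) := (X_hm hP hneg).1
  have hX := hDF.cf.hX
  have hO := hP.ori
  have hm0 : mm P.m (P.sP Γ D i.1.1) 0 = P.X0 Γ D k ξ := by rw [hi]; exact path_zero hP (k, ξ, η)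
  have hm1 : ∀ t : I, mm P.m (P.sC Γ D i.1) t =
      P.X Γ D (upI (mix (bk k) ξ η) (bk k, c) t) := by
    intro t
    rw [hi]
    exact cell_val hP ((k, ξ, η), c) hc' t
  have hax : ∀ j, Axis (P.X0 Γ D k ξ) (gel (q j)) (ax (P.X0 Γ D k ξ) (gpr (q j))).1
      (ax (P.X0 Γ D k ξ) (gpr (q j))).2 (ln (P.X0 Γ D k ξ) (q j)) ∧ 0 < lp (P.X0 Γ D k ξ) (q j).1 ∧
      lp (P.X0 Γ D k ξ) (q j).1 ≤ ln (P.X0 Γ D k ξ) (q j) := fun j => q_axis hX hO hHM (q j)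
  have hδ : 0 < dl k := Real.exp_pos _
  have hδ1 : dl k ≤ 1 := by
    unfold dl
    rw [Real.exp_le_one_iff]
    have : 0 ≤ (k : ℝ) ^ (3 / 4 : ℝ) := Real.rpow_nonneg hk6 _
    linarith
  have h2k : (1 : ℝ) ≤ 2 ^ k := one_le_pow₀ (by norm_num)
  have h2k0 : (0 : ℝ) < 2 ^ k := by positivity
  have hρ1 : 1 ≤ K' * k := by nlinarith
  have hKk : K * k ≤ K' * k := by
    apply mul_le_mul_of_nonneg_right _ hk6
    have := le_abs_self K
    linarith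
  have hamp' : BE73.AmpN (A + Fintype.card J + 1 + 1) (GWin.sc a L) (K' * k) M0 := by
    apply hM L (K' * k) hL
    have h1 : L ≤ |K| * k := hLK.trans (mul_le_mul_of_nonneg_right (le_abs_self K) hk6)
    calc ρ0 * L ≤ ρ0 * (|K| * k) := mul_le_mul_of_nonneg_left h1 (by linarith)
      _ = ρ0 * |K| * k := by ring
      _ ≤ K' * k := mul_le_mul_of_nonneg_right hK'a hk6
  have hτ1 : ∀ j, 1 ≤ τ j := fun j => hu1.trans (hτ j).1
  have hax' : ∀ j, Axis (mm P.m (P.sP Γ D i.1.1) 0) (gel (q j)) (ax (P.X0 Γ D k ξ) (gpr (q j))).1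
      (ax (P.X0 Γ D k ξ) (gpr (q j))).2 (ln (P.X0 Γ D k ξ) (q j)) := by
    intro j
    rw [hm0]
    exact (hax j).1
  have hcont := D_cont hDF i (N := N) hδ (show 0 ≤ K' * (k : ℝ) by linarith) (β := fun _ : J => GWin.sc a L)
    (τ := τ) e (fun j => lp (P.X0 Γ D k ξ) (q j).1)
    (fun j => ⟨hamp'.amp, fun n hn t => hamp'.bound n (by omega) t⟩) hτ1 hax'
  have hint := hν.int _ hcont
  have hmain := hC i (2 ^ k) (K' * k) (dl k) M0 h2k hρ1 hδ hδ1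
    (by rw [hi]; exact hs1) (by rw [hi]; exact hs2) (fun _ => GWin.sc a L) τ e (fun j => gel (q j))
    (fun j => (ax (P.X0 Γ D k ξ) (gpr (q j))).1) (fun j => (ax (P.X0 Γ D k ξ) (gpr (q j))).2)
    (fun j => ln (P.X0 Γ D k ξ) (q j)) (fun j => lp (P.X0 Γ D k ξ) (q j).1)
    (fun _ => hamp') (fun j => ⟨hτ1 j, (hτ j).2.trans (mul_le_mul_of_nonneg_right (le_max_left _ _) h2k0.le)⟩)
    hax' (fun j => (hln j).trans hKk)
    (fun j => ⟨(hax j).2.1.le, (hax j).2.2.trans ((hln j).trans hKk)⟩) (by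
      rw [hm0, hi]
      refine hdet.trans (le_of_eq ?_)
      congr 1
      apply Finset.sum_congr rfl
      intro j _
      have h1 := pint_vis hX hO hHM (R := bk k + 1) (by omega) c (q j)
      show _ = sgn (e j) * (τ j / 2 ^ k) * pint Γ (P.X0 Γ D k ξ) (bk k + 1) c _ _ _
      rw [h1]
      ring)
  have hL1 : ∫ t : I, ∏ j, cj (e j) (zl (P.X0 Γ D k ξ)
        (P.X Γ D (upI (mix (bk k) ξ η) (bk k, c) t)) (dl k) N (GWin.sc a L) (τ j) (q j)) ∂ν =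
      ∫ t : I, ∏ j, cj (e j) (ZL (mm P.m (P.sP Γ D i.1.1) 0) (mm P.m (P.sC Γ D i.1) t) (dl k) N
        (GWin.sc a L) (τ j) (gel (q j)) (ax (P.X0 Γ D k ξ) (gpr (q j))).1
        (ax (P.X0 Γ D k ξ) (gpr (q j))).2 (lp (P.X0 Γ D k ξ) (q j).1)) ∂ν := by
    congr 1
    funext t
    apply Finset.prod_congr rfl
    intro j _
    rw [hm0, hm1 t]
    rfl
  rw [hL1]
  refine (congrArg norm hint).le.trans (hmain.trans ?_)
  rw [hi]
  exact hs3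

end BE66
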