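import Pool.Agent.LibBE66.Defs
import Pool.Agent.LibBE88.V10

/-! ROW UD : the coefficients of the parametrix are invariant under deck transformations (the first
lemmas are those of LibBE99/U1, typed by helper18). -/

open MeasureTheory Set Filter Topology
open scoped ContDiff

namespace BE66

open BGS BR BE B35

section Fam

variable {Γ : Type} [Group Γ] [MulAction Γ Pl] {D : Set Pl}
variable {ι P : Type} [NormedAddCommGroup P] [NormedSpace ℝ P] [FiniteDimensional ℝ P]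
  {m : Pl → Co} {a b : ℝ} {s : ι → P × Pl → ℝ}

omit [FiniteDimensional ℝ P] in
theorem UD_gp (h : CF Γ D m a b s) (i : ι) (p : P) (γ : Γ) (x y : Pl) (r : ℝ) :
    gp m (s i) r (p, γ • x, γ • y) = γ • gp m (s i) r (p, x, y) := by
  change Ex (mm m (s i) p) (γ • x) (r • Vx (mm m (s i) p) (γ • x) (γ • y)) =
    γ • Ex (mm m (s i) p) x (r • Vx (mm m (s i) p) x y)
  rw [Vx_deck h.hX h.hO (hm_mm h i p), ← Rg_smul h.hX (hm_mm h i p),
    Ex_deck h.hX h.hO (hm_mm h i p)]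

theorem UD_LL (h : CF Γ D m a b s) (i : ι) (p : P) (γ : Γ) {u : Pl → ℝ}
    (hu : ContDiff ℝ ∞ u) (z : Pl) :
    LL (mm m (s i) p) u (γ • z) = LL (mm m (s i) p) (fun w => u (γ • w)) z :=
  (LL_pull (V10_SM h i p) (V10_SM h i p) (φ := fun w => γ • w) (ψ := fun w => γ⁻¹ • w)
    (h.hX.smooth γ) (h.hX.smooth γ⁻¹) (fun z => inv_smul_smul γ z) (fun z => smul_inv_smul γ z)
    (fun z v => (hm_mm h i p).inv γ z v) hu z).symm

theorem UD_gr (h : CF Γ D m a b s) (i : ι) (p : P) (γ : Γ) {u w : Pl → ℝ}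
    (hu : ContDiff ℝ ∞ u) (hw : ContDiff ℝ ∞ w) (z : Pl) :
    gr (mm m (s i) p) u w (γ • z) =
      gr (mm m (s i) p) (fun y => u (γ • y)) (fun y => w (γ • y)) z :=
  (gr_pull (V10_SM h i p) (V10_SM h i p) (φ := fun w => γ • w) (h.hX.smooth γ)
    (fun z v => (hm_mm h i p).inv γ z v) hu hw z).symm

theorem UD_TT (h : CF Γ D m a b s) (i : ι) (p : P) (γ : Γ) (x : Pl) {Q : P × Pl × Pl → ℝ}
    (hQ : ∀ x, ContDiff ℝ ∞ (fun y => Q (p, x, y)))
    (hd : ∀ x y, Q (p, γ • x, γ • y) = Q (p, x, y)) (z : Pl) :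
    TT m (s i) Q (p, γ • x, γ • z) = TT m (s i) Q (p, x, z) := by
  have hf : (fun w => ff m (s i) (p, γ • x, γ • w)) = fun w => ff m (s i) (p, x, w) :=
    funext fun w => ff_deck h i p γ x w
  have hq : (fun w => Q (p, γ • x, γ • w)) = fun w => Q (p, x, w) := funext fun w => hd x w
  unfold TT
  simp only
  rw [UD_LL h i p γ (hQ (γ • x)) z, UD_LL h i p γ (V10_fs h i p (γ • x)) z,
    UD_gr h i p γ (V10_fs h i p (γ • x)) (hQ (γ • x)) z,
    UD_gr h i p γ (V10_fs h i p (γ • x)) (V10_fs h i p (γ • x)) z, hd, hf, hq]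

theorem UD_uu (h : CF Γ D m a b s) (j : ℕ) (i : ι) (p : P) (γ : Γ) (x y : Pl) :
    uu m (s i) j (p, γ • x, γ • y) = uu m (s i) j (p, x, y) := by
  induction j generalizing x y with
  | zero => rw [uu_zero h, uu_zero h]
  | succ j ih =>
    rw [uu_succ h, uu_succ h]
    congr 1
    refine intervalIntegral.integral_congr fun r _ => ?_
    simp only
    rw [UD_gp h, UD_TT h i p γ x (fun x => uu_slice h i j p x) (fun x y => ih x y)]

theorem UD_UUf (h : CF Γ D m a b s) (j : ℕ) (i : ι) (p : P) (γ : Γ) (x y : Pl) :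
    UU (Gx (mm m (s i) p) (γ • x)) j (Vx (mm m (s i) p) (γ • x) (γ • y)) =
      UU (Gx (mm m (s i) p) x) j (Vx (mm m (s i) p) x y) := by
  have h1 := uu_UU h i j (p, γ • x, γ • y)
  have h2 := uu_UU h i j (p, x, y)
  rw [ff_deck h, UD_uu h] at h1
  exact h1.trans h2.symm

end Fam

variable {Γ : Type} [Group Γ] [MulAction Γ Pl] {D : Set Pl} {m : Pl → Co}

theorem UD_mm (m : Pl → Co) (p : ℝ) : mm m (fun _ : ℝ × Pl => (0 : ℝ)) p = m := by
  funext z
  unfold mm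
  rw [Real.exp_zero, one_smul]

/-- A constant family. -/
theorem UD_CF (hX : Surface Γ D) (hO : Ori Γ) (hm : HM Γ m) : ∃ a b : ℝ,
    CF Γ D m a b (fun (_ : Unit) (_ : ℝ × Pl) => (0 : ℝ)) := by
  obtain ⟨a, b, ha, hab, hk⟩ := curv_bounds hX hm
  refine ⟨a, b, hX, hO, hm, ha, fun _ => contDiff_const, fun _ _ _ _ => rfl, fun k => ?_, ?_⟩
  · refine ⟨0, fun i p hp z hz => ?_⟩
    have h : iteratedFDeriv ℝ k (fun _ : ℝ × Pl => (0 : ℝ)) = 0 := iteratedFDeriv_fun_zero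
    rw [h]
    simp
  · intro i p z
    rw [UD_mm]
    exact hk z

theorem UU_deck (hX : Surface Γ D) (hO : Ori Γ) (hm : HM Γ m) (γ : Γ) (x y : Pl) (j : ℕ) :
    UU (Gx m (γ • x)) j (Vx m (γ • x) (γ • y)) = UU (Gx m x) j (Vx m x y) := by
  obtain ⟨a, b, h⟩ := UD_CF hX hO hm
  have h1 := UD_UUf h j () 0 γ x y
  rwa [UD_mm] at h1

theorem UD_UU (hX : Surface Γ D) (hO : Ori Γ) (hm : HM Γ m) (γ : Γ) (x : Pl) (j : ℕ) (v : Pl) :
    UU (Gx m (γ • x)) j (Rg m γ x v) = UU (Gx m x) j v := by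
  have h1 := UU_deck hX hO hm γ x (Ex m x v) j
  rwa [Vx_deck hX hO hm, Vx_Ex hX hm] at h1

/-- The complex kernel is invariant. -/
theorem KC_deck (hX : Surface Γ D) (hO : Ori Γ) (hm : HM Γ m) (γ : Γ) (N : ℕ) (b : ℝ → ℂ)
    (τ : ℝ) (x y : Pl) : B35.KC m N b τ (γ • x) (γ • y) = B35.KC m N b τ x y := by
  unfold B35.KC
  refine Finset.sum_congr rfl fun j _ => ?_
  rw [UU_deck hX hO hm, (BR.ds_deck hX hO hm γ x y).1]

end BE66
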